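import Pool.Agent.N819.Four4

/-!
# Fourier coefficients of a Laplace eigenfunction, part 5
-/

set_option autoImplicit false

open MeasureTheory Filter Topology UpperHalfPlane MatrixGroups
open scoped ContDiff

namespace Pool.Agent.N819.Four

open Pool.Agent.N849.Bessel (W W_unique norm_W_le exists_W_ne_zero)
open Pool.Agent.N849.Hecke (heckeOp heckeOp_eq)

variable {G : ℝ × ℝ → ℂ} {ν : ℂ}

lemma deriv2_fst {G : ℝ × ℝ → ℂ} (hG : ContDiffOn ℝ ∞ G Om) (x : ℝ) {y : ℝ} (hy : 0 < y) :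
    deriv (deriv (fun t => G (t, y))) x = pd (1, 0) (pd (1, 0) G) (x, y) := by
  have h1 : deriv (fun t => G (t, y)) = fun t => pd (1, 0) G (t, y) := by
    funext t
    exact (hasDerivAt_fst hG t hy).deriv
  rw [h1]
  exact (hasDerivAt_fst (pd_smooth hG _) x hy).deriv

lemma deriv2_snd {G : ℝ × ℝ → ℂ} (hG : ContDiffOn ℝ ∞ G Om) (x : ℝ) {y : ℝ} (hy : 0 < y) :
    deriv (deriv (fun t => G (x, t))) y = pd (0, 1) (pd (0, 1) G) (x, y) := by
  have h1 : deriv (fun t => G (x, t)) =ᶠ[𝓝 y] fun t => pd (0, 1) G (x, t) := by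
    filter_upwards [lt_mem_nhds hy] with t ht
    exact (hasDerivAt_snd hG x ht).deriv
  rw [h1.deriv_eq]
  exact (hasDerivAt_snd (pd_smooth hG _) x hy).deriv

/-- the function on `ℝ × ℝ` -/
noncomputable def toG (φ : ℍ → ℂ) (p : ℝ × ℝ) : ℂ := φ (ofComplex (p.1 + p.2 * Complex.I))

lemma toG_smooth {φ : ℍ → ℂ}
    (hsm : ContDiffOn ℝ ∞ (fun ζ : ℂ => φ (ofComplex ζ)) {ζ | 0 < ζ.im}) :
    ContDiffOn ℝ ∞ (toG φ) Om := by
  have h1 : ContDiff ℝ ∞ (fun p : ℝ × ℝ => (p.1 : ℂ) + p.2 * Complex.I) :=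
    (Complex.ofRealCLM.contDiff.comp contDiff_fst).add
      ((Complex.ofRealCLM.contDiff.comp contDiff_snd).mul contDiff_const)
  exact hsm.comp h1.contDiffOn (fun p hp => by
    have : (0 : ℝ) < p.2 := hp
    simpa using this)

theorem GG_toG (φ : ℍ → ℂ) (M : ℝ) (hM : ∀ z, ‖φ z‖ ≤ M)
    (hper : ∀ z : ℍ, φ ((1 : ℝ) +ᵥ z) = φ z) (hodd : ∀ z : ℍ, φ (J • z) = - φ z)
    (hsm : ContDiffOn ℝ ∞ (fun ζ : ℂ => φ (ofComplex ζ)) {ζ | 0 < ζ.im})
    (ν : ℂ) (hlap : ∀ x y : ℝ, 0 < y →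
      (y : ℂ) ^ 2 * (deriv (deriv (fun t : ℝ => φ (ofComplex (t + y * Complex.I)))) x +
        deriv (deriv (fun t : ℝ => φ (ofComplex (x + t * Complex.I)))) y) =
      -(1 / 4 - ν ^ 2) * φ (ofComplex (x + y * Complex.I))) : GG (toG φ) ν where
  smooth := toG_smooth hsm
  bdd := ⟨M, fun p _ => hM _⟩
  per := fun x y hy => by
    have hw : 0 < ((x : ℂ) + y * Complex.I).im := by simpa using hy
    have := Pool.Agent.N849.Hecke.ext'_add_one hper hw
    unfold toG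
    unfold Pool.Agent.N849.Hecke.ext' at this
    rw [← this]
    congr 2
    push_cast
    ring
  odd := fun x y hy => by
    have hw : 0 < ((x : ℂ) + y * Complex.I).im := by simpa using hy
    have := Pool.Agent.N849.Hecke.ext'_conj hodd hw
    unfold toG
    unfold Pool.Agent.N849.Hecke.ext' at this
    rw [← this]
    congr 2
    simp only [map_add, map_mul, Complex.conj_ofReal, Complex.conj_I]
    push_cast
    ring
  lap := fun x y hy => by
    have := hlap x y hy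
    rw [← deriv2_fst (toG_smooth hsm) x hy, ← deriv2_snd (toG_smooth hsm) x hy]
    exact this

/-- FOURIER -/
theorem fourier (φ : ℍ → ℂ) (M : ℝ) (hM : ∀ z, ‖φ z‖ ≤ M)
    (hper : ∀ z : ℍ, φ ((1 : ℝ) +ᵥ z) = φ z) (hodd : ∀ z : ℍ, φ (J • z) = - φ z)
    (hsm : ContDiffOn ℝ ∞ (fun ζ : ℂ => φ (ofComplex ζ)) {ζ | 0 < ζ.im})
    (ν : ℂ) (hlap : ∀ x y : ℝ, 0 < y →
      (y : ℂ) ^ 2 * (deriv (deriv (fun t : ℝ => φ (ofComplex (t + y * Complex.I)))) x +
        deriv (deriv (fun t : ℝ => φ (ofComplex (x + t * Complex.I)))) y) =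
      -(1 / 4 - ν ^ 2) * φ (ofComplex (x + y * Complex.I))) :
    ∃ C : ℕ → ℂ, C 0 = 0 ∧ (∃ B : ℝ, ∀ n, ‖C n‖ ≤ B) ∧
      (∀ x y : ℝ, 0 < y → HasSum (fun n : ℕ => C n * W ν (n * y) *
        (2 * Complex.I * Real.sin (2 * Real.pi * n * x))) (φ (ofComplex (x + y * Complex.I)))) ∧
      (∀ (p : ℕ) (hp : p.Prime) (c : ℂ), (∀ z, heckeOp p hp.ne_zero φ z = c * φ z) →
        ∀ n : ℕ, 1 ≤ n → c * C n = p * C (p * n) + if p ∣ n then C (n / p) else 0) := by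
  have hG := GG_toG φ M hM hper hodd hsm ν hlap
  refine ⟨Cf (toG φ) ν, Cf_zero, hG.Cf_bound, fun x y hy => hG.hasSum x hy, ?_⟩
  intro p hp c hc n hn
  refine hG.hecke hp.pos c (fun x y hy => ?_) hn
  have hw : 0 < ((x : ℂ) + y * Complex.I).im := by simpa using hy
  have h1 := hc (⟨_, hw⟩ : ℍ)
  have hcoe : (((⟨_, hw⟩ : ℍ) : ℍ) : ℂ) = (x : ℂ) + y * Complex.I := rfl
  rw [heckeOp_eq] at h1
  have h2 : φ (⟨_, hw⟩ : ℍ) = toG φ (x, y) := by
    rw [← Pool.Agent.N849.Hecke.ext'_coe φ, hcoe]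
    rfl
  rw [h2, hcoe] at h1
  rw [← h1]
  have hp' : (p : ℂ) ≠ 0 := by exact_mod_cast hp.ne_zero
  congr 1
  · unfold toG Pool.Agent.N849.Hecke.ext'
    congr 2
    push_cast
    ring
  · refine Finset.sum_congr rfl fun b _ => ?_
    unfold toG Pool.Agent.N849.Hecke.ext'
    congr 2
    push_cast
    field_simp
    ring

end Pool.Agent.N819.Four
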