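import Pool.Agent.N819.Lop

/-!
# The automorphic kernel
-/

set_option autoImplicit false

open UpperHalfPlane MeasureTheory Filter Topology MatrixGroups
open Matrix.SpecialLinearGroup (mapGL)
open scoped Modular

namespace Pool.Agent.N819

instance : Countable SL(2, ℤ) := by
  have : Countable (Matrix (Fin 2) (Fin 2) ℤ) :=
    inferInstanceAs (Countable (Fin 2 → Fin 2 → ℤ))
  exact inferInstanceAs (Countable {A : Matrix (Fin 2) (Fin 2) ℤ // A.det = 1})

lemma sl_smul_eq (γ : SL(2, ℤ)) (z : ℍ) : γ • z = (mapGL ℝ γ : GL (Fin 2) ℝ) • z := rfl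

lemma mapGL_inj : Function.Injective (mapGL ℝ : SL(2, ℤ) → GL (Fin 2) ℝ) :=
  Matrix.SpecialLinearGroup.mapGL_injective

lemma finite_of_compact {K L : Set ℍ} (hK : IsCompact K) (hL : IsCompact L) :
    {γ : SL(2, ℤ) | ∃ w ∈ K, γ • w ∈ L}.Finite := by
  have h := ProperlyDiscontinuousSMul.finite_disjoint_inter_image (Γ := 𝒮ℒ) hK hL
  let j : SL(2, ℤ) → 𝒮ℒ := fun γ => ⟨mapGL ℝ γ, ⟨γ, rfl⟩⟩
  have hj : Function.Injective j := fun a b hab => mapGL_inj (congrArg Subtype.val hab)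
  refine (h.preimage (f := j) hj.injOn).subset ?_
  rintro γ ⟨w, hw, hγ⟩
  exact ⟨γ • w, ⟨w, hw, rfl⟩, hγ⟩

lemma vv_sl (γ : SL(2, ℤ)) (z w : ℍ) : vv (γ • z) (γ • w) = vv z w := vv_smul _ z w

/-- conjugation with the reflection -/
def conjJ (γ : SL(2, ℤ)) : SL(2, ℤ) :=
  ⟨!![γ 0 0, - γ 0 1; - γ 1 0, γ 1 1], by
    have := γ.det_coe
    rw [Matrix.det_fin_two] at this
    rw [Matrix.det_fin_two_of]
    linarith⟩

lemma conjJ_conjJ (γ : SL(2, ℤ)) : conjJ (conjJ γ) = γ := by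
  ext i j
  fin_cases i <;> fin_cases j <;> simp [conjJ]

def conjJEquiv : SL(2, ℤ) ≃ SL(2, ℤ) := ⟨conjJ, conjJ, conjJ_conjJ, conjJ_conjJ⟩

lemma J_smul_sl (γ : SL(2, ℤ)) (z : ℍ) : J • (γ • z) = conjJ γ • (J • z) := by
  rw [sl_smul_eq, sl_smul_eq, ← mul_smul, ← mul_smul]
  congr 1
  ext i j
  fin_cases i <;> fin_cases j <;> simp [conjJ, J, Matrix.mul_apply, Fin.sum_univ_two]

lemma sl_smul_J (γ : SL(2, ℤ)) (z : ℍ) : γ • (J • z) = J • (conjJ γ • z) := by
  rw [J_smul_sl, conjJ_conjJ]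

lemma J_J (z : ℍ) : J • (J • z) = z := by
  rw [← mul_smul, ← sq, J_sq, one_smul]

variable {h : ℝ → ℝ}

/-- the sum of the kernel over the modular group -/
noncomputable def PP (h : ℝ → ℝ) (z w : ℍ) : ℝ := ∑' γ : SL(2, ℤ), h (vv z (γ • w))

lemma PP_finite {R : ℝ} (hR : ∀ v, R ≤ v → h v = 0) (z w : ℍ) :
    (Function.support fun γ : SL(2, ℤ) => h (vv z (γ • w))).Finite := by
  refine (finite_of_compact (isCompact_singleton (x := w))
    (isCompact_closedBall z (R + 1))).subset ?_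
  intro γ hγ
  refine ⟨w, rfl, ?_⟩
  rw [Metric.mem_closedBall']
  apply dist_le_of_vv_le
  by_contra hlt
  push Not at hlt
  exact hγ (hR _ hlt.le)

lemma PP_smul_right (γ₀ : SL(2, ℤ)) (z w : ℍ) : PP h z (γ₀ • w) = PP h z w := by
  unfold PP
  rw [← (Equiv.mulRight γ₀).tsum_eq (fun γ : SL(2, ℤ) => h (vv z (γ • w)))]
  congr 1
  funext γ
  rw [Equiv.coe_mulRight, mul_smul]

lemma PP_comm (z w : ℍ) : PP h z w = PP h w z := by
  unfold PP
  rw [← (Equiv.inv SL(2, ℤ)).tsum_eq (fun γ : SL(2, ℤ) => h (vv w (γ • z)))]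
  congr 1
  funext γ
  rw [Equiv.inv_apply, ← vv_sl γ w (γ⁻¹ • z), smul_inv_smul, vv_comm]

lemma PP_J (z w : ℍ) : PP h (J • z) (J • w) = PP h z w := by
  unfold PP
  rw [← conjJEquiv.tsum_eq (fun γ : SL(2, ℤ) => h (vv z (γ • w)))]
  congr 1
  funext γ
  change h (vv (J • z) (γ • J • w)) = h (vv z (conjJ γ • w))
  rw [sl_smul_J, vv_smul]

/-- the odd automorphic kernel -/
noncomputable def KK (h : ℝ → ℝ) (z w : ℍ) : ℝ := PP h z w - PP h z (J • w)

lemma KK_smul_right (γ : SL(2, ℤ)) (z w : ℍ) : KK h z (γ • w) = KK h z w := by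
  unfold KK
  rw [PP_smul_right, J_smul_sl, PP_smul_right]

lemma KK_comm (z w : ℍ) : KK h z w = KK h w z := by
  unfold KK
  have : PP h w (J • z) = PP h z (J • w) := by
    rw [← PP_J w (J • z), J_J, PP_comm]
  rw [this, PP_comm]

lemma KK_J_right (z w : ℍ) : KK h z (J • w) = - KK h z w := by
  unfold KK
  rw [J_J]
  ring

lemma KK_smul_left (γ : SL(2, ℤ)) (z w : ℍ) : KK h (γ • z) w = KK h z w := by
  rw [KK_comm, KK_smul_right, KK_comm]

lemma KK_J_left (z w : ℍ) : KK h (J • z) w = - KK h z w := by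
  rw [KK_comm, KK_J_right, KK_comm]

lemma measurable_PP' (hc : Continuous h) (h0 : ∀ v, 0 ≤ h v) :
    Measurable fun p : ℍ × ℍ => PP h p.1 p.2 := by
  have e : (fun p : ℍ × ℍ => PP h p.1 p.2) = fun p : ℍ × ℍ =>
      (∑' γ : SL(2, ℤ), ENNReal.ofReal (h (vv p.1 (γ • p.2)))).toReal := by
    funext p
    rw [ENNReal.tsum_toReal_eq (fun _ => ENNReal.ofReal_ne_top)]
    simp only [PP, ENNReal.toReal_ofReal (h0 _)]
  rw [e]
  refine Measurable.ennreal_toReal (Measurable.tsum fun γ => ?_)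
  refine Measurable.ennreal_ofReal ?_
  have h1 : Continuous fun p : ℍ × ℍ => (p.1, γ • p.2) :=
    continuous_fst.prodMk ((continuous_const_smul (mapGL ℝ γ : GL (Fin 2) ℝ)).comp continuous_snd)
  exact (hc.comp (continuous_vv.comp h1)).measurable

lemma measurable_KK (hc : Continuous h) (h0 : ∀ v, 0 ≤ h v) :
    Measurable (Function.uncurry (KK h)) := by
  have h1 := measurable_PP' hc h0
  have h2 : Measurable fun p : ℍ × ℍ => (p.1, (J : GL (Fin 2) ℝ) • p.2) :=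
    (continuous_fst.prodMk ((continuous_const_smul (J : GL (Fin 2) ℝ)).comp
      continuous_snd)).measurable
  have h4 := h1.comp h2
  have e : Function.uncurry (KK h) =
      (fun p : ℍ × ℍ => PP h p.1 p.2) - ((fun p : ℍ × ℍ => PP h p.1 p.2) ∘
        fun p : ℍ × ℍ => (p.1, (J : GL (Fin 2) ℝ) • p.2)) := by
    funext p
    rfl
  rw [e]
  exact h1.sub h4

end Pool.Agent.N819
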