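import Mathlib

/-!
# Point-pair invariants on the upper half plane

`vv z w = |z - w|² / (2 Im z Im w) = cosh d(z, w) - 1`.
-/

set_option autoImplicit false

open UpperHalfPlane MeasureTheory

namespace Pool.Agent.N819

/-- `cosh d(z, w) - 1` -/
noncomputable def vv (z w : ℍ) : ℝ := ‖(z : ℂ) - w‖ ^ 2 / (2 * z.im * w.im)

lemma vv_eq (z w : ℍ) :
    vv z w = ((z.re - w.re) ^ 2 + (z.im - w.im) ^ 2) / (2 * z.im * w.im) := by
  unfold vv
  congr 1
  rw [← Complex.normSq_eq_norm_sq, Complex.normSq_apply]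
  simp [Complex.sub_re, Complex.sub_im, pow_two]

lemma vv_eq_cosh (z w : ℍ) : vv z w = Real.cosh (dist z w) - 1 := by
  rw [UpperHalfPlane.cosh_dist, vv, Complex.dist_eq]
  ring

lemma vv_nonneg (z w : ℍ) : 0 ≤ vv z w := by
  unfold vv
  have h1 := z.im_pos
  have h2 := w.im_pos
  positivity

lemma vv_comm (z w : ℍ) : vv z w = vv w z := by
  unfold vv
  rw [norm_sub_rev]
  ring

lemma vv_self (z : ℍ) : vv z z = 0 := by simp [vv]

lemma coe_smul_sub (g : GL (Fin 2) ℝ) (z w : ℍ) :
    ‖((g • z : ℍ) : ℂ) - ((g • w : ℍ) : ℂ)‖ =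
      |g.det.val| * ‖(z : ℂ) - w‖ / (‖denom g z‖ * ‖denom g w‖) := by
  rw [UpperHalfPlane.coe_smul, UpperHalfPlane.coe_smul, ← map_sub, norm_σ]
  have h1 := denom_ne_zero g z
  have h2 := denom_ne_zero g w
  rw [div_sub_div _ _ h1 h2, norm_div, norm_mul]
  congr 1
  have : num g z * denom g w - denom g z * num g w = (g.det.val : ℂ) * ((z : ℂ) - w) := by
    simp only [num, denom, Matrix.GeneralLinearGroup.val_det_apply, Matrix.det_fin_two]
    push_cast
    ring
  rw [this, norm_mul, Complex.norm_real, Real.norm_eq_abs]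

lemma vv_smul (g : GL (Fin 2) ℝ) (z w : ℍ) : vv (g • z) (g • w) = vv z w := by
  unfold vv
  rw [coe_smul_sub, UpperHalfPlane.im_smul_eq_div_normSq, UpperHalfPlane.im_smul_eq_div_normSq,
    Complex.normSq_eq_norm_sq, Complex.normSq_eq_norm_sq]
  have h1 : ‖denom g z‖ ≠ 0 := norm_ne_zero_iff.2 (denom_ne_zero g z)
  have h2 : ‖denom g w‖ ≠ 0 := norm_ne_zero_iff.2 (denom_ne_zero g w)
  have h3 : |g.det.val| ≠ 0 := abs_ne_zero.2 g.det.ne_zero
  have h4 := z.im_ne_zero
  have h5 := w.im_ne_zero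
  field_simp

lemma dist_smul_gl (g : GL (Fin 2) ℝ) (z w : ℍ) : dist (g • z) (g • w) = dist z w := by
  have h := vv_smul g z w
  rw [vv_eq_cosh, vv_eq_cosh] at h
  have h' : Real.cosh (dist (g • z) (g • w)) = Real.cosh (dist z w) := by linarith
  have := Real.cosh_injOn.eq_iff (Set.mem_Ici.2 (dist_nonneg)) (Set.mem_Ici.2 (dist_nonneg)) |>.1 h'
  exact this

/-- any two points are exchanged by an isometry -/
lemma exists_swap (z w : ℍ) : ∃ g : GL (Fin 2) ℝ, g • z = w ∧ g • w = z := by
  set x := z.re with hx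
  set y := z.im with hy
  set x' := w.re with hx'
  set y' := w.im with hy'
  have hy0 : 0 < y := z.im_pos
  have hy0' : 0 < y' := w.im_pos
  set c := y + y' with hc
  set a := x * y' + x' * y with ha
  set b := c * (x * x' - y * y') - a * (x + x') with hb
  -- scaled so that the equation is `a (z + w) + b / ... `: we use `c a` for `a`
  have hdet : (a * c) * (-(a * c)) - (b * c) * (c * c) =
      c ^ 2 * (y * y' * ((x - x') ^ 2 + (y + y') ^ 2)) := by
    rw [hb, ha, hc]; ring
  have hpos : 0 < (a * c) * (-(a * c)) - (b * c) * (c * c) := by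
    rw [hdet]
    have : 0 < c := by positivity
    positivity
  let M : Matrix (Fin 2) (Fin 2) ℝ := !![a * c, b * c; c * c, -(a * c)]
  have hM : M.det ≠ 0 := by
    rw [Matrix.det_fin_two_of]; exact ne_of_gt hpos
  let g : GL (Fin 2) ℝ := Matrix.GeneralLinearGroup.mkOfDetNeZero M hM
  have hg : 0 < g.det.val := by
    have : g.det.val = M.det := rfl
    rw [this, Matrix.det_fin_two_of]; exact hpos
  have hzc : (z : ℂ) = x + y * Complex.I := (UpperHalfPlane.re_add_im z).symm
  have hwc : (w : ℂ) = x' + y' * Complex.I := (UpperHalfPlane.re_add_im w).symm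
  have key : (a : ℂ) * (z + w) + b - c * (z * w) = 0 := by
    rw [hzc, hwc]
    apply Complex.ext
    · simp
      rw [hb]; ring
    · simp
      rw [ha, hc]; ring
  have e : ∀ u v : ℍ, (a : ℂ) * (u + v) + b - c * (u * v) = 0 → g • u = v := by
    intro u v huv
    apply UpperHalfPlane.ext
    rw [coe_smul_of_det_pos hg]
    have h1 := denom_ne_zero g u
    rw [div_eq_iff h1]
    have n1 : num g u = (a * c : ℝ) * u + (b * c : ℝ) := rfl
    have n2 : denom g u = (c * c : ℝ) * u + (-(a * c) : ℝ) := rfl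
    rw [n1, n2]
    push_cast
    linear_combination (c : ℂ) * huv
  refine ⟨g, e z w key, e w z ?_⟩
  linear_combination key

end Pool.Agent.N819
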