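import Pool.Agent.N819.Auto

/-!
# The odd automorphic kernel is bounded
-/

set_option autoImplicit false

open UpperHalfPlane MeasureTheory Filter Topology MatrixGroups
open Matrix.SpecialLinearGroup (mapGL)
open scoped Modular

namespace Pool.Agent.N819

/-- sums over `ℤ` of an even unimodal function depend little on the translate -/
lemma unimodal_aux {φ : ℝ → ℝ} (heven : ∀ t, φ (-t) = φ t)
    (hanti : ∀ s t, 0 ≤ s → s ≤ t → φ t ≤ φ s) (B : ℝ) (hB : ∀ t, B ≤ |t| → φ t = 0)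
    {α : ℝ} (h0 : 0 ≤ α) (h1 : α ≤ 1) :
    2 * (∑' n : ℕ, φ (n + 1)) ≤ ∑' n : ℤ, φ (α + n) ∧
    ∑' n : ℤ, φ (α + n) ≤ 2 * φ 0 + 2 * (∑' n : ℕ, φ (n + 1)) := by
  -- summability of everything in sight
  have hfin : ∀ β : ℝ, (Function.support fun n : ℤ => φ (β + n)).Finite := by
    intro β
    refine (Set.finite_Icc (⌈-|B| - β⌉) (⌊|B| - β⌋)).subset ?_
    intro n hn
    have : |β + n| < B := by
      by_contra hle
      push Not at hle
      exact hn (hB _ hle)
    have hB' := le_abs_self B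
    rw [abs_lt] at this
    refine ⟨?_, ?_⟩
    · rw [Int.ceil_le]; linarith
    · rw [Int.le_floor]; linarith
  have hs : ∀ β : ℝ, Summable fun n : ℤ => φ (β + n) := fun β =>
    summable_of_hasFiniteSupport (hfin β)
  have hsn : ∀ β : ℝ, Summable fun n : ℕ => φ (β + n) := fun β => by
    have := (hs β).comp_injective (Nat.cast_injective (R := ℤ))
    refine this.congr fun n => ?_
    simp
  have hsn1 : Summable fun n : ℕ => φ (n + 1) := by
    refine (hsn 1).congr fun n => ?_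
    rw [add_comm]
  have hsn2 : Summable fun n : ℕ => φ (α - (n + 1)) := by
    refine (hsn (1 - α)).congr fun n => ?_
    rw [← heven]; congr 1; ring
  have e1 : ∑' n : ℤ, φ (α + n) = ∑' n : ℕ, φ (α + n) + ∑' n : ℕ, φ (α - (n + 1)) := by
    have a1 : HasSum (fun n : ℕ => (fun m : ℤ => φ (α + m)) (n : ℤ)) (∑' n : ℕ, φ (α + n)) := by
      simpa using (hsn α).hasSum
    have a2 : HasSum (fun n : ℕ => (fun m : ℤ => φ (α + m)) (-((n : ℤ) + 1)))
        (∑' n : ℕ, φ (α - (n + 1))) := by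
      refine hsn2.hasSum.congr_fun ?_ |> id
      intro n
      simp only
      congr 1
      push_cast
      ring
    exact (HasSum.of_nat_of_neg_add_one a1 a2).tsum_eq
  have e2 : ∑' n : ℕ, φ n = φ 0 + ∑' n : ℕ, φ (n + 1) := by
    have := (Summable.sum_add_tsum_nat_add 1 (f := fun n : ℕ => φ n) (by simpa using hsn 0)).symm
    simpa using this
  have b1 : ∑' n : ℕ, φ (n + 1) ≤ ∑' n : ℕ, φ (α + n) :=
    Summable.tsum_le_tsum (fun n => hanti _ _ (by positivity) (by linarith)) hsn1 (hsn α)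
  have b2 : ∑' n : ℕ, φ (α + n) ≤ ∑' n : ℕ, φ n :=
    Summable.tsum_le_tsum (fun n => hanti _ _ (by positivity) (by linarith)) (hsn α)
      (by simpa using hsn 0)
  have b3 : ∑' n : ℕ, φ (n + 1) ≤ ∑' n : ℕ, φ (α - (n + 1)) := by
    refine Summable.tsum_le_tsum (fun n => ?_) hsn1 hsn2
    rw [← heven (α - (n + 1))]
    have hn : (0 : ℝ) ≤ n := Nat.cast_nonneg n
    exact hanti _ _ (by linarith) (by linarith)
  have b4 : ∑' n : ℕ, φ (α - (n + 1)) ≤ ∑' n : ℕ, φ n := by
    refine Summable.tsum_le_tsum (fun n => ?_) hsn2 (by simpa using hsn 0)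
    rw [← heven (α - (n + 1))]
    exact hanti _ _ (by positivity) (by linarith)
  rw [e1]
  constructor
  · linarith
  · linarith

lemma unimodal {φ : ℝ → ℝ} (heven : ∀ t, φ (-t) = φ t)
    (hanti : ∀ s t, 0 ≤ s → s ≤ t → φ t ≤ φ s) (B : ℝ) (hB : ∀ t, B ≤ |t| → φ t = 0)
    (α β : ℝ) : |∑' n : ℤ, φ (α + n) - ∑' n : ℤ, φ (β + n)| ≤ 2 * φ 0 := by
  have hfr : ∀ γ : ℝ, ∑' n : ℤ, φ (γ + n) = ∑' n : ℤ, φ (Int.fract γ + n) := by
    intro γ
    rw [← (Equiv.addLeft ⌊γ⌋).tsum_eq (fun n : ℤ => φ (Int.fract γ + n))]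
    congr 1
    funext n
    congr 1
    rw [Equiv.coe_addLeft]
    push_cast
    have := Int.floor_add_fract γ
    linarith
  rw [hfr α, hfr β]
  have h1 := unimodal_aux heven hanti B hB (Int.fract_nonneg α) (Int.fract_lt_one α).le
  have h2 := unimodal_aux heven hanti B hB (Int.fract_nonneg β) (Int.fract_lt_one β).le
  rw [abs_le]
  constructor <;> linarith [h1.1, h1.2, h2.1, h2.2]

end Pool.Agent.N819
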