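import Pool.Agent.N819.Bound

/-!
# The odd automorphic kernel is bounded
-/

set_option autoImplicit false

open UpperHalfPlane MeasureTheory Filter Topology MatrixGroups
open Matrix.SpecialLinearGroup (mapGL)
open scoped Modular

namespace Pool.Agent.N819

open ModularGroup (T)

lemma eq_T_of_c {g : SL(2, ℤ)} (hc : g 1 0 = 0) : ∃ n : ℤ, g = T ^ n ∨ g = - T ^ n := by
  have had := g.det_coe
  replace had : g 0 0 * g 1 1 = 1 := by rw [Matrix.det_fin_two, hc] at had; lia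
  rcases Int.eq_one_or_neg_one_of_mul_eq_one' had with (⟨ha, hd⟩ | ⟨ha, hd⟩)
  · refine ⟨g 0 1, Or.inl ?_⟩
    ext i j; fin_cases i <;> fin_cases j <;>
      simp [ha, hc, hd, ModularGroup.coe_T_zpow, show (1 : Fin (0 + 2)) = (1 : Fin 2) from rfl]
  · refine ⟨-(g 0 1), Or.inr ?_⟩
    ext i j; fin_cases i <;> fin_cases j <;>
      simp [ha, hc, hd, ModularGroup.coe_T_zpow, show (1 : Fin (0 + 2)) = (1 : Fin 2) from rfl]

lemma T_c (n : ℤ) : (T ^ n : SL(2, ℤ)) 1 0 = 0 := by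
  rw [ModularGroup.coe_T_zpow]; simp

lemma T_d (n : ℤ) : (T ^ n : SL(2, ℤ)) 1 1 = 1 := by
  rw [ModularGroup.coe_T_zpow]; simp

lemma T_b (n : ℤ) : (T ^ n : SL(2, ℤ)) 0 1 = n := by
  rw [ModularGroup.coe_T_zpow]; simp

/-- the elements with `c = 0` -/
def ψ (p : Bool × ℤ) : SL(2, ℤ) := if p.1 then T ^ p.2 else - T ^ p.2

lemma ψ_inj : Function.Injective ψ := by
  rintro ⟨a, n⟩ ⟨b, m⟩ hab
  have h11 := congrArg (fun g : SL(2, ℤ) => g 1 1) hab
  have h01 := congrArg (fun g : SL(2, ℤ) => g 0 1) hab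
  cases a <;> cases b <;>
    simp [ψ, Matrix.SpecialLinearGroup.coe_neg, T_d, T_b] at h11 h01 ⊢ <;> assumption

lemma ψ_c (p : Bool × ℤ) : ψ p 1 0 = 0 := by
  obtain ⟨a, n⟩ := p
  cases a <;> simp [ψ, Matrix.SpecialLinearGroup.coe_neg, T_c]

lemma ψ_smul (p : Bool × ℤ) (w : ℍ) : ψ p • w = (T ^ p.2 : SL(2, ℤ)) • w := by
  obtain ⟨a, n⟩ := p
  cases a <;> simp [ψ]

variable {h : ℝ → ℝ}

open Classical in
lemma PP_split {R : ℝ} (hR : ∀ v, R ≤ v → h v = 0) (z w : ℍ) :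
    PP h z w = 2 * (∑' n : ℤ, h (vv z ((T ^ n : SL(2, ℤ)) • w))) +
      ∑' γ : SL(2, ℤ), (if γ 1 0 = 0 then 0 else h (vv z (γ • w))) := by
  have hf := PP_finite hR z w
  have s1 : Summable fun γ : SL(2, ℤ) => if γ 1 0 = 0 then h (vv z (γ • w)) else 0 := by
    apply summable_of_hasFiniteSupport
    refine hf.subset fun γ hγ => ?_
    by_contra h0
    apply hγ
    simp only [Function.mem_support, not_not] at h0
    show (if γ 1 0 = 0 then h (vv z (γ • w)) else 0) = 0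
    rw [h0, ite_self]
  have s2 : Summable fun γ : SL(2, ℤ) => if γ 1 0 = 0 then 0 else h (vv z (γ • w)) := by
    apply summable_of_hasFiniteSupport
    refine hf.subset fun γ hγ => ?_
    by_contra h0
    apply hγ
    simp only [Function.mem_support, not_not] at h0
    show (if γ 1 0 = 0 then 0 else h (vv z (γ • w))) = 0
    rw [h0, ite_self]
  have e1 : PP h z w = ∑' γ : SL(2, ℤ), (if γ 1 0 = 0 then h (vv z (γ • w)) else 0) +
      ∑' γ : SL(2, ℤ), (if γ 1 0 = 0 then 0 else h (vv z (γ • w))) := by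
    rw [← s1.tsum_add s2]
    unfold PP
    congr 1
    funext γ
    split_ifs <;> simp
  rw [e1]
  congr 1
  have e2 : ∑' p : Bool × ℤ, (fun γ : SL(2, ℤ) => if γ 1 0 = 0 then h (vv z (γ • w)) else 0) (ψ p) =
      ∑' γ : SL(2, ℤ), (if γ 1 0 = 0 then h (vv z (γ • w)) else 0) := by
    refine ψ_inj.tsum_eq (f := fun γ : SL(2, ℤ) => if γ 1 0 = 0 then h (vv z (γ • w)) else 0) ?_
    intro γ hγ
    have hc : γ 1 0 = 0 := by
      by_contra hc
      apply hγ
      simp [hc]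
    obtain ⟨n, hn | hn⟩ := eq_T_of_c hc
    · exact ⟨(true, n), by simp [ψ, hn]⟩
    · exact ⟨(false, n), by simp [ψ, hn]⟩
  rw [← e2]
  have s3 : Summable fun p : Bool × ℤ =>
      (fun γ : SL(2, ℤ) => if γ 1 0 = 0 then h (vv z (γ • w)) else 0) (ψ p) :=
    s1.comp_injective ψ_inj
  rw [s3.tsum_prod, tsum_bool]
  simp only [ψ_c, if_true, ψ_smul]
  ring

lemma vv_T (z w : ℍ) (n : ℤ) : vv z ((T ^ n : SL(2, ℤ)) • w) =
    ((w.re - z.re + n) ^ 2 + (z.im - w.im) ^ 2) / (2 * z.im * w.im) := by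
  rw [vv_eq, ModularGroup.re_T_zpow_smul, ModularGroup.im_T_zpow_smul]
  congr 2
  ring

lemma J_re (w : ℍ) : (J • w).re = - w.re := by
  rw [← coe_re, coe_J_smul]; simp

lemma J_im (w : ℍ) : (J • w).im = w.im := by
  rw [← coe_im, coe_J_smul]; simp

lemma cusp_bound (h1 : ∀ v, h v ≤ 1) (ha : Antitone h) {R : ℝ} (hR : ∀ v, R ≤ v → h v = 0)
    (z w : ℍ) : |∑' n : ℤ, h (vv z ((T ^ n : SL(2, ℤ)) • w)) -
      ∑' n : ℤ, h (vv z ((T ^ n : SL(2, ℤ)) • (J • w)))| ≤ 2 := by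
  have hz := z.im_pos
  have hw := w.im_pos
  set φ : ℝ → ℝ := fun t => h ((t ^ 2 + (z.im - w.im) ^ 2) / (2 * z.im * w.im)) with hφ
  have key := unimodal (φ := φ) (fun t => by simp [hφ])
    (fun s t hs hst => by
      apply ha
      gcongr) (|R| * (2 * z.im * w.im) + 1) (fun t ht => by
      apply hR
      rw [le_div_iff₀ (by positivity)]
      have h2 : |t| ≤ t ^ 2 + 0 ∨ |t| < 1 := by
        by_cases hh : |t| < 1
        · exact Or.inr hh
        · left
          push Not at hh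
          have : |t| * 1 ≤ |t| * |t| := by gcongr
          rw [← sq, sq_abs] at this
          linarith
      have h3 : (0 : ℝ) ≤ |R| * (2 * z.im * w.im) := by positivity
      have h4 : R * (2 * z.im * w.im) ≤ |R| * (2 * z.im * w.im) := by
        gcongr
        exact le_abs_self R
      rcases h2 with h2 | h2
      · nlinarith [sq_nonneg (z.im - w.im)]
      · linarith) (w.re - z.re) (- w.re - z.re)
  have e1 : ∀ n : ℤ, h (vv z ((T ^ n : SL(2, ℤ)) • w)) = φ (w.re - z.re + n) := fun n => by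
    rw [vv_T]
  have e2 : ∀ n : ℤ, h (vv z ((T ^ n : SL(2, ℤ)) • (J • w))) = φ (- w.re - z.re + n) := fun n => by
    rw [vv_T, J_re, J_im]
  simp_rw [e1, e2]
  refine key.trans ?_
  have : φ 0 ≤ 1 := h1 _
  linarith

lemma J_mem_fd {w : ℍ} (hw : w ∈ 𝒟) : J • w ∈ 𝒟 := by
  refine ⟨?_, ?_⟩
  · have h1 := hw.1
    have h2 := J_re w
    have h3 := J_im w
    rw [Complex.normSq_apply] at h1 ⊢
    simp only [coe_re, coe_im] at h1 ⊢
    rw [h2, h3]
    linarith
  · rw [J_re, abs_neg]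
    exact hw.2

lemma fd_im {w : ℍ} (hw : w ∈ 𝒟) : 1 / 2 ≤ w.im := by
  have := ModularGroup.three_le_four_mul_im_sq_of_mem_fd hw
  nlinarith [w.im_pos]

open Classical in
lemma rest_bound (h1 : ∀ v, h v ≤ 1) {R : ℝ} (hR : ∀ v, R ≤ v → h v = 0) :
    ∃ N : ℕ, ∀ z ∈ 𝒟, ∀ w ∈ 𝒟,
      ∑' γ : SL(2, ℤ), (if γ 1 0 = 0 then 0 else h (vv z (γ • w))) ≤ N := by
  set ρ := |R| + 1 with hρ
  have hρ0 : 0 ≤ ρ := by positivity
  set Y := 2 * Real.exp ρ with hY
  set K := ModularGroup.truncatedFundamentalDomain Y with hK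
  have hKc : IsCompact K := ModularGroup.isCompact_truncatedFundamentalDomain Y
  obtain ⟨r, hr⟩ := hKc.isBounded.subset_closedBall I
  set S := {γ : SL(2, ℤ) | ∃ w ∈ K, γ • w ∈ Metric.closedBall I (r + ρ)} with hS
  have hSf : S.Finite := finite_of_compact hKc (isCompact_closedBall I (r + ρ))
  refine ⟨hSf.toFinset.card, fun z hz w hw => ?_⟩
  have hsub : ∀ γ : SL(2, ℤ), γ ∉ hSf.toFinset →
      (if γ 1 0 = 0 then 0 else h (vv z (γ • w))) = 0 := by
    intro γ hγ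
    by_cases hc : γ 1 0 = 0
    · simp [hc]
    rw [if_neg hc]
    apply hR
    by_contra hlt
    push Not at hlt
    apply hγ
    rw [Set.Finite.mem_toFinset]
    have hd : dist z (γ • w) ≤ ρ := by
      refine (dist_le_of_vv_le hlt.le).trans ?_
      rw [hρ]
      have := le_abs_self R
      linarith
    have hzim := fd_im hz
    have hwim := fd_im hw
    have him : (γ • w).im ≤ 1 / w.im := by
      rw [ModularGroup.im_smul_eq_div_normSq]
      have h2 := UpperHalfPlane.c_mul_im_sq_le_normSq_denom (γ : GL (Fin 2) ℝ) w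
      have h3 : (1 : ℝ) ≤ ((γ 1 0 : ℤ) : ℝ) ^ 2 := by
        have : (1 : ℤ) ≤ (γ 1 0) ^ 2 := by
          have := sq_nonneg (γ 1 0)
          have h4 : (γ 1 0) ^ 2 ≠ 0 := pow_ne_zero 2 hc
          omega
        exact_mod_cast this
      have h4 : (w.im) ^ 2 ≤ Complex.normSq (denom (γ : GL (Fin 2) ℝ) w) := by
        refine le_trans ?_ h2
        have : ((γ : GL (Fin 2) ℝ) 1 0 : ℝ) = ((γ 1 0 : ℤ) : ℝ) := by simp
        rw [mul_pow, this]
        nlinarith [sq_nonneg w.im]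
      rw [div_le_div_iff₀ (normSq_denom_pos _ w.im_ne_zero) w.im_pos]
      nlinarith
    have him2 : 1 / w.im ≤ 2 := by
      rw [div_le_iff₀ w.im_pos]; linarith
    have h5 : z.im ≤ (γ • w).im * Real.exp (dist z (γ • w)) := im_le_im_mul_exp_dist _ _
    have h6 : (γ • w).im ≤ z.im * Real.exp (dist (γ • w) z) := im_le_im_mul_exp_dist _ _
    have hexp : Real.exp (dist z (γ • w)) ≤ Real.exp ρ := Real.exp_le_exp.2 hd
    have hexp0 := Real.exp_pos ρ
    have hzY : z.im ≤ Y := by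
      calc z.im ≤ (γ • w).im * Real.exp (dist z (γ • w)) := h5
        _ ≤ 2 * Real.exp ρ := by
          apply mul_le_mul (him.trans him2) hexp (Real.exp_pos _).le (by norm_num)
    have hwY : w.im ≤ Y := by
      -- `1/2 ≤ z.im ≤ Im(γ w) e^ρ ≤ e^ρ / w.im`
      have h7 : z.im ≤ (1 / w.im) * Real.exp ρ :=
        h5.trans (mul_le_mul him hexp (Real.exp_pos _).le (by
          have := w.im_pos
          positivity))
      have h8 : 1 / 2 ≤ (1 / w.im) * Real.exp ρ := hzim.trans h7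
      rw [one_div_mul_eq_div, le_div_iff₀ w.im_pos] at h8
      linarith
    refine ⟨w, ⟨hw, hwY⟩, ?_⟩
    have h9 : z ∈ Metric.closedBall I r := hr ⟨hz, hzY⟩
    rw [Metric.mem_closedBall] at h9 ⊢
    calc dist (γ • w) I ≤ dist (γ • w) z + dist z I := dist_triangle _ _ _
      _ ≤ ρ + r := add_le_add (by rw [dist_comm]; exact hd) h9
      _ = r + ρ := by ring
  rw [tsum_eq_sum (s := hSf.toFinset) (fun γ hγ => hsub γ hγ)]
  calc ∑ γ ∈ hSf.toFinset, (if γ 1 0 = 0 then 0 else h (vv z (γ • w)))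
      ≤ ∑ γ ∈ hSf.toFinset, (1 : ℝ) := by
        refine Finset.sum_le_sum fun γ _ => ?_
        split_ifs
        · norm_num
        · exact h1 _
    _ = _ := by simp

theorem KK_bound (h0 : ∀ v, 0 ≤ h v) (h1 : ∀ v, h v ≤ 1) (ha : Antitone h) {R : ℝ}
    (hR : ∀ v, R ≤ v → h v = 0) : ∃ C : ℝ, ∀ z w : ℍ, |KK h z w| ≤ C := by
  classical
  obtain ⟨N, hN⟩ := rest_bound h1 hR
  have key : ∀ z ∈ 𝒟, ∀ w ∈ 𝒟, |KK h z w| ≤ 4 + 2 * N := by
    intro z hz w hw
    unfold KK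
    rw [PP_split hR z w, PP_split hR z (J • w)]
    have b1 := cusp_bound h1 ha hR z w
    have b2 := hN z hz w hw
    have b3 := hN z hz (J • w) (J_mem_fd hw)
    have b4 : 0 ≤ ∑' γ : SL(2, ℤ), (if γ 1 0 = 0 then 0 else h (vv z (γ • w))) :=
      tsum_nonneg fun γ => by split_ifs <;> simp [h0]
    have b5 : 0 ≤ ∑' γ : SL(2, ℤ), (if γ 1 0 = 0 then 0 else h (vv z (γ • (J • w)))) :=
      tsum_nonneg fun γ => by split_ifs <;> simp [h0]
    rw [abs_le] at b1 ⊢
    constructor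
    · linarith [b1.1]
    · linarith [b1.2]
  refine ⟨4 + 2 * N, fun z w => ?_⟩
  obtain ⟨g, hg⟩ := ModularGroup.exists_smul_mem_fd z
  obtain ⟨g', hg'⟩ := ModularGroup.exists_smul_mem_fd w
  rw [← KK_smul_left g z w, ← KK_smul_right g' (g • z) w]
  exact key _ hg _ hg'

end Pool.Agent.N819
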