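import Pool.Agent.N819.Lapl

/-!
# `Lop h f` is smooth
-/

set_option autoImplicit false

open UpperHalfPlane MeasureTheory Filter Topology
open scoped ContDiff Convolution

namespace Pool.Agent.N819

lemma integral_H (F : ℍ → ℂ) :
    ∫ z : ℍ, F z = ∫ w in {w : ℂ | 0 < w.im}, ((1 / w.im) ^ 2 : ℝ) • F (ofComplex w) := by
  rw [volume_def]
  have hm : Measurable fun z : ℍ => ((1 / NNReal.mk z.im z.im_pos.le) ^ 2 : NNReal) := by
    refine Measurable.pow_const ?_ 2
    refine Measurable.const_div ?_ 1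
    exact (continuous_im.subtype_mk _).measurable
  rw [integral_withDensity_eq_integral_smul hm]
  have e1 : ∀ z : ℍ, ((1 / NNReal.mk z.im z.im_pos.le) ^ 2 : NNReal) • F z =
      (fun w : ℂ => ((1 / w.im) ^ 2 : ℝ) • F (ofComplex w)) (z : ℂ) := by
    intro z
    simp only [ofComplex_apply, coe_im]
    rw [NNReal.smul_def]
    simp
  simp_rw [e1]
  rw [← MeasurableEmbedding.integral_map measurableEmbedding_coe
    (fun w : ℂ => ((1 / w.im) ^ 2 : ℝ) • F (ofComplex w)), measurableEmbedding_coe.map_comap,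
    UpperHalfPlane.range_coe]

/-- the kernel as a function on `ℂ × ℂ` -/
noncomputable def HK (h : ℝ → ℝ) (ζ w : ℂ) : ℝ :=
  if 0 < w.im then h (((ζ.re - w.re) ^ 2 + (ζ.im - w.im) ^ 2) / (2 * ζ.im * w.im)) else 0

lemma HK_coe (h : ℝ → ℝ) (z w : ℍ) : HK h z w = h (vv z w) := by
  unfold HK
  rw [if_pos (by simpa using w.im_pos), vv_eq]
  simp

theorem contDiffOn_Lop {h : ℝ → ℝ} (hh : SGood h) {f : ℍ → ℂ} (hf : BM f) :
    ContDiffOn ℝ ∞ (fun ζ : ℂ => Lop h f (ofComplex ζ)) {ζ : ℂ | 0 < ζ.im} := by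
  intro ζ₀ hζ₀
  obtain ⟨M, hM⟩ := hf.2
  obtain ⟨R, hR⟩ := hh.supp
  set z₀ : ℍ := ofComplex ζ₀ with hz₀
  have hz₀' : (z₀ : ℂ) = ζ₀ := by rw [hz₀, ofComplex_apply_of_im_pos hζ₀]
  set s : Set ℂ := (UpperHalfPlane.coe) '' (Metric.ball z₀ 1) with hs
  have hso : IsOpen s := isOpenEmbedding_coe.isOpenMap _ Metric.isOpen_ball
  have hζs : ζ₀ ∈ s := ⟨z₀, Metric.mem_ball_self one_pos, hz₀'⟩
  set A : Set ℂ := (UpperHalfPlane.coe) '' (Metric.closedBall z₀ (R + 2)) with hA
  have hAc : IsCompact A := (isCompact_closedBall _ _).image continuous_coe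
  -- `HK` is zero off `A`
  have hzero : ∀ ζ w : ℂ, ζ ∈ s → w ∉ A → HK h ζ w = 0 := by
    rintro _ w ⟨z, hz, rfl⟩ hw
    by_cases hpos : 0 < w.im
    · have e : HK h z w = h (vv z ⟨w, hpos⟩) := HK_coe h z ⟨w, hpos⟩
      rw [e]
      apply hR
      by_contra hlt
      push Not at hlt
      apply hw
      refine ⟨⟨w, hpos⟩, ?_, rfl⟩
      rw [Metric.mem_closedBall]
      have h1 := dist_le_of_vv_le hlt.le
      have h2 := Metric.mem_ball.1 hz
      calc dist (⟨w, hpos⟩ : ℍ) z₀ ≤ dist (⟨w, hpos⟩ : ℍ) z + dist z z₀ := dist_triangle _ _ _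
        _ ≤ (R + 1) + 1 := by rw [dist_comm _ z]; exact add_le_add h1 h2.le
        _ = R + 2 := by ring
    · unfold HK
      rw [if_neg hpos]
  -- smoothness of the kernel
  have hsm : ContDiffOn ℝ ∞ (fun p : ℂ × ℂ => HK h p.1 p.2) (s ×ˢ Set.univ) := by
    rintro ⟨ζ, w⟩ ⟨hζ, -⟩
    simp only at hζ
    apply ContDiffAt.contDiffWithinAt
    have hζpos : 0 < ζ.im := by
      obtain ⟨z, -, rfl⟩ := hζ
      exact z.im_pos
    by_cases hpos : 0 < w.im
    · have e : (fun p : ℂ × ℂ => HK h p.1 p.2) =ᶠ[𝓝 (ζ, w)] fun p =>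
          h (((p.1.re - p.2.re) ^ 2 + (p.1.im - p.2.im) ^ 2) / (2 * p.1.im * p.2.im)) := by
        have : ∀ᶠ p : ℂ × ℂ in 𝓝 (ζ, w), 0 < p.2.im := by
          have hc : Continuous fun p : ℂ × ℂ => p.2.im := Complex.continuous_im.comp continuous_snd
          exact hc.continuousAt.eventually (lt_mem_nhds hpos)
        filter_upwards [this] with p hp
        unfold HK
        rw [if_pos hp]
      refine ContDiffAt.congr_of_eventuallyEq ?_ e
      have r1 : ContDiff ℝ ∞ (fun p : ℂ × ℂ => p.1.re) := Complex.reCLM.contDiff.comp contDiff_fst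
      have r2 : ContDiff ℝ ∞ (fun p : ℂ × ℂ => p.2.re) := Complex.reCLM.contDiff.comp contDiff_snd
      have i1 : ContDiff ℝ ∞ (fun p : ℂ × ℂ => p.1.im) := Complex.imCLM.contDiff.comp contDiff_fst
      have i2 : ContDiff ℝ ∞ (fun p : ℂ × ℂ => p.2.im) := Complex.imCLM.contDiff.comp contDiff_snd
      refine (hh.smooth.contDiffAt).comp (ζ, w) ?_
      refine ContDiffAt.div ?_ ?_ ?_
      · exact (((r1.sub r2).pow 2).add ((i1.sub i2).pow 2)).contDiffAt
      · exact ((contDiff_const.mul i1).mul i2).contDiffAt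
      · simp only
        positivity
    · have hwA : w ∉ A := by
        rintro ⟨u, -, rfl⟩
        exact hpos u.im_pos
      have e : (fun p : ℂ × ℂ => HK h p.1 p.2) =ᶠ[𝓝 (ζ, w)] fun _ => 0 := by
        have h1 : s ×ˢ Aᶜ ∈ 𝓝 (ζ, w) :=
          prod_mem_nhds (hso.mem_nhds hζ) (hAc.isClosed.isOpen_compl.mem_nhds hwA)
        filter_upwards [h1] with p hp
        exact hzero p.1 p.2 hp.1 hp.2
      exact contDiffAt_const.congr_of_eventuallyEq e
  -- the function integrated against the kernel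
  set F : ℂ → ℂ := fun w => A.indicator (fun w => ((1 / w.im) ^ 2 : ℝ) • f (ofComplex w)) w with hF
  have hFm : AEStronglyMeasurable F volume := by
    apply Measurable.aestronglyMeasurable
    refine Measurable.indicator ?_ hAc.measurableSet
    have m1 : Measurable (fun w : ℂ => f (ofComplex w)) := by
      apply hf.1.comp
      apply measurable_of_restrict_of_restrict_compl (s := {w : ℂ | 0 < w.im})
        (isOpen_upperHalfPlaneSet.measurableSet)
      · apply Continuous.measurable
        rw [continuous_iff_continuousAt]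
        rintro ⟨w, hw⟩
        exact (contMDiffAt_ofComplex (n := 0) hw).continuousAt.comp continuousAt_subtype_val
      · have : ({w : ℂ | 0 < w.im}ᶜ).domRestrict (fun w => ofComplex w) =
            fun _ => Classical.choice inferInstance := by
          funext w
          exact ofComplex_apply_of_im_nonpos (not_lt.1 w.2)
        rw [this]
        exact measurable_const
    exact ((Measurable.const_div Complex.measurable_im 1).pow_const 2).smul m1
  obtain ⟨C, hC⟩ : ∃ C : ℝ, ∀ w ∈ A, ‖((1 / w.im) ^ 2 : ℝ)‖ ≤ C := by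
    apply hAc.exists_bound_of_continuousOn
    refine ContinuousOn.pow ?_ 2
    refine ContinuousOn.div continuousOn_const Complex.continuous_im.continuousOn ?_
    rintro _ ⟨u, -, rfl⟩
    exact u.im_ne_zero
  have hFi : Integrable F := by
    have : Integrable (A.indicator fun _ : ℂ => C * M) := by
      rw [integrable_indicator_iff hAc.measurableSet]
      exact integrableOn_const (hs := hAc.measure_lt_top.ne)
    refine this.mono' hFm (Eventually.of_forall fun w => ?_)
    simp only [hF]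
    by_cases hw : w ∈ A
    · rw [Set.indicator_of_mem hw, Set.indicator_of_mem hw, norm_smul]
      exact mul_le_mul (hC w hw) (hM _) (norm_nonneg _) ((norm_nonneg _).trans (hC w hw))
    · rw [Set.indicator_of_notMem hw, Set.indicator_of_notMem hw, norm_zero]
  -- parametric convolution
  have key : ContDiffOn ℝ ∞ (fun ζ : ℂ => (F ⋆[ContinuousLinearMap.mul ℝ ℂ, volume]
      (fun x : ℂ => (HK h ζ (-x) : ℂ))) ((fun _ : ℂ => (0 : ℂ)) ζ)) s := by
    refine contDiffOn_convolution_right_with_param_comp (ContinuousLinearMap.mul ℝ ℂ)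
      (v := fun _ : ℂ => (0 : ℂ)) contDiffOn_const hso (k := (fun x => -x) '' A)
      (hAc.image continuous_neg) ?_ hFi.locallyIntegrable ?_
    · intro ζ x hζ hx
      rw [hzero ζ (-x) hζ, Complex.ofReal_zero]
      intro h1
      exact hx ⟨-x, h1, neg_neg x⟩
    · have h1 : ContDiffOn ℝ ∞ (fun p : ℂ × ℂ => HK h p.1 (-p.2)) (s ×ˢ Set.univ) := by
        refine hsm.comp (g := fun p : ℂ × ℂ => HK h p.1 p.2) (f := fun p : ℂ × ℂ => (p.1, -p.2)) ?_ ?_
        · exact (contDiff_fst.prodMk contDiff_snd.neg).contDiffOn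
        · rintro ⟨a, b⟩ ⟨ha, -⟩
          exact ⟨ha, Set.mem_univ _⟩
      exact Complex.ofRealCLM.contDiff.comp_contDiffOn h1
  have heq : ∀ ζ ∈ s, Lop h f (ofComplex ζ) = (F ⋆[ContinuousLinearMap.mul ℝ ℂ, volume]
      (fun x : ℂ => (HK h ζ (-x) : ℂ))) 0 := by
    rintro _ ⟨z, hz, rfl⟩
    rw [ofComplex_apply]
    unfold Lop
    rw [integral_H, convolution_def, ← integral_indicator isOpen_upperHalfPlaneSet.measurableSet]
    congr 1
    funext w
    simp only [zero_sub, neg_neg, ContinuousLinearMap.mul_apply', hF]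
    by_cases hw : w ∈ A
    · have hpos : 0 < w.im := by
        obtain ⟨u, -, rfl⟩ := hw
        exact u.im_pos
      rw [Set.indicator_of_mem (show w ∈ {w : ℂ | 0 < w.im} from hpos), Set.indicator_of_mem hw]
      have e : HK h z w = h (vv z (ofComplex w)) := by
        rw [ofComplex_apply_of_im_pos hpos]
        exact HK_coe h z ⟨w, hpos⟩
      rw [e]
      simp only [Complex.real_smul]
      ring
    · rw [Set.indicator_of_notMem hw, zero_mul]
      by_cases hpos : 0 < w.im
      · rw [Set.indicator_of_mem (show w ∈ {w : ℂ | 0 < w.im} from hpos)]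
        have e : HK h z w = h (vv z (ofComplex w)) := by
          rw [ofComplex_apply_of_im_pos hpos]
          exact HK_coe h z ⟨w, hpos⟩
        rw [← e, hzero z w ⟨z, hz, rfl⟩ hw]
        simp
      · rw [Set.indicator_of_notMem (show w ∉ {w : ℂ | 0 < w.im} from hpos)]
  have hfin : ContDiffAt ℝ ∞ (fun ζ : ℂ => Lop h f (ofComplex ζ)) ζ₀ := by
    refine ((key.contDiffAt (hso.mem_nhds hζs))).congr_of_eventuallyEq ?_
    filter_upwards [hso.mem_nhds hζs] with ζ hζ
    exact heq ζ hζ
  exact hfin.contDiffWithinAt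

end Pool.Agent.N819
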