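import Pool.Agent.N819.Main

/-!
# Counting quadratic extensions
-/

set_option autoImplicit false

open UpperHalfPlane MatrixGroups Filter Topology

namespace Pool.Agent.N819

lemma finite_quadExtLT (x : ℝ) : (QuadExtLT x).Finite := by
  have h1 : {q : ℕ+ | ((q : ℕ) : ℝ) < x}.Finite := by
    have h2 : {n : ℕ | (n : ℝ) < x}.Finite := by
      obtain ⟨N, hN⟩ := exists_nat_gt x
      refine (Set.finite_lt_nat N).subset fun n hn => ?_
      have : (n : ℝ) < N := lt_trans hn hN
      exact_mod_cast this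
    exact Set.Finite.preimage (PNat.coe_injective.injOn) h2
  have h3 : (⋃ q ∈ {q : ℕ+ | ((q : ℕ) : ℝ) < x},
      (Set.range fun χ : DirichletCharacter ℂ q =>
        (⟨q, χ⟩ : Σ q : ℕ+, DirichletCharacter ℂ q))).Finite :=
    h1.biUnion fun q _ => Set.finite_range _
  refine h3.subset ?_
  rintro ⟨q, χ⟩ ⟨-, hq⟩
  simp only [Set.mem_iUnion]
  exact ⟨q, hq, χ, rfl⟩

instance fact3 : Fact (Nat.Prime 3) := ⟨by norm_num⟩

lemma quad3_two : quadraticChar (ZMod 3) 2 = -1 := by decide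

lemma isUnit_two3 : IsUnit (2 : ZMod 3) := by decide

/-- the quadratic character modulo `3` -/
lemma exists_quadExt_three : ∃ χ : DirichletCharacter ℂ (3 : ℕ+),
    (⟨3, χ⟩ : Σ q : ℕ+, DirichletCharacter ℂ q) ∈ QuadExt := by
  let χ : DirichletCharacter ℂ 3 := (quadraticChar (ZMod 3)).ringHomComp (Int.castRingHom ℂ)
  have h2 : χ 2 = -1 := by
    simp only [χ, MulChar.ringHomComp_apply]
    rw [quad3_two]
    simp
  have hne : χ ≠ 1 := by
    intro h
    rw [h] at h2
    have : (1 : DirichletCharacter ℂ 3) 2 = 1 := MulChar.one_apply isUnit_two3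
    rw [this] at h2
    norm_num at h2
  have hsq : χ ^ 2 = 1 :=
    ((quadraticChar_isQuadratic (ZMod 3)).comp (Int.castRingHom ℂ)).sq_eq_one
  have hprim : χ.IsPrimitive := by
    rw [DirichletCharacter.isPrimitive_def]
    have hd := χ.conductor_dvd_level
    rcases (Nat.dvd_prime (by norm_num)).1 hd with h | h
    · exact absurd ((DirichletCharacter.eq_one_iff_conductor_eq_one).2 h) hne
    · exact h
  exact ⟨χ, hprim, hsq, hne⟩

lemma quadExtLT_pos {x : ℝ} (hx : 3 < x) : 0 < (QuadExtLT x).ncard := by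
  rw [Set.ncard_pos (finite_quadExtLT x)]
  obtain ⟨χ, hχ⟩ := exists_quadExt_three
  exact ⟨⟨3, χ⟩, hχ, by simpa using hx⟩

lemma nonvanishLT_eq_empty {π : HeckeMaassForm} (hπ : π.Odd) (x : ℝ) : NonvanishLT π x = ∅ := by
  ext ⟨q, χ⟩
  simp only [Set.mem_empty_iff_false, iff_false]
  rintro ⟨⟨⟨hp, hq, -⟩, -⟩, L, hL, hne⟩
  exact hne (twistedL_half π hπ χ hp hq hL)

end Pool.Agent.N819
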