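import Mathlib

/-!
# Hecke–Maass cusp forms of level one, their quadratic twists, and the counting functions

The classical description of the everywhere unramified cuspidal automorphic representations of
`PGL₂` over `ℚ` with a spherical vector: they correspond one to one to the (lines spanned by)
Hecke–Maass cusp forms for `SL₂(ℤ)`.  Quadratic extensions `E / ℚ` correspond one to one to
primitive quadratic Dirichlet characters, the modulus being `|Δ_E|`.
-/

set_option autoImplicit false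

open UpperHalfPlane MatrixGroups
open scoped ContDiff

namespace Pool.Agent.N819

/-- A Hecke–Maass cusp form of weight `0` for `SL₂(ℤ)`: a nonzero, smooth, bounded function on the
upper half plane which is invariant under `SL₂(ℤ)`, has zero constant terms, is an eigenfunction of
the hyperbolic Laplacian, and is an eigenfunction of all the Hecke operators `T_p`. -/
structure HeckeMaassForm where
  /-- the function on the upper half plane -/
  φ : ℍ → ℂ
  /-- the eigenvalue of the Laplacian -/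
  μ : ℂ
  /-- `lam p` (`p` prime) is the normalised eigenvalue of the Hecke operator `T_p` -/
  lam : ℕ → ℂ
  ne_zero : φ ≠ 0
  smooth : ContDiffOn ℝ ∞ (fun ζ : ℂ => φ (ofComplex ζ)) {ζ | 0 < ζ.im}
  invariant : ∀ (γ : SL(2, ℤ)) (z : ℍ), φ (γ • z) = φ z
  bounded : ∃ M : ℝ, ∀ z, ‖φ z‖ ≤ M
  cuspidal : ∀ y : ℝ, 0 < y → ∫ x in (0 : ℝ)..1, φ (ofComplex (x + y * Complex.I)) = 0
  /-- `- y² (∂²/∂x² + ∂²/∂y²) φ = μ φ` -/
  laplace : ∀ x y : ℝ, 0 < y →
    -(y : ℂ) ^ 2 * (deriv (deriv fun t : ℝ => φ (ofComplex (t + y * Complex.I))) x +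
      deriv (deriv fun t : ℝ => φ (ofComplex (x + t * Complex.I))) y) =
        μ * φ (ofComplex (x + y * Complex.I))
  /-- `p ^ (-1/2) (φ(p z) + ∑_{b mod p} φ((z + b) / p)) = lam p * φ(z)` -/
  hecke : ∀ p : ℕ, p.Prime → ∀ z : ℍ,
    φ (ofComplex (p * z)) + ∑ b ∈ Finset.range p, φ (ofComplex ((z + b) / p)) =
      Real.sqrt p * lam p * φ z

/-- the form is odd: `φ(- z̄) = - φ(z)` -/
def HeckeMaassForm.Odd (π : HeckeMaassForm) : Prop :=
  ∀ z : ℍ, π.φ (ofComplex (-(starRingEnd ℂ) (z : ℂ))) = - π.φ z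

/-- `L` is the finite part of the standard `L`-function `L(s, π ⊗ χ)`, `χ` a primitive Dirichlet
character: it is entire, and for `Re s > 3/2` it is the Euler product
`∏_p (1 - lam(p) χ(p) p^(-s) + χ(p)² p^(-2s))⁻¹`.  (The centre is `s = 1/2`.) -/
def IsTwistedL (π : HeckeMaassForm) {q : ℕ} (χ : DirichletCharacter ℂ q) (L : ℂ → ℂ) : Prop :=
  Differentiable ℂ L ∧ ∀ s : ℂ, 3 / 2 < s.re → HasProd (fun p : Nat.Primes =>
    (1 - π.lam p * χ (p : ℕ) * ((p : ℕ) : ℂ) ^ (-s) + χ (p : ℕ) ^ 2 * ((p : ℕ) : ℂ) ^ (-2 * s))⁻¹)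
    (L s)

/-- The quadratic extensions `E / ℚ` through their characters: the pairs `(q, χ)` with `χ` a
primitive Dirichlet character modulo `q`, of order two; `|Δ_E| = q` and `η_E = χ`. -/
def QuadExt : Set (Σ q : ℕ+, DirichletCharacter ℂ q) :=
  {E | E.2.IsPrimitive ∧ E.2 ^ 2 = 1 ∧ E.2 ≠ 1}

/-- the quadratic extensions `E` with `|Δ_E| < x` -/
def QuadExtLT (x : ℝ) : Set (Σ q : ℕ+, DirichletCharacter ℂ q) :=
  {E | E ∈ QuadExt ∧ ((E.1 : ℕ) : ℝ) < x}

/-- the quadratic extensions `E` with `|Δ_E| < x` and `L(1/2, π ⊗ η_E) ≠ 0` -/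
def NonvanishLT (π : HeckeMaassForm) (x : ℝ) : Set (Σ q : ℕ+, DirichletCharacter ℂ q) :=
  {E | E ∈ QuadExtLT x ∧ ∃ L : ℂ → ℂ, IsTwistedL π E.2 L ∧ L (1 / 2) ≠ 0}

end Pool.Agent.N819
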