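import Pool.Agent.N819.Nonzero
import Pool.Agent.N789.HS2
import Pool.Agent.N849.CommonEv

/-!
# Existence of odd Hecke-Laplace eigenfunctions of level one
-/

set_option autoImplicit false

open UpperHalfPlane MeasureTheory Filter Topology MatrixGroups
open Matrix.SpecialLinearGroup (mapGL)
open scoped Modular ENNReal ContDiff

namespace Pool.Agent.N819

open Pool.Agent.N849.Hecke (Eqv heckeOp heckeOp_eqv heckeOp_comm tmat smat)
open Pool.Agent.N789.HS (eigSub exists_eigen)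

variable {h : ℝ → ℝ}

lemma Lop_add (hh : Good h) {f g : ℍ → ℂ} (hf : BM f) (hg : BM g) (z : ℍ) :
    Lop h (fun w => f w + g w) z = Lop h f z + Lop h g z := by
  unfold Lop
  rw [← integral_add (hh.integrable_mul hf z) (hh.integrable_mul hg z)]
  congr 1
  funext w
  ring

lemma Lop_smul (c : ℂ) (f : ℍ → ℂ) (z : ℍ) :
    Lop h (fun w => c * f w) z = c * Lop h f z := by
  unfold Lop
  rw [← integral_const_mul]
  congr 1
  funext w
  ring

lemma BM.add {f g : ℍ → ℂ} (hf : BM f) (hg : BM g) : BM (fun z => f z + g z) := by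
  obtain ⟨M, hM⟩ := hf.2
  obtain ⟨N, hN⟩ := hg.2
  exact ⟨hf.1.add hg.1, M + N, fun z => (norm_add_le _ _).trans (add_le_add (hM z) (hN z))⟩

lemma BM.smul (c : ℂ) {f : ℍ → ℂ} (hf : BM f) : BM (fun z => c * f z) := by
  obtain ⟨M, hM⟩ := hf.2
  exact ⟨hf.1.const_mul c, ‖c‖ * M, fun z => by
    rw [norm_mul]; exact mul_le_mul_of_nonneg_left (hM z) (norm_nonneg _)⟩

lemma BM.sum {ι : Type*} (s : Finset ι) {f : ι → ℍ → ℂ} (hf : ∀ i ∈ s, BM (f i)) :
    BM (fun z => ∑ i ∈ s, f i z) := by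
  classical
  induction s using Finset.induction_on with
  | empty => exact ⟨by simp, 0, by simp⟩
  | insert a s ha ih =>
    have e : (fun z => ∑ i ∈ insert a s, f i z) = fun z => f a z + ∑ i ∈ s, f i z := by
      funext z
      rw [Finset.sum_insert ha]
    rw [e]
    exact (hf a (Finset.mem_insert_self a s)).add
      (ih fun i hi => hf i (Finset.mem_insert_of_mem hi))

lemma Lop_sum (hh : Good h) {ι : Type*} (s : Finset ι) {f : ι → ℍ → ℂ} (hf : ∀ i ∈ s, BM (f i))
    (z : ℍ) : Lop h (fun w => ∑ i ∈ s, f i w) z = ∑ i ∈ s, Lop h (f i) z := by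
  classical
  induction s using Finset.induction_on with
  | empty => simp [Lop]
  | insert a s ha ih =>
    have e : (fun z => ∑ i ∈ insert a s, f i z) = fun z => f a z + ∑ i ∈ s, f i z := by
      funext z
      rw [Finset.sum_insert ha]
    rw [e, Finset.sum_insert ha, Lop_add hh (hf a (Finset.mem_insert_self a s))
      (BM.sum s fun i hi => hf i (Finset.mem_insert_of_mem hi)),
      ih fun i hi => hf i (Finset.mem_insert_of_mem hi)]

lemma heckeOp_bm {p : ℕ} (hp : p ≠ 0) {f : ℍ → ℂ} (hf : BM f) : BM (heckeOp p hp f) := by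
  unfold heckeOp
  exact (hf.comp_smul _).add (BM.sum _ fun b _ => hf.comp_smul _)

lemma Lop_heckeOp (hh : Good h) {p : ℕ} (hp : p ≠ 0) {f : ℍ → ℂ} (hf : BM f) (z : ℍ) :
    Lop h (heckeOp p hp f) z = heckeOp p hp (Lop h f) z := by
  have e : heckeOp p hp f = fun z => f (tmat p hp • z) + ∑ b ∈ Finset.range p,
      (fun b z => f (smat p hp b • z)) b z := rfl
  rw [e, Lop_add hh (hf.comp_smul _) (BM.sum _ fun b _ => hf.comp_smul _),
    Lop_sum hh _ (fun b _ => hf.comp_smul _), Lop_comp_smul]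
  unfold heckeOp
  congr 1
  refine Finset.sum_congr rfl fun b _ => ?_
  rw [Lop_comp_smul]

lemma Lop_eqv {f : ℍ → ℂ} (he : Eqv f) : Eqv (Lop h f) := by
  constructor
  · intro γ z
    rw [sl_smul_eq, ← Lop_comp_smul]
    congr 1
    funext w
    exact he.inv γ w
  · intro z
    rw [← Lop_comp_smul]
    have : (fun w : ℍ => f (J • w)) = fun w => (-1 : ℂ) * f w := by
      funext w
      rw [he.odd]
      ring
    rw [this, Lop_smul]
    ring

/-- the eigenspace -/
structure VP (h : ℝ → ℝ) (κ : ℂ) (f : ℍ → ℂ) : Prop where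
  bm : BM f
  eqv : Eqv f
  eig : ∀ z, Lop h f z = κ * f z

lemma VP.lop {h₂ : ℝ → ℝ} {κ : ℂ} (hh : Good h) (hh₂ : Good h₂) {f : ℍ → ℂ} (hf : VP h κ f) :
    VP h κ (Lop h₂ f) := by
  refine ⟨Lop_bm hh₂ hf.bm, Lop_eqv hf.eqv, fun z => ?_⟩
  rw [Lop_comm hh hh₂ hf.bm, ← Lop_smul]
  congr 1
  funext w
  exact hf.eig w

lemma VP.hecke {κ : ℂ} (hh : Good h) {p : ℕ} (hp : p.Prime) {f : ℍ → ℂ} (hf : VP h κ f) :
    VP h κ (heckeOp p hp.ne_zero f) := by
  refine ⟨heckeOp_bm hp.ne_zero hf.bm, heckeOp_eqv p hp f hf.eqv, fun z => ?_⟩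
  rw [Lop_heckeOp hh hp.ne_zero hf.bm]
  have : Lop h f = fun w => κ * f w := by
    funext w
    exact hf.eig w
  rw [this]
  unfold heckeOp
  rw [mul_add, Finset.mul_sum]

end Pool.Agent.N819
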