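import Pool.Agent.N819.Exist

/-!
# Existence of odd Hecke-Laplace eigenfunctions of level one
-/

set_option autoImplicit false

open UpperHalfPlane MeasureTheory Filter Topology MatrixGroups
open Matrix.SpecialLinearGroup (mapGL)
open scoped Modular ENNReal ContDiff

namespace Pool.Agent.N819

open Pool.Agent.N849.Hecke (Eqv heckeOp heckeOp_eqv heckeOp_comm tmat smat)
open Pool.Agent.N789.HS (eigSub exists_eigen)

lemma periodic_of_eqv {f : ℍ → ℂ} (hf : Eqv f) (z : ℍ) : f ((1 : ℝ) +ᵥ z) = f z :=
  Pool.Agent.N849.Hecke.periodic_of_inv hf.inv z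

lemma heckeOp_add {p : ℕ} (hp : p ≠ 0) (f g : ℍ → ℂ) (z : ℍ) :
    heckeOp p hp (f + g) z = heckeOp p hp f z + heckeOp p hp g z := by
  unfold heckeOp
  simp only [Pi.add_apply, Finset.sum_add_distrib]
  ring

lemma heckeOp_smul {p : ℕ} (hp : p ≠ 0) (c : ℂ) (f : ℍ → ℂ) (z : ℍ) :
    heckeOp p hp (c • f) z = c * heckeOp p hp f z := by
  unfold heckeOp
  simp only [Pi.smul_apply, smul_eq_mul]
  rw [mul_add, Finset.mul_sum]

lemma double_pos {X : Type*} [MeasurableSpace X] (ν : Measure X) [IsFiniteMeasure ν]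
    (K : X → X → ℝ) (C : ℝ) (hK : Measurable (Function.uncurry K)) (hC : ∀ x y, |K x y| ≤ C)
    (B : Set X) (hBm : MeasurableSet B) (hνB : 0 < ν B) (hBpos : ∀ x ∈ B, ∀ y ∈ B, 0 < K x y) :
    ∃ g : X → ℝ, Measurable g ∧ (∃ M, ∀ x, |g x| ≤ M) ∧
      ∫ x, (∫ y, K x y * g y ∂ν) * g x ∂ν ≠ 0 := by
  refine ⟨B.indicator (fun _ => 1), measurable_const.indicator hBm, ⟨1, ?_⟩, ?_⟩
  · intro x
    by_cases hx : x ∈ B
    · rw [Set.indicator_of_mem hx]; simp
    · rw [Set.indicator_of_notMem hx]; simp
  · have hint : ∀ x, Integrable (fun y => K x y * B.indicator (fun _ => (1 : ℝ)) y) ν := by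
      intro x
      refine Integrable.of_bound (C := C) ?_ (Eventually.of_forall fun y => ?_)
      · have h1 : Measurable (K x) := hK.comp measurable_prodMk_left
        exact (h1.mul (measurable_const.indicator hBm)).aestronglyMeasurable
      · by_cases hy : y ∈ B
        · rw [Set.indicator_of_mem hy, mul_one]; exact hC x y
        · rw [Set.indicator_of_notMem hy, mul_zero, norm_zero]
          exact (abs_nonneg _).trans (hC x y)
    have hnn : ∀ x ∈ B, 0 ≤ fun y => K x y * B.indicator (fun _ => (1 : ℝ)) y := by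
      intro x hx y
      by_cases hy : y ∈ B
      · simp only [Set.indicator_of_mem hy, mul_one]; exact (hBpos x hx y hy).le
      · simp only [Set.indicator_of_notMem hy, mul_zero]; exact le_rfl
    have hin : ∀ x ∈ B, 0 < ∫ y, K x y * B.indicator (fun _ => (1 : ℝ)) y ∂ν := by
      intro x hx
      rw [integral_pos_iff_support_of_nonneg (hnn x hx) (hint x)]
      refine lt_of_lt_of_le hνB (measure_mono fun y hy => ?_)
      simp only [Function.mem_support, Set.indicator_of_mem hy, mul_one]
      exact (hBpos x hx y hy).ne'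
    set G : X → ℝ := fun x => (∫ y, K x y * B.indicator (fun _ => (1 : ℝ)) y ∂ν) *
      B.indicator (fun _ => (1 : ℝ)) x with hG
    have hGm : Measurable G := by
      have h1 : StronglyMeasurable (Function.uncurry fun x y =>
          K x y * B.indicator (fun _ => (1 : ℝ)) y) := by
        apply Measurable.stronglyMeasurable
        exact hK.mul ((measurable_const.indicator hBm).comp measurable_snd)
      exact h1.integral_prod_right.measurable.mul (measurable_const.indicator hBm)
    have hGi : Integrable G ν := by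
      refine Integrable.of_bound (C := C * (ν Set.univ).toReal) hGm.aestronglyMeasurable
        (Eventually.of_forall fun x => ?_)
      have hb : ‖∫ y, K x y * B.indicator (fun _ => (1 : ℝ)) y ∂ν‖ ≤ C * (ν Set.univ).toReal := by
        refine norm_integral_le_of_norm_le_const (Eventually.of_forall fun y => ?_)
        by_cases hy : y ∈ B
        · rw [Set.indicator_of_mem hy, mul_one]; exact hC x y
        · rw [Set.indicator_of_notMem hy, mul_zero, norm_zero]
          exact (abs_nonneg _).trans (hC x y)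
      rw [hG]
      simp only [norm_mul]
      by_cases hx : x ∈ B
      · rw [Set.indicator_of_mem hx]; simpa using hb
      · rw [Set.indicator_of_notMem hx, norm_zero, mul_zero]
        exact (norm_nonneg _).trans hb
    have hGn : 0 ≤ G := by
      intro x
      by_cases hx : x ∈ B
      · simp only [hG, Set.indicator_of_mem hx, mul_one, Pi.zero_apply]; exact (hin x hx).le
      · simp only [hG, Set.indicator_of_notMem hx, mul_zero]; exact le_rfl
    apply ne_of_gt
    change 0 < ∫ x, G x ∂ν
    rw [integral_pos_iff_support_of_nonneg hGn hGi]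
    refine lt_of_lt_of_le hνB (measure_mono fun x hx => ?_)
    simp only [Function.mem_support, hG, Set.indicator_of_mem hx, mul_one]
    exact (hin x hx).ne'

lemma exists_h : ∃ h : ℝ → ℝ, SGood h ∧ (∃ C : ℝ, ∀ z w : ℍ, |KK h z w| ≤ C) ∧
    Measurable (Function.uncurry (KK h)) ∧ ∃ B : Set ℍ, IsOpen B ∧ B.Nonempty ∧ B ⊆ 𝒟 ∧
    ∀ z ∈ B, ∀ w ∈ B, 0 < KK h z w := by
  obtain ⟨ε, hε, B, hB⟩ := exists_good_bump
  exact ⟨bump ε, bump_sgood hε, KK_bound (bump_nonneg ε) (bump_le_one ε) (bump_anti hε)
    (bump_zero hε), measurable_KK (bump_sgood hε).good.cont (bump_nonneg ε), B, hB⟩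

/-- the existence theorem, in the internal form -/
theorem exists_VP : ∃ (h : ℝ → ℝ) (κ : ℂ), SGood h ∧ κ ≠ 0 ∧ ∃ φ : ℍ → ℂ, VP h κ φ ∧ φ ≠ 0 ∧
    (∃ c : ℂ, ∀ z, Lop (D2 h) φ z = c * φ z) ∧
    ∀ (p : ℕ) (hp : p.Prime), ∃ c : ℂ, ∀ z, heckeOp p hp.ne_zero φ z = c * φ z := by
  obtain ⟨h, hh, ⟨C, hC⟩, hK, B, hBo, hBne, hBsub, hBpos⟩ := exists_h
  have hg : Good h := hh.good
  set ν : Measure ℍ := (volume : Measure ℍ).restrict 𝒟 with hν
  have : IsFiniteMeasure ν := ⟨by rw [hν, Measure.restrict_apply_univ]; exact fd_finite⟩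
  have hνB : 0 < ν B := by
    rw [hν, Measure.restrict_apply hBo.measurableSet, Set.inter_eq_left.2 hBsub]
    exact volume_pos_of_isOpen hBo hBne
  have hne := double_pos ν (KK h) C hK hC B hBo.measurableSet hνB hBpos
  obtain ⟨κ, hκ, hfd, f₀, hf₀, hf₀'⟩ := exists_eigen ν (KK h) C hK hC KK_comm hne
  have hκ' : (κ : ℂ) ≠ 0 := by exact_mod_cast hκ
  set V := eigSub ν (KK h) C hK hC (κ : ℂ) with hV
  -- membership
  have hmem : ∀ f : ℍ → ℂ, f ∈ V ↔ VP h ((κ : ℂ) / 4) f := by
    intro f
    constructor
    · rintro ⟨h1, h2, h3⟩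
      have hbm : BM f := ⟨h1, h2⟩
      have heq : Eqv f := by
        constructor
        · intro γ z
          have e1 := h3 (γ • z)
          have e2 := h3 z
          simp_rw [KK_smul_left γ] at e1
          exact mul_left_cancel₀ hκ' (e1.trans e2.symm)
        · intro z
          have e1 := h3 (J • z)
          have e2 := h3 z
          simp_rw [KK_J_left] at e1
          have e3 : ∫ y, ((- KK h z y : ℝ) : ℂ) * f y ∂ν = - ∫ y, (KK h z y : ℂ) * f y ∂ν := by
            rw [← integral_neg]
            congr 1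
            funext y
            push_cast
            ring
          rw [e3, ← e2] at e1
          apply mul_left_cancel₀ hκ'
          rw [e1]
          ring
      refine ⟨hbm, heq, fun z => ?_⟩
      have h4 := unfold_KK hg hbm heq z
      have h5 := h3 z
      rw [← hν, ← h5] at h4
      linear_combination h4 / 4
    · rintro ⟨h1, h2, h3⟩
      refine ⟨h1.1, h1.2, fun z => ?_⟩
      have h4 := unfold_KK hg h1 h2 z
      rw [← hν, h3] at h4
      rw [← h4]
      ring
  -- the operators
  have hD2 : Good (D2 h) := hh.D2.good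
  let D : Module.End ℂ V :=
    { toFun := fun f => ⟨Lop (D2 h) f, (hmem _).2 (((hmem _).1 f.2).lop hg hD2)⟩
      map_add' := by
        intro f g
        apply Subtype.ext
        funext z
        exact Lop_add hD2 ((hmem _).1 f.2).bm ((hmem _).1 g.2).bm z
      map_smul' := by
        intro c f
        apply Subtype.ext
        funext z
        exact Lop_smul c f z }
  let Tp : {p : ℕ // p.Prime} → Module.End ℂ V := fun p =>
    { toFun := fun f => ⟨heckeOp p.1 p.2.ne_zero f, (hmem _).2 (((hmem _).1 f.2).hecke hg p.2)⟩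
      map_add' := by
        intro f g
        apply Subtype.ext
        funext z
        exact heckeOp_add p.2.ne_zero f g z
      map_smul' := by
        intro c f
        apply Subtype.ext
        funext z
        exact heckeOp_smul p.2.ne_zero c f z }
  have hDT : ∀ p, Commute D (Tp p) := by
    intro p
    apply LinearMap.ext
    intro f
    apply Subtype.ext
    funext z
    exact Lop_heckeOp hD2 p.2.ne_zero ((hmem _).1 f.2).bm z
  have hTT : ∀ p q, Commute (Tp p) (Tp q) := by
    intro p q
    apply LinearMap.ext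
    intro f
    apply Subtype.ext
    exact heckeOp_comm p.1 q.1 p.2 q.2 f (periodic_of_eqv ((hmem _).1 f.2).eqv)
  have : FiniteDimensional ℂ V := hfd
  have : Nontrivial V := ⟨⟨f₀, hf₀⟩, 0, fun h0 => hf₀' (congrArg Subtype.val h0)⟩
  obtain ⟨v, hv, hv'⟩ := Pool.Agent.N849.CommonEv.exists_common_eigenvector
    (insert D (Set.range Tp)) (by
      rintro a (rfl | ⟨p, rfl⟩) b (rfl | ⟨q, rfl⟩)
      · exact Commute.refl _
      · exact hDT q
      · exact (hDT p).symm
      · exact hTT p q)
  refine ⟨h, (κ : ℂ) / 4, hh, by simpa using hκ', v, (hmem _).1 v.2, ?_, ?_, ?_⟩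
  · intro h0
    exact hv (Subtype.ext h0)
  · obtain ⟨c, hc⟩ := hv' D (Set.mem_insert _ _)
    refine ⟨c, fun z => ?_⟩
    exact congrFun (congrArg Subtype.val hc) z
  · intro p hp
    obtain ⟨c, hc⟩ := hv' (Tp ⟨p, hp⟩) (Set.mem_insert_of_mem _ ⟨_, rfl⟩)
    refine ⟨c, fun z => ?_⟩
    exact congrFun (congrArg Subtype.val hc) z

end Pool.Agent.N819
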