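import Pool.Agent.N849.Bessel
import Pool.Agent.N849.Hecke

/-!
# Fourier coefficients of a Laplace eigenfunction, part 1
-/

set_option autoImplicit false

open MeasureTheory Filter Topology UpperHalfPlane
open scoped ContDiff

namespace Pool.Agent.N819.Four

/-- the upper half plane in `ℝ × ℝ` -/
def Om : Set (ℝ × ℝ) := {p | 0 < p.2}

lemma isOpen_Om : IsOpen Om := isOpen_lt continuous_const continuous_snd

/-- partial derivatives -/
noncomputable def pd (v : ℝ × ℝ) (G : ℝ × ℝ → ℂ) (p : ℝ × ℝ) : ℂ := fderiv ℝ G p v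

lemma pd_smooth {G : ℝ × ℝ → ℂ} (hG : ContDiffOn ℝ ∞ G Om) (v : ℝ × ℝ) :
    ContDiffOn ℝ ∞ (pd v G) Om := by
  have h1 : ContDiffOn ℝ ∞ (fderiv ℝ G) Om :=
    hG.fderiv_of_isOpen isOpen_Om (by simp)
  exact h1.clm_apply contDiffOn_const

lemma hasDerivAt_line {G : ℝ × ℝ → ℂ} (hG : ContDiffOn ℝ ∞ G Om) {p : ℝ × ℝ} (hp : p ∈ Om) :
    HasFDerivAt G (fderiv ℝ G p) p := by
  have h1 : ContDiffAt ℝ ∞ G p := hG.contDiffAt (isOpen_Om.mem_nhds hp)
  exact (h1.differentiableAt (by simp)).hasFDerivAt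

lemma hasDerivAt_fst {G : ℝ × ℝ → ℂ} (hG : ContDiffOn ℝ ∞ G Om) (x : ℝ) {y : ℝ} (hy : 0 < y) :
    HasDerivAt (fun t => G (t, y)) (pd (1, 0) G (x, y)) x := by
  have h1 := hasDerivAt_line hG (p := (x, y)) hy
  have h2 : HasDerivAt (fun t : ℝ => (t, y)) ((1 : ℝ), (0 : ℝ)) x :=
    (hasDerivAt_id x).prodMk (hasDerivAt_const x y)
  exact h1.comp_hasDerivAt x h2

lemma hasDerivAt_snd {G : ℝ × ℝ → ℂ} (hG : ContDiffOn ℝ ∞ G Om) (x : ℝ) {y : ℝ} (hy : 0 < y) :
    HasDerivAt (fun t => G (x, t)) (pd (0, 1) G (x, y)) y := by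
  have h1 := hasDerivAt_line hG (p := (x, y)) hy
  have h2 : HasDerivAt (fun t : ℝ => (x, t)) ((0 : ℝ), (1 : ℝ)) y :=
    (hasDerivAt_const y x).prodMk (hasDerivAt_id y)
  exact h1.comp_hasDerivAt y h2

/-- `e(n x)` -/
noncomputable def ee (n : ℤ) (x : ℝ) : ℂ := Complex.exp (2 * Real.pi * Complex.I * n * x)

lemma continuous_ee (n : ℤ) : Continuous (ee n) := by unfold ee; fun_prop

lemma norm_ee (n : ℤ) (x : ℝ) : ‖ee n x‖ = 1 := by
  unfold ee
  rw [show (2 * Real.pi * Complex.I * n * x : ℂ) = ((2 * Real.pi * n * x : ℝ) : ℂ) * Complex.I by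
    push_cast; ring]
  exact Complex.norm_exp_ofReal_mul_I _

lemma ee_add_int (n : ℤ) (x : ℝ) (m : ℤ) : ee n (x + m) = ee n x := by
  unfold ee
  rw [show (2 * Real.pi * Complex.I * n * ((x + m : ℝ) : ℂ) : ℂ) =
    2 * Real.pi * Complex.I * n * x + ((n * m : ℤ) : ℂ) * (2 * Real.pi * Complex.I) by
      push_cast; ring]
  rw [Complex.exp_add, Complex.exp_int_mul_two_pi_mul_I, mul_one]

lemma ee_zero_right (n : ℤ) : ee n 0 = 1 := by simp [ee]

lemma ee_one_right (n : ℤ) : ee n 1 = 1 := by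
  have := ee_add_int n 0 1
  rw [ee_zero_right] at this
  simpa using this

lemma hasDerivAt_ee (n : ℤ) (x : ℝ) :
    HasDerivAt (ee n) (2 * Real.pi * Complex.I * n * ee n x) x := by
  unfold ee
  have h1 : HasDerivAt (fun t : ℝ => 2 * Real.pi * Complex.I * n * (t : ℂ))
      (2 * Real.pi * Complex.I * n * 1) x := (Complex.ofRealCLM.hasDerivAt (x := x)).const_mul _
  have h2 := h1.cexp
  refine h2.congr_deriv ?_
  ring

/-- the Fourier coefficients -/
noncomputable def co (G : ℝ × ℝ → ℂ) (n : ℤ) (y : ℝ) : ℂ := ∫ x in (0 : ℝ)..1, G (x, y) * ee (-n) x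

lemma cont_slice {G : ℝ × ℝ → ℂ} (hG : ContDiffOn ℝ ∞ G Om) {y : ℝ} (hy : 0 < y) :
    Continuous fun x => G (x, y) := by
  rw [continuous_iff_continuousAt]
  intro x
  exact (hasDerivAt_fst hG x hy).continuousAt

/-- the coefficients may be differentiated -/
lemma hasDerivAt_co {G : ℝ × ℝ → ℂ} (hG : ContDiffOn ℝ ∞ G Om) (n : ℤ) {y : ℝ} (hy : 0 < y) :
    HasDerivAt (co G n) (co (pd (0, 1) G) n y) y := by
  have hG' := pd_smooth hG (0, 1)
  have hK : IsCompact (Set.Icc (0 : ℝ) 1 ×ˢ Set.Icc (y / 2) (2 * y)) :=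
    isCompact_Icc.prod isCompact_Icc
  have hKs : Set.Icc (0 : ℝ) 1 ×ˢ Set.Icc (y / 2) (2 * y) ⊆ Om := by
    rintro ⟨a, b⟩ ⟨-, hb⟩
    exact lt_of_lt_of_le (by positivity) hb.1
  obtain ⟨C, hC⟩ := hK.exists_bound_of_continuousOn (hG'.continuousOn.mono hKs)
  have key := intervalIntegral.hasDerivAt_integral_of_dominated_loc_of_deriv_le (𝕜 := ℝ)
    (μ := volume) (a := 0) (b := 1)
    (F := fun (y : ℝ) (x : ℝ) => G (x, y) * ee (-n) x)
    (F' := fun (y : ℝ) (x : ℝ) => pd (0, 1) G (x, y) * ee (-n) x) (x₀ := y)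
    (s := Set.Ioo (y / 2) (2 * y)) (bound := fun _ => C)
    (Ioo_mem_nhds (by linarith) (by linarith)) ?_ ?_ ?_ ?_ ?_ ?_
  · exact key.2
  · filter_upwards [lt_mem_nhds hy] with t ht
    exact ((cont_slice hG ht).mul (continuous_ee _)).aestronglyMeasurable
  · exact ((cont_slice hG hy).mul (continuous_ee _)).intervalIntegrable _ _
  · exact ((cont_slice hG' hy).mul (continuous_ee _)).aestronglyMeasurable
  · refine Eventually.of_forall fun x hx t ht => ?_
    rw [norm_mul, norm_ee, mul_one]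
    apply hC
    rw [Set.uIoc_of_le zero_le_one] at hx
    exact ⟨⟨hx.1.le, hx.2⟩, ⟨ht.1.le, ht.2.le⟩⟩
  · exact intervalIntegrable_const
  · refine Eventually.of_forall fun x _ t ht => ?_
    exact (hasDerivAt_snd hG x (lt_trans (by positivity) ht.1)).mul_const _

/-- integration by parts -/
lemma co_pd_fst {G : ℝ × ℝ → ℂ} (hG : ContDiffOn ℝ ∞ G Om)
    (hper : ∀ x y, 0 < y → G (x + 1, y) = G (x, y)) (n : ℤ) {y : ℝ} (hy : 0 < y) :
    co (pd (1, 0) G) n y = 2 * Real.pi * Complex.I * n * co G n y := by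
  unfold co
  have h1 := intervalIntegral.integral_deriv_mul_eq_sub (a := 0) (b := 1)
    (u := fun x => G (x, y)) (v := ee (-n)) (u' := fun x => pd (1, 0) G (x, y))
    (v' := fun x => 2 * Real.pi * Complex.I * ((-n : ℤ) : ℂ) * ee (-n) x)
    (fun x _ => hasDerivAt_fst hG x hy) (fun x _ => hasDerivAt_ee (-n) x)
    ((cont_slice (pd_smooth hG (1, 0)) hy).intervalIntegrable _ _)
    ((continuous_const.mul (continuous_ee (-n))).intervalIntegrable _ _)
  have h2 : G (1, y) = G (0, y) := by simpa using hper 0 y hy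
  rw [h2, ee_one_right, ee_zero_right, sub_self, intervalIntegral.integral_add] at h1
  · have h3 : ∫ x in (0 : ℝ)..1, G (x, y) * (2 * Real.pi * Complex.I * ((-n : ℤ) : ℂ) * ee (-n) x) =
        2 * Real.pi * Complex.I * ((-n : ℤ) : ℂ) * ∫ x in (0 : ℝ)..1, G (x, y) * ee (-n) x := by
      rw [← intervalIntegral.integral_const_mul]
      congr 1
      funext x
      ring
    rw [h3] at h1
    push_cast at h1
    linear_combination h1
  · exact ((cont_slice (pd_smooth hG (1, 0)) hy).mul (continuous_ee _)).intervalIntegrable _ _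
  · exact ((cont_slice hG hy).mul (continuous_const.mul (continuous_ee _))).intervalIntegrable _ _

lemma pd_periodic {G : ℝ × ℝ → ℂ} (hG : ContDiffOn ℝ ∞ G Om)
    (hper : ∀ x y, 0 < y → G (x + 1, y) = G (x, y)) (x y : ℝ) (hy : 0 < y) :
    pd (1, 0) G (x + 1, y) = pd (1, 0) G (x, y) := by
  have h1 := hasDerivAt_fst hG (x + 1) hy
  have h2 := hasDerivAt_fst hG x hy
  have h3 : HasDerivAt (fun t => G (t + 1, y)) (pd (1, 0) G (x + 1, y)) x := by
    have := HasDerivAt.scomp (x := x) (h := fun u : ℝ => u + 1) h1 ((hasDerivAt_id x).add_const 1)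
    simpa [Function.comp_def] using this
  have h4 : (fun t => G (t + 1, y)) = fun t => G (t, y) := by
    funext t; exact hper t y hy
  rw [h4] at h3
  exact h3.unique h2

end Pool.Agent.N819.Four
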