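import Pool.Agent.N819.Four1

/-!
# Fourier coefficients of a Laplace eigenfunction, part 2
-/

set_option autoImplicit false

open MeasureTheory Filter Topology UpperHalfPlane
open scoped ContDiff

namespace Pool.Agent.N819.Four

open Pool.Agent.N849.Bessel (W W_unique norm_W_le exists_W_ne_zero)
open Pool.Agent.N849.Hecke (heckeOp)

/-- properties of `G (x, y) = φ (x + i y)` -/
structure GG (G : ℝ × ℝ → ℂ) (ν : ℂ) : Prop where
  smooth : ContDiffOn ℝ ∞ G Om
  bdd : ∃ M : ℝ, ∀ p ∈ Om, ‖G p‖ ≤ M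
  per : ∀ x y : ℝ, 0 < y → G (x + 1, y) = G (x, y)
  odd : ∀ x y : ℝ, 0 < y → G (-x, y) = - G (x, y)
  lap : ∀ x y : ℝ, 0 < y → (y : ℂ) ^ 2 * (pd (1, 0) (pd (1, 0) G) (x, y) +
    pd (0, 1) (pd (0, 1) G) (x, y)) = -(1 / 4 - ν ^ 2) * G (x, y)

variable {G : ℝ × ℝ → ℂ} {ν : ℂ}

lemma GG.ode (h : GG G ν) (n : ℤ) {y : ℝ} (hy : 0 < y) :
    co (pd (0, 1) (pd (0, 1) G)) n y =
      (4 * Real.pi ^ 2 * n ^ 2 - (1 / 4 - ν ^ 2) / (y : ℂ) ^ 2) * co G n y := by
  have hy0 : (y : ℂ) ≠ 0 := by exact_mod_cast hy.ne'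
  have h1 : co (pd (1, 0) (pd (1, 0) G)) n y = (2 * Real.pi * Complex.I * n) ^ 2 * co G n y := by
    rw [co_pd_fst (pd_smooth h.smooth (1, 0)) (pd_periodic h.smooth h.per) n hy,
      co_pd_fst h.smooth h.per n hy]
    ring
  have e : ∀ x, pd (0, 1) (pd (0, 1) G) (x, y) * ee (-n) x =
      (-(1 / 4 - ν ^ 2) / (y : ℂ) ^ 2) * (G (x, y) * ee (-n) x) -
        pd (1, 0) (pd (1, 0) G) (x, y) * ee (-n) x := by
    intro x
    have := h.lap x y hy
    have h2 : pd (0, 1) (pd (0, 1) G) (x, y) =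
        (-(1 / 4 - ν ^ 2) / (y : ℂ) ^ 2) * G (x, y) - pd (1, 0) (pd (1, 0) G) (x, y) := by
      field_simp
      linear_combination 4 * this
    rw [h2]
    ring
  have h3 : co (pd (0, 1) (pd (0, 1) G)) n y =
      (-(1 / 4 - ν ^ 2) / (y : ℂ) ^ 2) * co G n y - co (pd (1, 0) (pd (1, 0) G)) n y := by
    unfold co
    simp_rw [e]
    rw [intervalIntegral.integral_sub, intervalIntegral.integral_const_mul]
    · exact (continuous_const.mul ((cont_slice h.smooth hy).mul
        (continuous_ee _))).intervalIntegrable _ _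
    · exact ((cont_slice (pd_smooth (pd_smooth h.smooth _) _) hy).mul
        (continuous_ee _)).intervalIntegrable _ _
  rw [h3, h1]
  have hI : Complex.I ^ 2 = -1 := Complex.I_sq
  linear_combination (-(4 * Real.pi ^ 2 * n ^ 2 * co G n y : ℂ)) * hI

lemma GG.co_bound (h : GG G ν) : ∃ M : ℝ, ∀ (n : ℤ) (y : ℝ), 0 < y → ‖co G n y‖ ≤ M := by
  obtain ⟨M, hM⟩ := h.bdd
  refine ⟨M, fun n y hy => ?_⟩
  unfold co
  have := intervalIntegral.norm_integral_le_of_norm_le_const (a := (0 : ℝ)) (b := 1)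
    (f := fun x => G (x, y) * ee (-n) x) (C := M) (fun x _ => by
      rw [norm_mul, norm_ee, mul_one]
      exact hM (x, y) hy)
  simpa using this

/-- the coefficients are multiples of Bessel functions -/
lemma GG.exists_C (h : GG G ν) (n : ℕ) (hn : 1 ≤ n) :
    ∃ c : ℂ, ∀ y, 0 < y → co G n y = c * W ν (n * y) := by
  have hn0 : (0 : ℝ) < n := by exact_mod_cast hn
  have hn0' : (n : ℂ) ≠ 0 := by exact_mod_cast hn0.ne'
  obtain ⟨M, hM⟩ := h.co_bound
  obtain ⟨c, hc⟩ := W_unique ν (fun u => co G n (u / n))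
    (fun u => (1 / (n : ℂ)) * co (pd (0, 1) G) n (u / n))
    (fun u hu => by
      have hu' : 0 < u / n := by positivity
      have h1 := hasDerivAt_co h.smooth n hu'
      have h2 : HasDerivAt (fun u : ℝ => u / n) (1 / n) u := (hasDerivAt_id u).div_const _
      have h3 := HasDerivAt.scomp (x := u) (h := fun u : ℝ => u / n) h1 h2
      refine h3.congr_deriv ?_
      rw [Complex.real_smul]
      push_cast
      ring)
    (fun u hu => by
      have hu' : 0 < u / n := by positivity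
      have h1 := hasDerivAt_co (pd_smooth h.smooth (0, 1)) n hu'
      have h2 : HasDerivAt (fun u : ℝ => u / n) (1 / n) u := (hasDerivAt_id u).div_const _
      have h3 := (HasDerivAt.scomp (x := u) (h := fun u : ℝ => u / n) h1 h2).const_mul (1 / (n : ℂ))
      refine h3.congr_deriv ?_
      rw [Complex.real_smul, h.ode n hu']
      have hu0 : (u : ℂ) ≠ 0 := by exact_mod_cast hu.ne'
      push_cast
      field_simp)
    ⟨M, fun u hu => hM n _ (by positivity)⟩
  refine ⟨c, fun y hy => ?_⟩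
  have := hc (n * y) (by positivity)
  rwa [mul_div_cancel_left₀ _ hn0.ne'] at this

/-- the coefficients `C n` -/
noncomputable def Cf (G : ℝ × ℝ → ℂ) (ν : ℂ) (n : ℕ) : ℂ :=
  open Classical in
  if h : ∃ c : ℂ, ∀ y, 0 < y → co G n y = c * W ν (n * y) then
    (if n = 0 then 0 else h.choose) else 0

lemma Cf_zero : Cf G ν 0 = 0 := by
  simp [Cf]

lemma GG.Cf_spec (h : GG G ν) {n : ℕ} (hn : 1 ≤ n) {y : ℝ} (hy : 0 < y) :
    co G n y = Cf G ν n * W ν (n * y) := by
  have h1 := h.exists_C n hn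
  unfold Cf
  rw [dif_pos h1, if_neg (by omega)]
  exact h1.choose_spec y hy

lemma GG.Cf_bound (h : GG G ν) : ∃ B : ℝ, ∀ n, ‖Cf G ν n‖ ≤ B := by
  obtain ⟨M, hM⟩ := h.co_bound
  obtain ⟨y₀, hy₀, hW⟩ := exists_W_ne_zero ν
  have hM0 : 0 ≤ M := (norm_nonneg _).trans (hM 0 1 one_pos)
  refine ⟨M / ‖W ν y₀‖, fun n => ?_⟩
  rcases Nat.eq_zero_or_pos n with rfl | hn
  · rw [Cf_zero, norm_zero]; positivity
  · have hn0 : (0 : ℝ) < n := by exact_mod_cast hn
    have h1 := h.Cf_spec hn (y := y₀ / n) (by positivity)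
    rw [mul_div_cancel₀ _ hn0.ne'] at h1
    have h2 := hM n (y₀ / n) (by positivity)
    rw [h1, norm_mul] at h2
    rw [le_div_iff₀ (norm_pos_iff.2 hW)]
    exact h2

/-- oddness -/
lemma GG.co_neg (h : GG G ν) (n : ℤ) {y : ℝ} (hy : 0 < y) : co G (-n) y = - co G n y := by
  unfold co
  have h1 : ∫ x in (0 : ℝ)..1, G (x, y) * ee (- -n) x =
      ∫ x in (0 : ℝ)..1, G (1 - x, y) * ee (- -n) (1 - x) := by
    have := intervalIntegral.integral_comp_sub_left (a := 0) (b := 1)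
      (fun x => G (x, y) * ee (- -n) x) 1
    simpa using this.symm
  rw [h1, ← intervalIntegral.integral_neg]
  congr 1
  funext x
  have h2 : G (1 - x, y) = - G (x, y) := by
    rw [show (1 - x) = -x + 1 by ring, h.per _ _ hy, h.odd _ _ hy]
  have h3 : ee (- -n) (1 - x) = ee (-n) x := by
    have := ee_add_int (- -n) (-x) 1
    rw [show -x + ((1 : ℤ) : ℝ) = 1 - x by push_cast; ring] at this
    rw [this]
    unfold ee
    congr 1
    push_cast
    ring
  rw [h2, h3]
  ring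

lemma GG.co_zero (h : GG G ν) {y : ℝ} (hy : 0 < y) : co G 0 y = 0 := by
  have := h.co_neg 0 hy
  rw [neg_zero] at this
  have h2 : (2 : ℂ) * co G 0 y = 0 := by linear_combination this
  exact (mul_eq_zero.1 h2).resolve_left two_ne_zero

end Pool.Agent.N819.Four
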