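import Pool.Agent.N819.Four2

/-!
# Fourier coefficients of a Laplace eigenfunction, part 3
-/

set_option autoImplicit false

open MeasureTheory Filter Topology UpperHalfPlane
open scoped ContDiff

namespace Pool.Agent.N819.Four

open Pool.Agent.N849.Bessel (W W_unique norm_W_le exists_W_ne_zero)
open Pool.Agent.N849.Hecke (heckeOp)

variable {G : ℝ × ℝ → ℂ} {ν : ℂ}

lemma summable_W (ν : ℂ) {y : ℝ} (hy : 0 < y) : Summable fun n : ℕ => ‖W ν (n * y)‖ := by
  obtain ⟨C, hC, h⟩ := norm_W_le ν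
  -- eventually `‖W (n y)‖ ≤ C n y e^{-2 π n y}`
  have h1 : Summable fun n : ℕ => C * (y * ((n : ℝ) ^ 1 * Real.exp (-(2 * Real.pi * y)) ^ n)) := by
    refine Summable.mul_left _ (Summable.mul_left _ ?_)
    apply summable_pow_mul_geometric_of_norm_lt_one 1
    rw [Real.norm_of_nonneg (Real.exp_pos _).le, Real.exp_lt_one_iff]
    have : 0 < 2 * Real.pi * y := by positivity
    linarith
  obtain ⟨N, hN⟩ := exists_nat_ge (1 / y)
  rw [← summable_nat_add_iff N]
  rw [← summable_nat_add_iff N] at h1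
  refine Summable.of_nonneg_of_le (fun n => norm_nonneg _) (fun n => ?_) h1
  have h2 : 1 ≤ ((n + N : ℕ) : ℝ) * y := by
    rw [div_le_iff₀ hy] at hN
    push_cast
    have : (0 : ℝ) ≤ n * y := by positivity
    nlinarith
  refine (h _ h2).trans (le_of_eq ?_)
  rw [← Real.exp_nat_mul]
  congr 1
  rw [pow_one]
  have : -(2 * Real.pi * (((n + N : ℕ) : ℝ) * y)) = ((n + N : ℕ) : ℝ) * -(2 * Real.pi * y) := by ring
  rw [this]
  ring

theorem GG.hasSum (h : GG G ν) (x : ℝ) {y : ℝ} (hy : 0 < y) :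
    HasSum (fun n : ℕ => Cf G ν n * W ν (n * y) *
      (2 * Complex.I * Real.sin (2 * Real.pi * n * x))) (G (x, y)) := by
  obtain ⟨B, hB⟩ := h.Cf_bound
  have hper : Function.Periodic (fun x : ℝ => G (x, y)) 1 := fun x => h.per x y hy
  let g : C(AddCircle (1 : ℝ), ℂ) := ⟨hper.lift, continuous_coinduced_dom.mpr (cont_slice h.smooth hy)⟩
  have hcoef : ∀ n : ℤ, fourierCoeff g n = co G n y := by
    intro n
    rw [fourierCoeff_eq_intervalIntegral _ n 0]
    unfold co
    rw [zero_add, div_one, one_smul]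
    congr 1
    funext t
    have e1 : g ((t : ℝ) : AddCircle (1 : ℝ)) = G (t, y) := hper.lift_coe t
    rw [e1, fourier_coe_apply, smul_eq_mul, mul_comm]
    congr 1
    unfold ee
    congr 1
    push_cast
    ring
  have hs0 : Summable fun n : ℕ => ‖co G (n : ℤ) y‖ := by
    refine Summable.of_nonneg_of_le (fun n => norm_nonneg _) (fun n => ?_)
      ((summable_W ν hy).mul_left B)
    rcases Nat.eq_zero_or_pos n with rfl | hn
    · have : co G ((0 : ℕ) : ℤ) y = 0 := h.co_zero hy
      rw [this, norm_zero]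
      exact mul_nonneg ((norm_nonneg _).trans (hB 0)) (norm_nonneg _)
    · rw [h.Cf_spec hn hy, norm_mul]
      exact mul_le_mul_of_nonneg_right (hB n) (norm_nonneg _)
  have hsum : Summable (fourierCoeff g) := by
    have e : fourierCoeff g = fun n => co G n y := funext hcoef
    rw [e]
    apply Summable.of_norm
    apply Summable.of_nat_of_neg
    · exact hs0
    · refine hs0.congr fun n => ?_
      rw [h.co_neg _ hy, norm_neg]
  have key := has_pointwise_sum_fourier_series_of_summable hsum ((x : ℝ) : AddCircle (1 : ℝ))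
  have e1 : g ((x : ℝ) : AddCircle (1 : ℝ)) = G (x, y) := hper.lift_coe x
  rw [e1] at key
  have key2 := HasSum.nat_add_neg key
  rw [hcoef 0, h.co_zero hy, zero_smul, add_zero] at key2
  refine key2.congr_fun ?_ |> id
  intro n
  rw [hcoef, hcoef, h.co_neg _ hy, fourier_coe_apply, fourier_coe_apply]
  have e3 : Complex.exp (2 * Real.pi * Complex.I * ((n : ℕ) : ℤ) * x / ((1 : ℝ) : ℂ)) -
      Complex.exp (2 * Real.pi * Complex.I * ((-(n : ℤ) : ℤ) : ℂ) * x / ((1 : ℝ) : ℂ)) =
      2 * Complex.I * Real.sin (2 * Real.pi * n * x) := by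
    rw [Complex.ofReal_sin, Complex.sin]
    have a1 : (2 * Real.pi * Complex.I * ((n : ℕ) : ℤ) * x / ((1 : ℝ) : ℂ) : ℂ) =
        ((2 * Real.pi * n * x : ℝ) : ℂ) * Complex.I := by push_cast; ring
    have a2 : (2 * Real.pi * Complex.I * ((-(n : ℤ) : ℤ) : ℂ) * x / ((1 : ℝ) : ℂ) : ℂ) =
        -((2 * Real.pi * n * x : ℝ) : ℂ) * Complex.I := by push_cast; ring
    rw [a1, a2]
    have hI : Complex.I ^ 2 = -1 := Complex.I_sq
    linear_combination (Complex.exp (((2 * Real.pi * n * x : ℝ) : ℂ) * Complex.I) -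
      Complex.exp (-((2 * Real.pi * n * x : ℝ) : ℂ) * Complex.I)) * hI
  rw [← e3]
  rcases Nat.eq_zero_or_pos n with rfl | hn
  · have h0 : co G ((0 : ℕ) : ℤ) y = 0 := h.co_zero hy
    rw [h0, Cf_zero]
    simp
  · rw [h.Cf_spec hn hy]
    simp only [smul_eq_mul]
    ring

end Pool.Agent.N819.Four
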