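import Pool.Agent.N819.Four3

/-!
# Fourier coefficients of a Laplace eigenfunction, part 4: Hecke relations
-/

set_option autoImplicit false

open MeasureTheory Filter Topology UpperHalfPlane
open scoped ContDiff

namespace Pool.Agent.N819.Four

open Pool.Agent.N849.Bessel (W W_unique norm_W_le exists_W_ne_zero)
open Pool.Agent.N849.Hecke (heckeOp)

variable {G : ℝ × ℝ → ℂ} {ν : ℂ}

lemma ee_periodic (n : ℤ) : Function.Periodic (ee n) 1 := by
  intro x
  have := ee_add_int n x 1
  simpa using this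

lemma ee_add (n : ℤ) (x y : ℝ) : ee n (x + y) = ee n x * ee n y := by
  unfold ee
  rw [← Complex.exp_add]
  congr 1
  push_cast
  ring

lemma ee_ne_one {p : ℕ} (hp : 0 < p) {n : ℤ} (hn : ¬ (p : ℤ) ∣ n) : ee n (1 / p) ≠ 1 := by
  intro h
  unfold ee at h
  rw [Complex.exp_eq_one_iff] at h
  obtain ⟨k, hk⟩ := h
  apply hn
  refine ⟨k, ?_⟩
  have hp' : (p : ℂ) ≠ 0 := by exact_mod_cast hp.ne'
  have h2 : (2 * Real.pi * Complex.I : ℂ) ≠ 0 := Complex.two_pi_I_ne_zero
  have h3 : (n : ℂ) = p * k := by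
    push_cast at hk
    have : (2 * Real.pi * Complex.I : ℂ) * n = (2 * Real.pi * Complex.I : ℂ) * (p * k) := by
      field_simp at hk
      linear_combination (2 * Real.pi * Complex.I : ℂ) * hk
    exact mul_left_cancel₀ h2 this
  exact_mod_cast h3

/-- the first part of the Hecke operator -/
lemma int_fst_not_dvd {f : ℝ → ℂ} (hf : Function.Periodic f 1) {p : ℕ} (hp : 0 < p)
    {n : ℤ} (hn : ¬ (p : ℤ) ∣ n) : ∫ x in (0 : ℝ)..1, f (p * x) * ee (-n) x = 0 := by
  have hp' : (p : ℝ) ≠ 0 := by exact_mod_cast hp.ne'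
  have hper : Function.Periodic (fun x => f (p * x) * ee (-n) x) 1 := by
    intro x
    simp only
    rw [ee_periodic]
    congr 1
    have := hf.nat_mul p (p * x)
    rw [← this]
    congr 1
    ring
  have h1 : ∫ x in (0 : ℝ)..1, f (p * (x + 1 / p)) * ee (-n) (x + 1 / p) =
      ∫ x in (0 : ℝ)..1, f (p * x) * ee (-n) x := by
    have e := intervalIntegral.integral_comp_add_right (a := 0) (b := 1)
      (fun x => f (p * x) * ee (-n) x) (1 / (p : ℝ))
    rw [e]
    have := hper.intervalIntegral_add_eq (1 / (p : ℝ)) 0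
    rw [zero_add] at this
    rw [← this]
    congr 1 <;> ring
  have h2 : ∫ x in (0 : ℝ)..1, f (p * (x + 1 / p)) * ee (-n) (x + 1 / p) =
      ee (-n) (1 / p) * ∫ x in (0 : ℝ)..1, f (p * x) * ee (-n) x := by
    rw [← intervalIntegral.integral_const_mul]
    congr 1
    funext x
    rw [ee_add, show (p : ℝ) * (x + 1 / p) = p * x + 1 by field_simp, hf]
    ring
  rw [h1] at h2
  have h3 : ee (-n) (1 / p) ≠ 1 := ee_ne_one hp (by rwa [dvd_neg])
  have h4 : (ee (-n) (1 / p) - 1) * ∫ x in (0 : ℝ)..1, f (p * x) * ee (-n) x = 0 := by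
    linear_combination -h2
  exact (mul_eq_zero.1 h4).resolve_left (sub_ne_zero.2 h3)

lemma int_scale {h : ℝ → ℂ} (hh : Function.Periodic h 1) (hc : Continuous h) {p : ℕ} (hp : 0 < p) :
    ∫ x in (0 : ℝ)..p, h x = p * ∫ x in (0 : ℝ)..1, h x := by
  have h1 := intervalIntegral.sum_integral_adjacent_intervals (f := h) (μ := volume)
    (a := fun k : ℕ => (k : ℝ)) (n := p) (fun k _ => hc.intervalIntegrable _ _)
  have h2 : ∀ k : ℕ, ∫ x in ((k : ℕ) : ℝ)..((k + 1 : ℕ) : ℝ), h x = ∫ x in (0 : ℝ)..1, h x := by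
    intro k
    have := hh.intervalIntegral_add_eq (k : ℝ) 0
    rw [zero_add] at this
    rw [← this]
    push_cast
    rfl
  rw [Finset.sum_congr rfl fun k _ => h2 k] at h1
  rw [Finset.sum_const, Finset.card_range, nsmul_eq_mul] at h1
  rw [h1]
  push_cast
  rfl

lemma int_fst_dvd {f : ℝ → ℂ} (hf : Function.Periodic f 1) (hc : Continuous f) {p : ℕ} (hp : 0 < p)
    (m : ℤ) : ∫ x in (0 : ℝ)..1, f (p * x) * ee (-(p * m)) x =
      ∫ x in (0 : ℝ)..1, f x * ee (-m) x := by
  have hp' : (p : ℝ) ≠ 0 := by exact_mod_cast hp.ne'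
  have hpc : (p : ℂ) ≠ 0 := by exact_mod_cast hp.ne'
  have h1 : ∀ x : ℝ, f (p * x) * ee (-(p * m)) x = (fun t => f t * ee (-m) t) (p * x) := by
    intro x
    simp only
    congr 1
    unfold ee
    congr 1
    push_cast
    ring
  simp_rw [h1]
  have h3 := int_scale (h := fun t => f t * ee (-m) t)
    (fun x => by simp only; rw [hf, ee_periodic]) (hc.mul (continuous_ee _)) hp
  rw [intervalIntegral.integral_comp_mul_left (fun t => f t * ee (-m) t) hp', mul_zero, mul_one,
    h3]
  rw [Complex.real_smul]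
  push_cast
  field_simp

lemma int_snd {f : ℝ → ℂ} (hf : Function.Periodic f 1) (hc : Continuous f) {p : ℕ} (hp : 0 < p)
    (n : ℤ) : ∑ b ∈ Finset.range p, ∫ x in (0 : ℝ)..1, f ((x + b) / p) * ee (-n) x =
      p * ∫ x in (0 : ℝ)..1, f x * ee (-(p * n)) x := by
  have hp' : (p : ℝ) ≠ 0 := by exact_mod_cast hp.ne'
  have hpc : (p : ℂ) ≠ 0 := by exact_mod_cast hp.ne'
  have hcont : Continuous fun x : ℝ => f (x / p) * ee (-n) x :=
    (hc.comp (continuous_id.div_const _)).mul (continuous_ee _)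
  have h1 : ∀ b : ℕ, ∫ x in (0 : ℝ)..1, f ((x + b) / p) * ee (-n) x =
      ∫ x in (b : ℝ)..((b + 1 : ℕ) : ℝ), f (x / p) * ee (-n) x := by
    intro b
    have e := intervalIntegral.integral_comp_add_right (a := 0) (b := 1)
      (fun x => f (x / p) * ee (-n) x) (b : ℝ)
    rw [zero_add, add_comm (1 : ℝ)] at e
    push_cast
    rw [← e]
    congr 1
    funext x
    have := ee_add_int (-n) x b
    push_cast at this
    rw [this]
  rw [Finset.sum_congr rfl fun b _ => h1 b,
    intervalIntegral.sum_integral_adjacent_intervals (f := fun x : ℝ => f (x / p) * ee (-n) x)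
      (a := fun k : ℕ => (k : ℝ)) (n := p) (fun k _ => hcont.intervalIntegrable _ _)]
  have h2 : ∀ x : ℝ, f (x / p) * ee (-n) x = (fun t => f t * ee (-(p * n)) t) (x / p) := by
    intro x
    simp only
    congr 1
    unfold ee
    congr 1
    push_cast
    field_simp
  simp_rw [h2]
  rw [intervalIntegral.integral_comp_div (fun t => f t * ee (-(p * n)) t) hp']
  rw [Nat.cast_zero, zero_div, div_self hp', Complex.real_smul]
  push_cast
  rfl

/-- Hecke relation on the coefficients -/
lemma GG.hecke (h : GG G ν) {p : ℕ} (hp : 0 < p) (c : ℂ)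
    (hc : ∀ x y : ℝ, 0 < y → G (p * x, p * y) + ∑ b ∈ Finset.range p, G ((x + b) / p, y / p) =
      c * G (x, y)) {n : ℕ} (hn : 1 ≤ n) :
    c * Cf G ν n = p * Cf G ν (p * n) + if p ∣ n then Cf G ν (n / p) else 0 := by
  have hp' : (0 : ℝ) < p := by exact_mod_cast hp
  have hn' : (0 : ℝ) < n := by exact_mod_cast hn
  obtain ⟨y₀, hy₀, hW⟩ := exists_W_ne_zero ν
  set y : ℝ := y₀ / n with hy
  have hypos : 0 < y := by positivity
  have hpy : 0 < (p : ℝ) * y := by positivity
  have hyp : 0 < y / (p : ℝ) := by positivity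
  have hny : (n : ℝ) * y = y₀ := by rw [hy]; field_simp
  have hperf : ∀ {y : ℝ}, 0 < y → Function.Periodic (fun x => G (x, y)) 1 := fun hy x => h.per x _ hy
  have h1 : ∫ x in (0 : ℝ)..1, (G (p * x, p * y) +
      ∑ b ∈ Finset.range p, G ((x + b) / p, y / p)) * ee (-n) x = c * co G n y := by
    unfold co
    rw [← intervalIntegral.integral_const_mul]
    congr 1
    funext x
    rw [hc x y hypos]
    ring
  have c1 : Continuous fun x : ℝ => G (p * x, p * y) * ee (-n) x :=
    ((cont_slice h.smooth hpy).comp (continuous_const.mul continuous_id)).mul (continuous_ee _)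
  have c2 : ∀ b : ℕ, Continuous fun x : ℝ => G ((x + b) / p, y / p) * ee (-n) x := fun b =>
    ((cont_slice h.smooth hyp).comp ((continuous_id.add continuous_const).div_const _)).mul
      (continuous_ee _)
  have h2 : ∫ x in (0 : ℝ)..1, (G (p * x, p * y) +
      ∑ b ∈ Finset.range p, G ((x + b) / p, y / p)) * ee (-n) x =
      (∫ x in (0 : ℝ)..1, G (p * x, p * y) * ee (-n) x) +
        ∑ b ∈ Finset.range p, ∫ x in (0 : ℝ)..1, G ((x + b) / p, y / p) * ee (-n) x := by
    rw [← intervalIntegral.integral_finsetSum (fun b _ => (c2 b).intervalIntegrable _ _),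
      ← intervalIntegral.integral_add (c1.intervalIntegrable _ _)
        ((continuous_finsetSum _ fun b _ => c2 b).intervalIntegrable _ _)]
    congr 1
    funext x
    rw [add_mul, Finset.sum_mul]
  have h3 : ∑ b ∈ Finset.range p, ∫ x in (0 : ℝ)..1, G ((x + b) / p, y / p) * ee (-n) x =
      p * (Cf G ν (p * n) * W ν y₀) := by
    have := int_snd (hperf hyp) (cont_slice h.smooth hyp) hp n
    rw [this]
    congr 1
    have e := h.Cf_spec (n := p * n) (Nat.mul_pos hp hn) (y := y / p) hyp
    rw [show (((p * n : ℕ) : ℝ)) * (y / p) = y₀ by push_cast; rw [← hny]; field_simp] at e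
    rw [← e]
    unfold co
    congr 1
  have h4 : ∫ x in (0 : ℝ)..1, G (p * x, p * y) * ee (-n) x =
      (if p ∣ n then Cf G ν (n / p) else 0) * W ν y₀ := by
    split_ifs with hd
    · obtain ⟨m, rfl⟩ := hd
      have hm : 1 ≤ m := by
        rcases Nat.eq_zero_or_pos m with rfl | hm
        · simp at hn
        · exact hm
      have := int_fst_dvd (hperf hpy) (cont_slice h.smooth hpy) hp m
      rw [Nat.mul_div_cancel_left _ hp]
      have e := h.Cf_spec (n := m) hm (y := p * y) hpy
      rw [show ((m : ℕ) : ℝ) * (p * y) = y₀ by rw [← hny]; push_cast; ring] at e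
      rw [← e]
      unfold co
      rw [← this]
      congr 1
    · rw [zero_mul]
      exact int_fst_not_dvd (hperf hpy) hp (by exact_mod_cast hd)
  rw [h2, h3, h4] at h1
  have e := h.Cf_spec hn hypos
  rw [hny] at e
  rw [e] at h1
  apply mul_right_cancel₀ hW
  linear_combination -h1

end Pool.Agent.N819.Four
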