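import Pool.Agent.N819.Smooth

/-!
# The Laplacian of `Lop h f`
-/

set_option autoImplicit false

open UpperHalfPlane MeasureTheory Filter Topology
open scoped ContDiff

namespace Pool.Agent.N819

lemma mv_one_re (z : ℍ) (t : ℝ) : (mv 1 z t).re = z.re + t := by
  have h : 0 < ((z : ℂ) + (t : ℂ) * 1).im := by simpa using z.im_pos
  rw [← coe_re, coe_mv h]; simp

lemma mv_one_im (z : ℍ) (t : ℝ) : (mv 1 z t).im = z.im := by
  have h : 0 < ((z : ℂ) + (t : ℂ) * 1).im := by simpa using z.im_pos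
  rw [← coe_im, coe_mv h]; simp

lemma mv_I_re {z : ℍ} {t : ℝ} (ht : 0 < z.im + t) : (mv Complex.I z t).re = z.re := by
  have h : 0 < ((z : ℂ) + (t : ℂ) * Complex.I).im := by simpa using ht
  rw [← coe_re, coe_mv h]; simp

lemma mv_I_im {z : ℍ} {t : ℝ} (ht : 0 < z.im + t) : (mv Complex.I z t).im = z.im + t := by
  have h : 0 < ((z : ℂ) + (t : ℂ) * Complex.I).im := by simpa using ht
  rw [← coe_im, coe_mv h]; simp

noncomputable def vx (z w : ℍ) : ℝ := (z.re - w.re) / (z.im * w.im)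
noncomputable def vxx (z w : ℍ) : ℝ := 1 / (z.im * w.im)
noncomputable def vy (z w : ℍ) : ℝ := 1 / w.im - (vv z w + 1) / z.im
noncomputable def vyy (z w : ℍ) : ℝ := - vy z w / z.im + (vv z w + 1) / z.im ^ 2

lemma d_vv_one (z w : ℍ) : HasDerivAt (fun t : ℝ => vv (mv 1 z t) w) (vx z w) 0 := by
  have e : (fun t : ℝ => vv (mv 1 z t) w) =
      fun t => ((z.re + t - w.re) ^ 2 + (z.im - w.im) ^ 2) / (2 * z.im * w.im) := by
    funext t
    rw [vv_eq, mv_one_re, mv_one_im]
  rw [e]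
  have h1 : HasDerivAt (fun t : ℝ => z.re + t - w.re) 1 0 := by
    simpa using ((hasDerivAt_id (0 : ℝ)).const_add z.re).sub_const w.re
  have h2 := ((h1.pow 2).add_const ((z.im - w.im) ^ 2)).div_const (2 * z.im * w.im)
  refine h2.congr_deriv ?_
  have h4 := z.im_ne_zero
  have h5 := w.im_ne_zero
  unfold vx
  field_simp
  simp

lemma d_vx_one (z w : ℍ) : HasDerivAt (fun t : ℝ => vx (mv 1 z t) w) (vxx z w) 0 := by
  have e : (fun t : ℝ => vx (mv 1 z t) w) =
      fun t => (z.re + t - w.re) / (z.im * w.im) := by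
    funext t
    rw [vx, mv_one_re, mv_one_im]
  rw [e]
  have h1 : HasDerivAt (fun t : ℝ => z.re + t - w.re) 1 0 := by
    simpa using ((hasDerivAt_id (0 : ℝ)).const_add z.re).sub_const w.re
  exact h1.div_const (z.im * w.im)

lemma ev_pos (z : ℍ) : ∀ᶠ t : ℝ in 𝓝 0, 0 < z.im + t := by
  have : Tendsto (fun t : ℝ => z.im + t) (𝓝 0) (𝓝 (z.im + 0)) :=
    (continuous_const.add continuous_id).tendsto 0
  rw [add_zero] at this
  exact this.eventually (lt_mem_nhds z.im_pos)

lemma d_vv_I (z w : ℍ) : HasDerivAt (fun t : ℝ => vv (mv Complex.I z t) w) (vy z w) 0 := by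
  have e : (fun t : ℝ => vv (mv Complex.I z t) w) =ᶠ[𝓝 0]
      fun t => ((z.re - w.re) ^ 2 + (z.im + t - w.im) ^ 2) / (2 * (z.im + t) * w.im) := by
    filter_upwards [ev_pos z] with t ht
    rw [vv_eq, mv_I_re ht, mv_I_im ht]
  refine HasDerivAt.congr_of_eventuallyEq ?_ e
  have h4 := z.im_ne_zero
  have h5 := w.im_ne_zero
  have h1 : HasDerivAt (fun t : ℝ => z.im + t - w.im) 1 0 := by
    simpa using ((hasDerivAt_id (0 : ℝ)).const_add z.im).sub_const w.im
  have h1' : HasDerivAt (fun t : ℝ => 2 * (z.im + t) * w.im) (2 * 1 * w.im) 0 :=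
    (((hasDerivAt_id (0 : ℝ)).const_add z.im).const_mul 2).mul_const w.im
  have h2 := ((h1.pow 2).const_add ((z.re - w.re) ^ 2)).div h1' (by simpa using ⟨h4, h5⟩)
  refine h2.congr_deriv ?_
  unfold vy
  rw [vv_eq]
  simp only [add_zero, Nat.cast_ofNat, mul_one, Pi.pow_apply]
  field_simp
  ring

lemma d_vy_I (z w : ℍ) : HasDerivAt (fun t : ℝ => vy (mv Complex.I z t) w) (vyy z w) 0 := by
  have e : (fun t : ℝ => vy (mv Complex.I z t) w) =ᶠ[𝓝 0]
      fun t => 1 / w.im - (vv (mv Complex.I z t) w + 1) / (z.im + t) := by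
    filter_upwards [ev_pos z] with t ht
    rw [vy, mv_I_im ht]
  refine HasDerivAt.congr_of_eventuallyEq ?_ e
  have h4 := z.im_ne_zero
  have h1 := (d_vv_I z w).add_const 1
  have h2 : HasDerivAt (fun t : ℝ => z.im + t) 1 0 := (hasDerivAt_id (0 : ℝ)).const_add z.im
  have h3 := (h1.div h2 (by simpa using h4)).const_sub (1 / w.im)
  refine h3.congr_deriv ?_
  unfold vyy
  simp only [mv_zero, add_zero]
  field_simp
  ring

lemma cont_vv : Continuous (Function.uncurry vv) := continuous_vv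

lemma cont_vx : Continuous (Function.uncurry vx) := by
  unfold vx Function.uncurry
  refine Continuous.div ?_ ?_ fun p => mul_ne_zero p.1.im_ne_zero p.2.im_ne_zero
  · exact (continuous_re.comp continuous_fst).sub (continuous_re.comp continuous_snd)
  · exact (continuous_im.comp continuous_fst).mul (continuous_im.comp continuous_snd)

lemma cont_vxx : Continuous (Function.uncurry vxx) := by
  unfold vxx Function.uncurry
  refine Continuous.div continuous_const ?_ fun p => mul_ne_zero p.1.im_ne_zero p.2.im_ne_zero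
  exact (continuous_im.comp continuous_fst).mul (continuous_im.comp continuous_snd)

lemma cont_vy : Continuous (Function.uncurry vy) := by
  unfold vy Function.uncurry
  refine Continuous.sub ?_ ?_
  · exact Continuous.div continuous_const (continuous_im.comp continuous_snd)
      fun p => p.2.im_ne_zero
  · exact Continuous.div (continuous_vv.add continuous_const) (continuous_im.comp continuous_fst)
      fun p => p.1.im_ne_zero

lemma cont_vyy : Continuous (Function.uncurry vyy) := by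
  have h1 := cont_vy
  unfold vyy Function.uncurry
  unfold Function.uncurry at h1
  refine Continuous.add ?_ ?_
  · exact Continuous.div h1.neg (continuous_im.comp continuous_fst)
      fun p => p.1.im_ne_zero
  · exact Continuous.div (continuous_vv.add continuous_const)
      ((continuous_im.comp continuous_fst).pow 2) fun p => pow_ne_zero 2 p.1.im_ne_zero

/-- smooth with compact support on the right -/
structure SGood (h : ℝ → ℝ) : Prop where
  smooth : ContDiff ℝ ∞ h
  supp : ∃ R : ℝ, ∀ v, R ≤ v → h v = 0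

lemma SGood.good {h : ℝ → ℝ} (hh : SGood h) : Good h := ⟨hh.smooth.continuous, hh.supp⟩

lemma SGood.deriv {h : ℝ → ℝ} (hh : SGood h) : SGood (deriv h) := by
  refine ⟨?_, ?_⟩
  · have := hh.smooth
    exact (contDiff_infty_iff_deriv.1 this).2
  · obtain ⟨R, hR⟩ := hh.supp
    refine ⟨R + 1, fun v hv => ?_⟩
    have : h =ᶠ[𝓝 v] fun _ => 0 := by
      filter_upwards [lt_mem_nhds (show R < v by linarith)] with u hu
      exact hR u hu.le
    rw [this.deriv_eq]; simp

/-- the radial part of the Laplacian: `y² (∂_x² + ∂_y²) h(vv z w) = (D2 h) (vv z w)` -/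
noncomputable def D2 (h : ℝ → ℝ) (v : ℝ) : ℝ :=
  v * (v + 2) * deriv (deriv h) v + 2 * (v + 1) * deriv h v

lemma SGood.D2 {h : ℝ → ℝ} (hh : SGood h) : SGood (D2 h) := by
  refine ⟨?_, ?_⟩
  · unfold N819.D2
    have h1 := hh.deriv.smooth
    have h2 := hh.deriv.deriv.smooth
    fun_prop
  · obtain ⟨R, hR⟩ := hh.deriv.supp
    obtain ⟨R', hR'⟩ := hh.deriv.deriv.supp
    refine ⟨max R R', fun v hv => ?_⟩
    unfold N819.D2
    rw [hR v ((le_max_left _ _).trans hv), hR' v ((le_max_right _ _).trans hv)]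
    ring

section kernels

variable {h : ℝ → ℝ}

lemma ker0 (hh : SGood h) : Ker (fun z w => h (vv z w)) :=
  ⟨hh.smooth.continuous.comp continuous_vv, by
    obtain ⟨R, hR⟩ := hh.supp
    exact ⟨R, fun z w hv => hR _ hv⟩⟩

lemma Ker.mul_right {Φ Ψ : ℍ → ℍ → ℝ} (hΦ : Ker Φ) (hΨ : Continuous (Function.uncurry Ψ)) :
    Ker (fun z w => Φ z w * Ψ z w) :=
  ⟨hΦ.cont.mul hΨ, by
    obtain ⟨R, hR⟩ := hΦ.supp
    exact ⟨R, fun z w hv => by simp [hR z w hv]⟩⟩

lemma Ker.add {Φ Ψ : ℍ → ℍ → ℝ} (hΦ : Ker Φ) (hΨ : Ker Ψ) :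
    Ker (fun z w => Φ z w + Ψ z w) :=
  ⟨hΦ.cont.add hΨ.cont, by
    obtain ⟨R, hR⟩ := hΦ.supp
    obtain ⟨R', hR'⟩ := hΨ.supp
    exact ⟨max R R', fun z w hv => by
      simp [hR z w ((le_max_left _ _).trans hv), hR' z w ((le_max_right _ _).trans hv)]⟩⟩

noncomputable def kx (h : ℝ → ℝ) (z w : ℍ) : ℝ := deriv h (vv z w) * vx z w
noncomputable def kxx (h : ℝ → ℝ) (z w : ℍ) : ℝ :=
  deriv (deriv h) (vv z w) * vx z w * vx z w + deriv h (vv z w) * vxx z w
noncomputable def ky (h : ℝ → ℝ) (z w : ℍ) : ℝ := deriv h (vv z w) * vy z w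
noncomputable def kyy (h : ℝ → ℝ) (z w : ℍ) : ℝ :=
  deriv (deriv h) (vv z w) * vy z w * vy z w + deriv h (vv z w) * vyy z w

lemma ker_kx (hh : SGood h) : Ker (kx h) := (ker0 hh.deriv).mul_right cont_vx
lemma ker_ky (hh : SGood h) : Ker (ky h) := (ker0 hh.deriv).mul_right cont_vy
lemma ker_kxx (hh : SGood h) : Ker (kxx h) :=
  (((ker0 hh.deriv.deriv).mul_right cont_vx).mul_right cont_vx).add
    ((ker0 hh.deriv).mul_right cont_vxx)
lemma ker_kyy (hh : SGood h) : Ker (kyy h) :=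
  (((ker0 hh.deriv.deriv).mul_right cont_vy).mul_right cont_vy).add
    ((ker0 hh.deriv).mul_right cont_vyy)

lemma d_comp (hh : SGood h) {e : ℂ} {z w : ℍ} {d : ℝ}
    (hd : HasDerivAt (fun t : ℝ => vv (mv e z t) w) d 0) :
    HasDerivAt (fun t : ℝ => h (vv (mv e z t) w)) (deriv h (vv z w) * d) 0 := by
  have h1 : HasDerivAt h (deriv h (vv z w)) (vv (mv e z 0) w) := by
    rw [mv_zero]
    exact (hh.smooth.differentiable (by simp)).differentiableAt.hasDerivAt
  exact HasDerivAt.comp (x := (0 : ℝ)) (h := fun t : ℝ => vv (mv e z t) w) h1 hd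

lemma d_k0_one (hh : SGood h) (z w : ℍ) :
    HasDerivAt (fun t : ℝ => h (vv (mv 1 z t) w)) (kx h z w) 0 := d_comp hh (d_vv_one z w)

lemma d_k0_I (hh : SGood h) (z w : ℍ) :
    HasDerivAt (fun t : ℝ => h (vv (mv Complex.I z t) w)) (ky h z w) 0 := d_comp hh (d_vv_I z w)

lemma d_kx_one (hh : SGood h) (z w : ℍ) :
    HasDerivAt (fun t : ℝ => kx h (mv 1 z t) w) (kxx h z w) 0 := by
  have h1 := (d_comp hh.deriv (d_vv_one z w)).mul (d_vx_one z w)
  simp only [mv_zero] at h1
  exact h1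

lemma d_ky_I (hh : SGood h) (z w : ℍ) :
    HasDerivAt (fun t : ℝ => ky h (mv Complex.I z t) w) (kyy h z w) 0 := by
  have h1 := (d_comp hh.deriv (d_vv_I z w)).mul (d_vy_I z w)
  simp only [mv_zero] at h1
  exact h1

lemma lap_kernel (h : ℝ → ℝ) (z w : ℍ) :
    z.im ^ 2 * (kxx h z w + kyy h z w) = D2 h (vv z w) := by
  have h4 := z.im_ne_zero
  have h5 := w.im_ne_zero
  have e1 : z.im ^ 2 * (vx z w ^ 2 + vy z w ^ 2) = vv z w * (vv z w + 2) := by
    unfold vx vy
    rw [vv_eq]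
    field_simp
    ring
  have e2 : z.im ^ 2 * (vxx z w + vyy z w) = 2 * (vv z w + 1) := by
    unfold vxx vyy vy
    rw [vv_eq]
    field_simp
    ring
  unfold kxx kyy D2
  linear_combination (deriv (deriv h) (vv z w)) * e1 + (deriv h (vv z w)) * e2

end kernels

/-- first and second derivatives in the two directions -/
theorem IntK_derivs {h : ℝ → ℝ} (hh : SGood h) {f : ℍ → ℂ} (hf : BM f) (z : ℍ) :
    HasDerivAt (fun t : ℝ => Lop h f (mv 1 z t)) (IntK (kx h) f z) 0 ∧
    HasDerivAt (fun t : ℝ => IntK (kx h) f (mv 1 z t)) (IntK (kxx h) f z) 0 ∧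
    HasDerivAt (fun t : ℝ => Lop h f (mv Complex.I z t)) (IntK (ky h) f z) 0 ∧
    HasDerivAt (fun t : ℝ => IntK (ky h) f (mv Complex.I z t)) (IntK (kyy h) f z) 0 :=
  ⟨hasDerivAt_IntK (ker0 hh) (ker_kx hh) hf 1 (d_k0_one hh) z,
    hasDerivAt_IntK (ker_kx hh) (ker_kxx hh) hf 1 (d_kx_one hh) z,
    hasDerivAt_IntK (ker0 hh) (ker_ky hh) hf Complex.I (d_k0_I hh) z,
    hasDerivAt_IntK (ker_ky hh) (ker_kyy hh) hf Complex.I (d_ky_I hh) z⟩

theorem lap_IntK {h : ℝ → ℝ} (hh : SGood h) {f : ℍ → ℂ} (hf : BM f) (z : ℍ) :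
    (z.im : ℂ) ^ 2 * (IntK (kxx h) f z + IntK (kyy h) f z) = Lop (D2 h) f z := by
  unfold IntK Lop
  rw [← integral_add ((ker_kxx hh).integrable_mul hf z) ((ker_kyy hh).integrable_mul hf z),
    ← integral_const_mul]
  congr 1
  funext w
  rw [← lap_kernel h z w]
  push_cast
  ring

end Pool.Agent.N819
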