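import Pool.Agent.N819.Basic

/-!
# Integral operators with point-pair invariant kernels on the upper half plane
-/

set_option autoImplicit false

open UpperHalfPlane MeasureTheory

namespace Pool.Agent.N819

/-- continuous, zero beyond some point -/
structure Good (h : ℝ → ℝ) : Prop where
  cont : Continuous h
  supp : ∃ R : ℝ, ∀ v, R ≤ v → h v = 0

/-- bounded and measurable -/
def BM (f : ℍ → ℂ) : Prop := Measurable f ∧ ∃ M : ℝ, ∀ z, ‖f z‖ ≤ M

/-- the operator with kernel `h (vv z w)` -/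
noncomputable def Lop (h : ℝ → ℝ) (f : ℍ → ℂ) (z : ℍ) : ℂ :=
  ∫ w : ℍ, (h (vv z w) : ℂ) * f w

lemma continuous_vv : Continuous (fun p : ℍ × ℍ => vv p.1 p.2) := by
  have : (fun p : ℍ × ℍ => vv p.1 p.2) = fun p => Real.cosh (dist p.1 p.2) - 1 := by
    funext p; exact vv_eq_cosh _ _
  rw [this]
  fun_prop

lemma continuous_vv_right (z : ℍ) : Continuous (vv z) :=
  continuous_vv.comp (Continuous.prodMk_right z)

lemma continuous_vv_left (w : ℍ) : Continuous (fun z => vv z w) :=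
  continuous_vv.comp (Continuous.prodMk_left w)

lemma dist_le_of_vv_le {z w : ℍ} {R : ℝ} (h : vv z w ≤ R) : dist z w ≤ R + 1 := by
  rw [vv_eq_cosh] at h
  have h3 : 0 ≤ dist z w := dist_nonneg
  -- cosh d ≥ 1 + d²/4
  have h4 : 1 + dist z w + dist z w ^ 2 / 2 ≤ Real.exp (dist z w) :=
    Real.quadratic_le_exp_of_nonneg h3
  have h5 := Real.add_one_le_exp (-dist z w)
  rw [Real.cosh_eq] at h
  nlinarith [sq_nonneg (dist z w / 2 - 1)]

lemma Good.hasCompactSupport {h : ℝ → ℝ} (hh : Good h) (z : ℍ) :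
    HasCompactSupport (fun w => h (vv z w)) := by
  obtain ⟨R, hR⟩ := hh.supp
  refine HasCompactSupport.intro (K := Metric.closedBall z (R + 1))
    (isCompact_closedBall z (R + 1)) fun w hw => ?_
  apply hR
  by_contra hlt
  push Not at hlt
  exact hw (Metric.mem_closedBall'.2 (dist_le_of_vv_le hlt.le))

lemma Good.integrable_real {h : ℝ → ℝ} (hh : Good h) (z : ℍ) :
    Integrable (fun w : ℍ => h (vv z w)) :=
  (hh.cont.comp (continuous_vv_right z)).integrable_of_hasCompactSupport (hh.hasCompactSupport z)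

lemma Good.integrable {h : ℝ → ℝ} (hh : Good h) (z : ℍ) :
    Integrable (fun w : ℍ => (h (vv z w) : ℂ)) := (hh.integrable_real z).ofReal

lemma Good.abs {h : ℝ → ℝ} (hh : Good h) : Good fun v => |h v| :=
  ⟨hh.cont.abs, by obtain ⟨R, hR⟩ := hh.supp; exact ⟨R, fun v hv => by simp [hR v hv]⟩⟩

lemma Good.integrable_mul {h : ℝ → ℝ} (hh : Good h) {f : ℍ → ℂ} (hf : BM f) (z : ℍ) :
    Integrable (fun w : ℍ => (h (vv z w) : ℂ) * f w) := by
  obtain ⟨M, hM⟩ := hf.2
  exact (hh.integrable z).mul_bdd (c := M) hf.1.aestronglyMeasurable (Filter.Eventually.of_forall hM)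

lemma integral_ker_indep {h : ℝ → ℝ} (z z' : ℍ) :
    ∫ w : ℍ, h (vv z w) = ∫ w : ℍ, h (vv z' w) := by
  obtain ⟨g, hg⟩ := MulAction.exists_smul_eq (GL (Fin 2) ℝ) z z'
  rw [← integral_smul_eq_self (μ := (volume : Measure ℍ)) (fun w => h (vv z' w)) (g := g)]
  congr 1
  funext w
  rw [← hg, vv_smul]

lemma Lop_norm_le {h : ℝ → ℝ} (hh : Good h) {f : ℍ → ℂ} {M : ℝ}
    (hM : ∀ z, ‖f z‖ ≤ M) (z : ℍ) : ‖Lop h f z‖ ≤ (∫ w : ℍ, |h (vv I w)|) * M := by
  unfold Lop
  refine (norm_integral_le_integral_norm _).trans ?_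
  rw [integral_ker_indep (h := fun v => |h v|) I z, ← integral_mul_const]
  refine integral_mono_of_nonneg (Filter.Eventually.of_forall fun w => norm_nonneg _)
    ((hh.abs.integrable_real z).mul_const M) (Filter.Eventually.of_forall fun w => ?_)
  simp only [norm_mul, Complex.norm_real, Real.norm_eq_abs]
  exact mul_le_mul_of_nonneg_left (hM w) (abs_nonneg _)

lemma Lop_measurable {h : ℝ → ℝ} (hh : Good h) {f : ℍ → ℂ} (hf : Measurable f) :
    Measurable (Lop h f) := by
  have h1 : StronglyMeasurable (Function.uncurry fun z w : ℍ => (h (vv z w) : ℂ) * f w) := by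
    apply Measurable.stronglyMeasurable
    have h2 : Measurable (fun p : ℍ × ℍ => (h (vv p.1 p.2) : ℂ)) :=
      (Complex.continuous_ofReal.comp (hh.cont.comp continuous_vv)).measurable
    exact h2.mul (hf.comp measurable_snd)
  exact h1.integral_prod_right.measurable

lemma Lop_bm {h : ℝ → ℝ} (hh : Good h) {f : ℍ → ℂ} (hf : BM f) : BM (Lop h f) := by
  obtain ⟨M, hM⟩ := hf.2
  exact ⟨Lop_measurable hh hf.1, _, Lop_norm_le hh hM⟩

lemma BM.comp_smul {f : ℍ → ℂ} (hf : BM f) (g : GL (Fin 2) ℝ) : BM (fun z => f (g • z)) := by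
  obtain ⟨M, hM⟩ := hf.2
  exact ⟨hf.1.comp (measurable_const_smul g), M, fun z => hM _⟩

lemma Lop_comp_smul (h : ℝ → ℝ) (f : ℍ → ℂ) (g : GL (Fin 2) ℝ) (z : ℍ) :
    Lop h (fun w => f (g • w)) z = Lop h f (g • z) := by
  unfold Lop
  rw [← integral_smul_eq_self (μ := (volume : Measure ℍ))
    (fun w => (h (vv (g • z) w) : ℂ) * f w) (g := g)]
  congr 1
  funext w
  rw [vv_smul]

/-- the kernel of the product of two operators -/
noncomputable def conv (h₁ h₂ : ℝ → ℝ) (z v : ℍ) : ℝ := ∫ w : ℍ, h₁ (vv z w) * h₂ (vv w v)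

lemma conv_comm (h₁ h₂ : ℝ → ℝ) (z v : ℍ) : conv h₁ h₂ z v = conv h₂ h₁ z v := by
  unfold conv
  obtain ⟨g, hg1, hg2⟩ := exists_swap z v
  rw [← integral_smul_eq_self (μ := (volume : Measure ℍ))
    (fun w => h₁ (vv z w) * h₂ (vv w v)) (g := g)]
  congr 1
  funext w
  have e1 : vv z (g • w) = vv w v := by
    rw [← hg2, vv_smul, vv_comm]
  have e2 : vv (g • w) v = vv z w := by
    rw [← hg1, vv_smul, vv_comm]
  rw [e1, e2]
  ring

lemma Lop_Lop {h₁ h₂ : ℝ → ℝ} (hh₁ : Good h₁) (hh₂ : Good h₂) {f : ℍ → ℂ} (hf : BM f) (z : ℍ) :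
    Lop h₁ (Lop h₂ f) z = ∫ v : ℍ, (conv h₁ h₂ z v : ℂ) * f v := by
  obtain ⟨M, hM⟩ := hf.2
  have hM0 : 0 ≤ M := (norm_nonneg _).trans (hM I)
  unfold Lop
  have hmeas : AEStronglyMeasurable (Function.uncurry fun w v : ℍ =>
      (h₁ (vv z w) : ℂ) * ((h₂ (vv w v) : ℂ) * f v)) (volume.prod volume) := by
    apply Measurable.aestronglyMeasurable
    have m1 : Measurable (fun p : ℍ × ℍ => (h₁ (vv z p.1) : ℂ)) :=
      ((Complex.continuous_ofReal.comp (hh₁.cont.comp (continuous_vv_right z))).measurable).comp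
        measurable_fst
    have m2 : Measurable (fun p : ℍ × ℍ => (h₂ (vv p.1 p.2) : ℂ)) :=
      (Complex.continuous_ofReal.comp (hh₂.cont.comp continuous_vv)).measurable
    exact m1.mul (m2.mul (hf.1.comp measurable_snd))
  have hint : Integrable (Function.uncurry fun w v : ℍ =>
      (h₁ (vv z w) : ℂ) * ((h₂ (vv w v) : ℂ) * f v)) (volume.prod volume) := by
    rw [integrable_prod_iff hmeas]
    constructor
    · refine Filter.Eventually.of_forall fun w => ?_
      have h0 : Integrable (fun v : ℍ => (h₁ (vv z w) : ℂ) * ((h₂ (vv w v) : ℂ) * f v)) :=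
        (hh₂.integrable_mul hf w).const_mul (h₁ (vv z w) : ℂ)
      simpa only [Function.uncurry] using h0
    · have hb : Integrable (fun w : ℍ => |h₁ (vv z w)| * ((∫ v : ℍ, |h₂ (vv I v)|) * M)) :=
        (hh₁.abs.integrable_real z).mul_const _
      refine hb.mono' hmeas.norm.integral_prod_right' (Filter.Eventually.of_forall fun w => ?_)
      simp only [Function.uncurry]
      rw [Real.norm_of_nonneg (integral_nonneg fun v => norm_nonneg _)]
      simp only [norm_mul, Complex.norm_real, Real.norm_eq_abs]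
      rw [integral_const_mul]
      refine mul_le_mul_of_nonneg_left ?_ (abs_nonneg _)
      rw [integral_ker_indep (h := fun v => |h₂ v|) I w, ← integral_mul_const]
      refine integral_mono_of_nonneg (Filter.Eventually.of_forall fun w => by positivity)
        ((hh₂.abs.integrable_real w).mul_const M) (Filter.Eventually.of_forall fun v => ?_)
      exact mul_le_mul_of_nonneg_left (hM v) (abs_nonneg _)
  have e1 : ∀ w : ℍ, (h₁ (vv z w) : ℂ) * ∫ v : ℍ, (h₂ (vv w v) : ℂ) * f v =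
      ∫ v : ℍ, (h₁ (vv z w) : ℂ) * ((h₂ (vv w v) : ℂ) * f v) := fun w => by
    rw [integral_const_mul]
  simp_rw [e1]
  rw [integral_integral_swap hint]
  congr 1
  funext v
  unfold conv
  rw [← integral_complex_ofReal, ← integral_mul_const]
  congr 1
  funext w
  push_cast
  ring

theorem Lop_comm {h₁ h₂ : ℝ → ℝ} (hh₁ : Good h₁) (hh₂ : Good h₂) {f : ℍ → ℂ} (hf : BM f) :
    Lop h₁ (Lop h₂ f) = Lop h₂ (Lop h₁ f) := by
  funext z
  rw [Lop_Lop hh₁ hh₂ hf, Lop_Lop hh₂ hh₁ hf]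
  simp_rw [conv_comm h₁ h₂]

end Pool.Agent.N819
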