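import Pool.Agent.N819.Exist2

/-!
# Existence of an odd Hecke-Maass form of level one
-/

set_option autoImplicit false

open UpperHalfPlane MeasureTheory Filter Topology MatrixGroups
open scoped Modular ENNReal ContDiff

namespace Pool.Agent.N819

open Pool.Agent.N849.Hecke (Eqv heckeOp)

lemma hasDerivAt_shift {G : ℝ → ℂ} {G' : ℂ} {t : ℝ} (h : HasDerivAt (fun s => G (t + s)) G' 0) :
    HasDerivAt G G' t := by
  have h1 : HasDerivAt (fun u : ℝ => u - t) 1 t := (hasDerivAt_id t).sub_const t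
  have h2 : HasDerivAt (fun s => G (t + s)) G' (t - t) := by rw [sub_self]; exact h
  have h3 := HasDerivAt.scomp (x := t) (h := fun u : ℝ => u - t) h2 h1
  rw [one_smul] at h3
  refine h3.congr_of_eventuallyEq (Eventually.of_forall fun u => ?_)
  simp only [Function.comp]
  congr 1
  ring

lemma mv_one_ofComplex {x y : ℝ} (hy : 0 < y) (s : ℝ) :
    mv 1 (ofComplex (x + y * Complex.I)) s = ofComplex ((x + s : ℝ) + y * Complex.I) := by
  unfold mv
  rw [ofComplex_apply_of_im_pos (z := (x : ℂ) + y * Complex.I) (by simpa using hy)]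
  congr 1
  push_cast
  ring

lemma mv_I_ofComplex {x y : ℝ} (hy : 0 < y) (s : ℝ) :
    mv Complex.I (ofComplex (x + y * Complex.I)) s = ofComplex (x + (y + s : ℝ) * Complex.I) := by
  unfold mv
  rw [ofComplex_apply_of_im_pos (z := (x : ℂ) + y * Complex.I) (by simpa using hy)]
  congr 1
  push_cast
  ring

theorem lap_Lop {h : ℝ → ℝ} (hh : SGood h) {f : ℍ → ℂ} (hf : BM f) {x y : ℝ} (hy : 0 < y) :
    (y : ℂ) ^ 2 * (deriv (deriv (fun t : ℝ => Lop h f (ofComplex (t + y * Complex.I)))) x +
        deriv (deriv (fun t : ℝ => Lop h f (ofComplex (x + t * Complex.I)))) y) =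
      Lop (D2 h) f (ofComplex (x + y * Complex.I)) := by
  -- x direction
  have dx : ∀ t : ℝ, HasDerivAt (fun t : ℝ => Lop h f (ofComplex (t + y * Complex.I)))
      (IntK (kx h) f (ofComplex (t + y * Complex.I))) t := by
    intro t
    apply hasDerivAt_shift
    have := (IntK_derivs hh hf (ofComplex (t + y * Complex.I))).1
    simp_rw [mv_one_ofComplex hy] at this
    exact this
  have dxx : HasDerivAt (fun t : ℝ => IntK (kx h) f (ofComplex (t + y * Complex.I)))
      (IntK (kxx h) f (ofComplex (x + y * Complex.I))) x := by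
    apply hasDerivAt_shift
    have := (IntK_derivs hh hf (ofComplex (x + y * Complex.I))).2.1
    simp_rw [mv_one_ofComplex hy] at this
    exact this
  -- y direction
  have dy : ∀ t : ℝ, 0 < t → HasDerivAt (fun t : ℝ => Lop h f (ofComplex (x + t * Complex.I)))
      (IntK (ky h) f (ofComplex (x + t * Complex.I))) t := by
    intro t ht
    apply hasDerivAt_shift
    have := (IntK_derivs hh hf (ofComplex (x + t * Complex.I))).2.2.1
    simp_rw [mv_I_ofComplex ht] at this
    exact this
  have dyy : HasDerivAt (fun t : ℝ => IntK (ky h) f (ofComplex (x + t * Complex.I)))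
      (IntK (kyy h) f (ofComplex (x + y * Complex.I))) y := by
    apply hasDerivAt_shift
    have := (IntK_derivs hh hf (ofComplex (x + y * Complex.I))).2.2.2
    simp_rw [mv_I_ofComplex hy] at this
    exact this
  have e1 : deriv (fun t : ℝ => Lop h f (ofComplex (t + y * Complex.I))) =
      fun t : ℝ => IntK (kx h) f (ofComplex (t + y * Complex.I)) := by
    funext t
    exact (dx t).deriv
  have e2 : deriv (fun t : ℝ => Lop h f (ofComplex (x + t * Complex.I))) =ᶠ[𝓝 y]
      fun t : ℝ => IntK (ky h) f (ofComplex (x + t * Complex.I)) := by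
    filter_upwards [lt_mem_nhds hy] with t ht
    exact (dy t ht).deriv
  rw [e1, dxx.deriv, e2.deriv_eq, dyy.deriv]
  have := lap_IntK hh hf (ofComplex (x + y * Complex.I))
  have him : (ofComplex (x + y * Complex.I)).im = y := by
    rw [ofComplex_apply_of_im_pos (z := (x : ℂ) + y * Complex.I) (by simpa using hy)]
    simp
  rw [him] at this
  exact this

/-- there is a nonzero bounded smooth odd eigenfunction of the Laplacian and of all Hecke operators
on the modular surface -/
theorem exists_maass : ∃ (φ : ℍ → ℂ) (M : ℝ) (ν : ℂ), φ ≠ 0 ∧ Eqv φ ∧ (∀ z, ‖φ z‖ ≤ M) ∧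
    ContDiffOn ℝ ∞ (fun ζ : ℂ => φ (ofComplex ζ)) {ζ | 0 < ζ.im} ∧
    (∀ x y : ℝ, 0 < y →
      (y : ℂ) ^ 2 * (deriv (deriv (fun t : ℝ => φ (ofComplex (t + y * Complex.I)))) x +
        deriv (deriv (fun t : ℝ => φ (ofComplex (x + t * Complex.I)))) y) =
      -(1 / 4 - ν ^ 2) * φ (ofComplex (x + y * Complex.I))) ∧
    ∀ (p : ℕ) (hp : p.Prime), ∃ c : ℂ, ∀ z, heckeOp p hp.ne_zero φ z = c * φ z := by
  obtain ⟨h, κ, hh, hκ, φ, hφ, hφ0, ⟨c, hc⟩, hT⟩ := exists_VP
  obtain ⟨M, hM⟩ := hφ.bm.2
  obtain ⟨ν, hν⟩ : ∃ ν : ℂ, ν ^ 2 = c / κ + 1 / 4 :=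
    IsAlgClosed.exists_pow_nat_eq (c / κ + 1 / 4) (n := 2) (by norm_num)
  have hφ' : ∀ z, φ z = κ⁻¹ * Lop h φ z := fun z => by
    rw [hφ.eig]
    field_simp
  refine ⟨φ, M, ν, hφ0, hφ.eqv, hM, ?_, ?_, hT⟩
  · have h1 := contDiffOn_Lop hh hφ.bm
    have h2 : ContDiffOn ℝ ∞ (fun ζ : ℂ => κ⁻¹ * Lop h φ (ofComplex ζ)) {ζ : ℂ | 0 < ζ.im} :=
      contDiffOn_const.mul h1
    exact h2.congr fun ζ _ => hφ' _
  · intro x y hy
    have key := lap_Lop hh hφ.bm (x := x) hy
    have e1 : (fun t : ℝ => φ (ofComplex (t + y * Complex.I))) =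
        fun t : ℝ => κ⁻¹ * Lop h φ (ofComplex (t + y * Complex.I)) := by
      funext t; exact hφ' _
    have e2 : (fun t : ℝ => φ (ofComplex (x + t * Complex.I))) =
        fun t : ℝ => κ⁻¹ * Lop h φ (ofComplex (x + t * Complex.I)) := by
      funext t; exact hφ' _
    rw [e1, e2]
    have d1 : deriv (deriv (fun t : ℝ => κ⁻¹ * Lop h φ (ofComplex (t + y * Complex.I)))) x =
        κ⁻¹ * deriv (deriv (fun t : ℝ => Lop h φ (ofComplex (t + y * Complex.I)))) x := by
      have : deriv (fun t : ℝ => κ⁻¹ * Lop h φ (ofComplex (t + y * Complex.I))) =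
          fun t => κ⁻¹ * deriv (fun t : ℝ => Lop h φ (ofComplex (t + y * Complex.I))) t := by
        funext t
        exact deriv_const_mul_field _
      rw [this]
      exact deriv_const_mul_field _
    have d2 : deriv (deriv (fun t : ℝ => κ⁻¹ * Lop h φ (ofComplex (x + t * Complex.I)))) y =
        κ⁻¹ * deriv (deriv (fun t : ℝ => Lop h φ (ofComplex (x + t * Complex.I)))) y := by
      have : deriv (fun t : ℝ => κ⁻¹ * Lop h φ (ofComplex (x + t * Complex.I))) =
          fun t => κ⁻¹ * deriv (fun t : ℝ => Lop h φ (ofComplex (x + t * Complex.I))) t := by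
        funext t
        exact deriv_const_mul_field _
      rw [this]
      exact deriv_const_mul_field _
    rw [d1, d2, hν]
    rw [hc] at key
    linear_combination κ⁻¹ * key

end Pool.Agent.N819
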