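import Pool.Agent.N819.Defs
import Pool.Agent.N819.Maass
import Pool.Agent.N819.Four5
import Pool.Agent.N855.TwistD
import Pool.Agent.N692.Euler

/-!
# Quadratic twists of odd Hecke–Maass forms of level one
-/

set_option autoImplicit false

open UpperHalfPlane MatrixGroups Filter Topology
open scoped ContDiff

namespace Pool.Agent.N819

open Pool.Agent.N849.Bessel (W)
open Pool.Agent.N849.Hecke (heckeOp heckeOp_eq Eqv)

lemma HeckeMaassForm.Odd.J_smul {π : HeckeMaassForm} (h : π.Odd) (z : ℍ) :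
    π.φ (UpperHalfPlane.J • z) = - π.φ z := by
  rw [UpperHalfPlane.J_smul]
  exact h z

/-- the twisted `L`-functions of an odd form are entire and vanish at the centre -/
theorem exists_twistedL (π : HeckeMaassForm) (hodd : π.Odd) {q : ℕ} [NeZero q]
    (χ : DirichletCharacter ℂ q) (hprim : χ.IsPrimitive) (hquad : χ ^ 2 = 1) :
    ∃ L : ℂ → ℂ, IsTwistedL π χ L ∧ L (1 / 2) = 0 := by
  obtain ⟨ν, hν⟩ : ∃ ν : ℂ, ν ^ 2 = 1 / 4 - π.μ :=
    IsAlgClosed.exists_pow_nat_eq (1 / 4 - π.μ) (n := 2) (by norm_num)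
  obtain ⟨M, hM⟩ := π.bounded
  have hper := Pool.Agent.N849.Hecke.periodic_of_inv π.invariant
  obtain ⟨C, hC0, ⟨B, hB⟩, hexp, hhecke⟩ := Four.fourier π.φ M hM hper hodd.J_smul π.smooth ν
    (fun x y hy => by
      have := π.laplace x y hy
      rw [hν]
      linear_combination -this)
  have hheck : ∀ p : ℕ, p.Prime → ∀ n : ℕ, 1 ≤ n →
      (Real.sqrt p : ℂ) * π.lam p * C n = p * C (p * n) + if p ∣ n then C (n / p) else 0 := by
    intro p hp n hn
    refine hhecke p hp _ (fun z => ?_) n hn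
    rw [heckeOp_eq]
    exact π.hecke p hp z
  have hC1 : C 1 ≠ 0 := by
    intro h1
    have hC := Pool.Agent.N692.Euler.C_zero (fun p => (Real.sqrt p : ℂ) * π.lam p) C hC0 hheck h1
    apply π.ne_zero
    funext z
    have h2 := hexp z.re z.im z.im_pos
    have h3 : (fun n : ℕ => C n * W ν (n * z.im) *
        (2 * Complex.I * Real.sin (2 * Real.pi * n * z.re))) = fun _ => 0 := by
      funext n
      rw [hC n]
      ring
    rw [h3] at h2
    have h4 := h2.unique hasSum_zero
    have h5 : ((z.re : ℂ) + z.im * Complex.I) = z := Complex.re_add_im _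
    rw [h5, ofComplex_apply] at h4
    exact h4
  obtain ⟨F, hF, hsum, hhalf⟩ := Pool.Agent.N855.Twist.twist π.φ π.invariant hodd.J_smul π.smooth ν C B
    hB hC0 hexp q χ hprim hquad
  refine ⟨fun s => F s / C 1, ⟨hF.div_const _, fun s hs => ?_⟩, by simp only [hhalf, zero_div]⟩
  exact Pool.Agent.N692.Euler.euler π.lam C B hB hC0 hheck q χ s hs (F s) (hsum s hs) hC1

/-- uniqueness of the `L`-function -/
theorem IsTwistedL.unique {π : HeckeMaassForm} {q : ℕ} {χ : DirichletCharacter ℂ q} {L L' : ℂ → ℂ}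
    (h : IsTwistedL π χ L) (h' : IsTwistedL π χ L') : L = L' := by
  have h1 : AnalyticOnNhd ℂ L Set.univ := fun z _ => h.1.analyticAt z
  have h2 : AnalyticOnNhd ℂ L' Set.univ := fun z _ => h'.1.analyticAt z
  refine h1.eq_of_eventuallyEq (z₀ := 2) h2 ?_
  have ho : IsOpen {s : ℂ | 3 / 2 < s.re} := isOpen_lt continuous_const Complex.continuous_re
  filter_upwards [ho.mem_nhds (show (2 : ℂ) ∈ {s : ℂ | 3 / 2 < s.re} by
    simp only [Set.mem_ofPred_eq]; norm_num)] with s hs
  exact (h.2 s hs).unique (h'.2 s hs)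

/-- all the central values of twists of an odd form vanish -/
theorem twistedL_half (π : HeckeMaassForm) (hodd : π.Odd) {q : ℕ} [NeZero q]
    (χ : DirichletCharacter ℂ q) (hprim : χ.IsPrimitive) (hquad : χ ^ 2 = 1) {L : ℂ → ℂ}
    (hL : IsTwistedL π χ L) : L (1 / 2) = 0 := by
  obtain ⟨L', hL', h0⟩ := exists_twistedL π hodd χ hprim hquad
  rw [hL.unique hL', h0]

/-- odd Hecke–Maass forms of level one exist -/
theorem exists_odd : ∃ π : HeckeMaassForm, π.Odd := by
  obtain ⟨φ, M, ν, hφ0, hφ, hM, hsm, hlap, hT⟩ := exists_maass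
  have hper := Pool.Agent.N849.Hecke.periodic_of_inv hφ.inv
  have hG := Four.GG_toG φ M hM hper hφ.odd hsm ν hlap
  choose c hc using hT
  classical
  refine ⟨⟨φ, 1 / 4 - ν ^ 2, fun p => if hp : p.Prime then c p hp / Real.sqrt p else 0, hφ0, hsm,
    hφ.inv, ⟨M, hM⟩, ?_, ?_, ?_⟩, ?_⟩
  · intro y hy
    have := hG.co_zero hy
    unfold Four.co at this
    rw [← this]
    congr 1
    funext x
    simp [Four.toG, Four.ee]
  · intro x y hy
    linear_combination -(hlap x y hy)
  · intro p hp z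
    have h1 := hc p hp z
    rw [heckeOp_eq] at h1
    rw [dif_pos hp]
    have hs : (Real.sqrt p : ℂ) ≠ 0 := by
      rw [Complex.ofReal_ne_zero]
      exact (Real.sqrt_pos.2 (by exact_mod_cast hp.pos)).ne'
    rw [mul_div_cancel₀ _ hs]
    exact h1
  · intro z
    have := hφ.odd z
    rw [UpperHalfPlane.J_smul] at this
    exact this

end Pool.Agent.N819
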