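import Pool.Agent.N819.Unfold2
import Pool.Agent.N819.CInf

/-!
# The bump function, and the kernel is not zero
-/

set_option autoImplicit false

open UpperHalfPlane MeasureTheory Filter Topology MatrixGroups
open Matrix.SpecialLinearGroup (mapGL)
open scoped Modular ENNReal ContDiff

namespace Pool.Agent.N819

/-- a smooth nonincreasing function which is one at `0` and zero beyond `ε` -/
noncomputable def bump (ε : ℝ) (v : ℝ) : ℝ := Real.smoothTransition (1 - v / ε)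

lemma bump_smooth (ε : ℝ) : ContDiff ℝ ∞ (bump ε) := by
  unfold bump
  exact Real.smoothTransition.contDiff.comp (contDiff_const.sub (contDiff_id.div_const ε))

lemma bump_nonneg (ε v : ℝ) : 0 ≤ bump ε v := Real.smoothTransition.nonneg _

lemma bump_le_one (ε v : ℝ) : bump ε v ≤ 1 := Real.smoothTransition.le_one _

lemma bump_zero {ε : ℝ} (hε : 0 < ε) (v : ℝ) (hv : ε ≤ v) : bump ε v = 0 := by
  apply Real.smoothTransition.zero_of_nonpos
  have : 1 ≤ v / ε := by rwa [le_div_iff₀ hε, one_mul]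
  linarith

lemma bump_pos {ε : ℝ} (hε : 0 < ε) {v : ℝ} (hv : v < ε) : 0 < bump ε v := by
  apply Real.smoothTransition.pos_of_pos
  have : v / ε < 1 := by rwa [div_lt_iff₀ hε, one_mul]
  linarith

lemma smoothTransition_mono : Monotone Real.smoothTransition := by
  intro x y hxy
  unfold Real.smoothTransition
  have h1 := Real.smoothTransition.pos_denom x
  have h2 := Real.smoothTransition.pos_denom y
  have m1 : expNegInvGlue x ≤ expNegInvGlue y := expNegInvGlue.monotone hxy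
  have m2 : expNegInvGlue (1 - y) ≤ expNegInvGlue (1 - x) := expNegInvGlue.monotone (by linarith)
  have n1 := expNegInvGlue.nonneg x
  have n2 := expNegInvGlue.nonneg (1 - y)
  rw [div_le_div_iff₀ h1 h2]
  nlinarith [mul_le_mul m1 m2 n2 (n1.trans m1)]

lemma bump_anti {ε : ℝ} (hε : 0 < ε) : Antitone (bump ε) := by
  intro a b hab
  apply smoothTransition_mono
  have : a / ε ≤ b / ε := by gcongr
  linarith

lemma bump_sgood {ε : ℝ} (hε : 0 < ε) : SGood (bump ε) :=
  ⟨bump_smooth ε, ε, fun v hv => bump_zero hε v hv⟩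

/-- nonempty open sets have positive measure -/
lemma volume_pos_of_isOpen {U : Set ℍ} (hU : IsOpen U) (hne : U.Nonempty) :
    0 < (volume : Measure ℍ) U := by
  rw [volume_eq_lintegral]
  have hUo : IsOpen (UpperHalfPlane.coe '' U : Set ℂ) := isOpenEmbedding_coe.isOpenMap _ hU
  have hpos : 0 < volume (UpperHalfPlane.coe '' U : Set ℂ) := hUo.measure_pos _ (hne.image _)
  rw [setLIntegral_pos_iff (by fun_prop)]
  refine lt_of_lt_of_le hpos (measure_mono ?_)
  rintro _ ⟨z, hz, rfl⟩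
  refine ⟨?_, ⟨z, hz, rfl⟩⟩
  simp only [Function.mem_support, ne_eq, ENNReal.coe_eq_zero]
  have : ‖(z : ℂ).im‖₊ ≠ 0 := by
    rw [ne_eq, nnnorm_eq_zero]
    exact z.im_ne_zero
  positivity

/-- the point `1/4 + 2i` -/
noncomputable def z₁ : ℍ := ⟨⟨1 / 4, 2⟩, by norm_num⟩

lemma z₁_re : z₁.re = 1 / 4 := rfl
lemma z₁_im : z₁.im = 2 := rfl

lemma z₁_mem : z₁ ∈ (𝒟ᵒ : Set ℍ) := by
  refine ⟨?_, ?_⟩
  · rw [Complex.normSq_apply, coe_re, coe_im, z₁_re, z₁_im]; norm_num
  · rw [z₁_re, abs_of_pos] <;> norm_num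

lemma Jz₁_mem : J • z₁ ∈ (𝒟ᵒ : Set ℍ) := by
  refine ⟨?_, ?_⟩
  · rw [Complex.normSq_apply, coe_re, coe_im, J_re, J_im, z₁_re, z₁_im]; norm_num
  · rw [J_re, abs_neg, z₁_re, abs_of_pos] <;> norm_num

lemma ne_orbit (γ : SL(2, ℤ)) : γ • (J • z₁) ≠ z₁ := by
  intro h
  have h1 : γ • (J • z₁) ∈ (𝒟ᵒ : Set ℍ) := by rw [h]; exact z₁_mem
  have h2 := ModularGroup.eq_smul_self_of_mem_fdo_mem_fdo Jz₁_mem h1
  rw [h] at h2
  have h3 := congrArg UpperHalfPlane.re h2
  rw [J_re, z₁_re] at h3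
  norm_num at h3

lemma exists_delta : ∃ δ : ℝ, 0 < δ ∧ ∀ γ : SL(2, ℤ), δ ≤ dist z₁ (γ • (J • z₁)) := by
  have hS := finite_of_compact (isCompact_singleton (x := J • z₁)) (isCompact_closedBall z₁ 1)
  set F : Set ℍ := (fun γ : SL(2, ℤ) => γ • (J • z₁)) ''
    {γ : SL(2, ℤ) | ∃ w ∈ ({J • z₁} : Set ℍ), γ • w ∈ Metric.closedBall z₁ 1} with hF
  have hFf : F.Finite := hS.image _
  have hz : z₁ ∈ Fᶜ := by
    rintro ⟨γ, -, hγ⟩
    exact ne_orbit γ hγ
  obtain ⟨δ, hδ, hsub⟩ := Metric.isOpen_iff.1 hFf.isClosed.isOpen_compl z₁ hz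
  refine ⟨min δ 1, lt_min hδ one_pos, fun γ => ?_⟩
  by_contra hlt
  push Not at hlt
  have h1 : γ • (J • z₁) ∈ Metric.ball z₁ δ := by
    rw [Metric.mem_ball']; exact hlt.trans_le (min_le_left _ _)
  have h2 : γ • (J • z₁) ∈ Metric.closedBall z₁ 1 := by
    rw [Metric.mem_closedBall']; exact (hlt.trans_le (min_le_right _ _)).le
  exact hsub h1 ⟨γ, ⟨_, rfl, h2⟩, rfl⟩

/-- for a suitable bump function the kernel is positive near `(z₁, z₁)` -/
lemma exists_good_bump : ∃ ε : ℝ, 0 < ε ∧ ∃ B : Set ℍ, IsOpen B ∧ B.Nonempty ∧ B ⊆ 𝒟 ∧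
    ∀ z ∈ B, ∀ w ∈ B, 0 < KK (bump ε) z w := by
  obtain ⟨δ, hδ, hmin⟩ := exists_delta
  have hε : 0 < Real.cosh (δ / 2) - 1 := by
    have := Real.one_lt_cosh.2 (show δ / 2 ≠ 0 by positivity)
    linarith
  refine ⟨Real.cosh (δ / 2) - 1, hε, Metric.ball z₁ (δ / 4) ∩ 𝒟ᵒ,
    Metric.isOpen_ball.inter ModularGroup.isOpen_fdo, ⟨z₁, Metric.mem_ball_self (by positivity),
      z₁_mem⟩, fun z hz => ModularGroup.fdo_subset_fd hz.2, ?_⟩
  rintro z ⟨hz, -⟩ w ⟨hw, -⟩
  rw [Metric.mem_ball] at hz hw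
  unfold KK
  have h1 : PP (bump (Real.cosh (δ / 2) - 1)) z (J • w) = 0 := by
    unfold PP
    have : ∀ γ : SL(2, ℤ), bump (Real.cosh (δ / 2) - 1) (vv z (γ • (J • w))) = 0 := by
      intro γ
      apply bump_zero hε
      rw [vv_eq_cosh]
      have h2 : δ / 2 ≤ dist z (γ • (J • w)) := by
        have h3 := hmin γ
        have h4 : dist (γ • (J • w)) (γ • (J • z₁)) = dist w z₁ := by
          rw [sl_smul_eq, sl_smul_eq, dist_smul_gl, dist_smul_gl]
        have h5 : dist z₁ (γ • (J • z₁)) ≤ dist z₁ z + dist z (γ • (J • w)) +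
            dist (γ • (J • w)) (γ • (J • z₁)) := dist_triangle4 _ _ _ _
        rw [h4, dist_comm z₁ z] at h5
        linarith
      have h6 : Real.cosh (δ / 2) ≤ Real.cosh (dist z (γ • (J • w))) := by
        rw [Real.cosh_le_cosh, abs_of_pos (by positivity), abs_of_nonneg dist_nonneg]
        exact h2
      linarith
    simp only [this, tsum_zero]
  rw [h1, sub_zero]
  have h2 : 0 < bump (Real.cosh (δ / 2) - 1) (vv z w) := by
    apply bump_pos hε
    rw [vv_eq_cosh]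
    have h3 : dist z w < δ / 2 := by
      calc dist z w ≤ dist z z₁ + dist z₁ w := dist_triangle _ _ _
        _ < δ / 4 + δ / 4 := add_lt_add hz (by rw [dist_comm]; exact hw)
        _ = δ / 2 := by ring
    have h6 : Real.cosh (dist z w) < Real.cosh (δ / 2) := by
      rw [Real.cosh_lt_cosh, abs_of_nonneg dist_nonneg, abs_of_pos (by positivity)]
      exact h3
    linarith
  refine lt_of_lt_of_le h2 ?_
  unfold PP
  have hs : Summable fun γ : SL(2, ℤ) => bump (Real.cosh (δ / 2) - 1) (vv z (γ • w)) :=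
    summable_of_hasFiniteSupport (PP_finite (bump_zero hε) z w)
  have := hs.le_tsum (1 : SL(2, ℤ)) (fun γ _ => bump_nonneg _ _)
  simpa using this

end Pool.Agent.N819
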