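import Pool.Agent.N819.Lop

/-!
# Smoothness of `Lop h f` and the Laplacian
-/

set_option autoImplicit false

open UpperHalfPlane MeasureTheory Filter Topology

namespace Pool.Agent.N819

/-- continuous kernels which are zero if `vv z w` is large -/
structure Ker (Φ : ℍ → ℍ → ℝ) : Prop where
  cont : Continuous (Function.uncurry Φ)
  supp : ∃ R : ℝ, ∀ z w, R ≤ vv z w → Φ z w = 0

/-- the operator with kernel `Φ` -/
noncomputable def IntK (Φ : ℍ → ℍ → ℝ) (f : ℍ → ℂ) (z : ℍ) : ℂ := ∫ w : ℍ, (Φ z w : ℂ) * f w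

lemma Ker.integrable_mul {Φ : ℍ → ℍ → ℝ} (hΦ : Ker Φ) {f : ℍ → ℂ} (hf : BM f) (z : ℍ) :
    Integrable (fun w : ℍ => (Φ z w : ℂ) * f w) := by
  obtain ⟨M, hM⟩ := hf.2
  obtain ⟨R, hR⟩ := hΦ.supp
  have hc : Continuous (fun w => Φ z w) := hΦ.cont.comp (Continuous.prodMk_right z)
  have hs : HasCompactSupport (fun w => Φ z w) := by
    refine HasCompactSupport.intro (K := Metric.closedBall z (R + 1))
      (isCompact_closedBall z (R + 1)) fun w hw => ?_
    apply hR
    by_contra hlt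
    push Not at hlt
    exact hw (Metric.mem_closedBall'.2 (dist_le_of_vv_le hlt.le))
  exact (hc.integrable_of_hasCompactSupport hs).ofReal.mul_bdd (c := M) hf.1.aestronglyMeasurable
    (Filter.Eventually.of_forall hM)

/-- the point `z + t e` -/
noncomputable def mv (e : ℂ) (z : ℍ) (t : ℝ) : ℍ := ofComplex ((z : ℂ) + (t : ℂ) * e)

lemma mv_zero (e : ℂ) (z : ℍ) : mv e z 0 = z := by
  simp [mv, ofComplex_apply]

lemma coe_mv {e : ℂ} {z : ℍ} {t : ℝ} (h : 0 < ((z : ℂ) + (t : ℂ) * e).im) :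
    ((mv e z t : ℍ) : ℂ) = (z : ℂ) + (t : ℂ) * e := by
  rw [mv, ofComplex_apply_of_im_pos h]

lemma mv_mv {e : ℂ} {z : ℍ} {t u : ℝ} (h : 0 < ((z : ℂ) + (t : ℂ) * e).im) :
    mv e (mv e z t) u = mv e z (t + u) := by
  unfold mv
  have := coe_mv h
  unfold mv at this
  rw [this]
  congr 1
  push_cast
  ring

lemma continuousAt_mv (e : ℂ) (z : ℍ) {t : ℝ} (h : 0 < ((z : ℂ) + (t : ℂ) * e).im) :
    ContinuousAt (mv e z) t := by
  have h1 : ContinuousAt ofComplex ((z : ℂ) + (t : ℂ) * e) :=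
    (contMDiffAt_ofComplex (n := 0) h).continuousAt
  have h2 : ContinuousAt (fun t : ℝ => (z : ℂ) + (t : ℂ) * e) t := by fun_prop
  exact ContinuousAt.comp (f := fun t : ℝ => (z : ℂ) + (t : ℂ) * e) h1 h2

lemma eventually_im_pos (e : ℂ) (z : ℍ) : ∃ δ : ℝ, 0 < δ ∧ ∀ t : ℝ, |t| ≤ δ →
    0 < ((z : ℂ) + (t : ℂ) * e).im := by
  have h2 : Continuous (fun t : ℝ => ((z : ℂ) + (t : ℂ) * e).im) := by fun_prop
  have h3 : ∀ᶠ t : ℝ in 𝓝 (0 : ℝ), 0 < ((z : ℂ) + (t : ℂ) * e).im := by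
    apply h2.continuousAt.eventually (lt_mem_nhds _)
    simpa using z.im_pos
  obtain ⟨δ, hδ, h4⟩ := Metric.eventually_nhds_iff.1 h3
  refine ⟨δ / 2, by positivity, fun t ht => h4 ?_⟩
  rw [Real.dist_eq, sub_zero]
  linarith

theorem hasDerivAt_IntK {Φ Φ' : ℍ → ℍ → ℝ} (hΦ : Ker Φ) (hΦ' : Ker Φ') {f : ℍ → ℂ} (hf : BM f)
    (e : ℂ) (hd : ∀ z w, HasDerivAt (fun t : ℝ => Φ (mv e z t) w) (Φ' z w) 0) (z : ℍ) :
    HasDerivAt (fun t : ℝ => IntK Φ f (mv e z t)) (IntK Φ' f z) 0 := by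
  obtain ⟨M, hM⟩ := hf.2
  have hM0 : 0 ≤ M := (norm_nonneg _).trans (hM I)
  obtain ⟨δ, hδ, hδ'⟩ := eventually_im_pos e z
  obtain ⟨R, hR⟩ := hΦ'.supp
  -- the points `mv e z t`, `|t| ≤ δ` form a compact set
  have hK1 : IsCompact (mv e z '' Set.Icc (-δ) δ) := by
    apply isCompact_Icc.image_of_continuousOn
    intro t ht
    exact (continuousAt_mv e z (hδ' t (abs_le.2 ht))).continuousWithinAt
  obtain ⟨r, hr⟩ := hK1.isBounded.subset_closedBall z
  set A : Set ℍ := Metric.closedBall z (r + R + 1) with hA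
  have hAc : IsCompact A := isCompact_closedBall _ _
  -- bound on the product
  obtain ⟨C, hC⟩ : ∃ C : ℝ, ∀ u ∈ mv e z '' Set.Icc (-δ) δ, ∀ w ∈ A, ‖Φ' u w‖ ≤ C := by
    obtain ⟨C, hC⟩ := (hK1.prod hAc).exists_bound_of_continuousOn hΦ'.cont.continuousOn
    exact ⟨C, fun u hu w hw => hC (u, w) ⟨hu, hw⟩⟩
  have hC0 : ∀ u ∈ mv e z '' Set.Icc (-δ) δ, ∀ w, ‖Φ' u w‖ ≤ A.indicator (fun _ => C) w := by
    intro u hu w
    by_cases hw : w ∈ A
    · rw [Set.indicator_of_mem hw]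
      exact hC u hu w hw
    · rw [Set.indicator_of_notMem hw]
      have : Φ' u w = 0 := by
        apply hR
        by_contra hlt
        push Not at hlt
        apply hw
        have h1 := dist_le_of_vv_le hlt.le
        have h2 := Metric.mem_closedBall.1 (hr hu)
        rw [hA, Metric.mem_closedBall]
        calc dist w z ≤ dist w u + dist u z := dist_triangle _ _ _
          _ ≤ (R + 1) + r := by rw [dist_comm w u]; exact add_le_add h1 h2
          _ = r + R + 1 := by ring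
      rw [this, norm_zero]
  have key := hasDerivAt_integral_of_dominated_loc_of_deriv_le (𝕜 := ℝ) (μ := (volume : Measure ℍ))
    (F := fun (t : ℝ) (w : ℍ) => (Φ (mv e z t) w : ℂ) * f w)
    (F' := fun (t : ℝ) (w : ℍ) => (Φ' (mv e z t) w : ℂ) * f w)
    (x₀ := 0) (s := Set.Ioo (-δ) δ) (bound := fun w => A.indicator (fun _ => C) w * M)
    (Ioo_mem_nhds (by linarith) hδ) ?_ ?_ ?_ ?_ ?_ ?_
  · have h2 := key.2
    simp only [mv_zero] at h2
    exact h2
  · exact Filter.Eventually.of_forall fun t => (hΦ.integrable_mul hf _).aestronglyMeasurable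
  · exact hΦ.integrable_mul hf _
  · exact (hΦ'.integrable_mul hf _).aestronglyMeasurable
  · refine Filter.Eventually.of_forall fun w t ht => ?_
    rw [norm_mul, Complex.norm_real]
    exact mul_le_mul (hC0 _ ⟨t, ⟨ht.1.le, ht.2.le⟩, rfl⟩ w) (hM w) (norm_nonneg _)
      ((norm_nonneg _).trans (hC0 _ ⟨t, ⟨ht.1.le, ht.2.le⟩, rfl⟩ w))
  · refine Integrable.mul_const ?_ M
    rw [integrable_indicator_iff hAc.measurableSet]
    exact integrableOn_const (hs := hAc.measure_lt_top.ne)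
  · refine Filter.Eventually.of_forall fun w t ht => ?_
    have hpos := hδ' t (abs_le.2 ⟨ht.1.le, ht.2.le⟩)
    have h1 := hd (mv e z t) w
    have h2 : HasDerivAt (fun u : ℝ => Φ (mv e z u) w) (Φ' (mv e z t) w) t := by
      have h3 : HasDerivAt (fun u : ℝ => Φ (mv e (mv e z t) (u - t)) w) (Φ' (mv e z t) w) t := by
        have h4 : HasDerivAt (fun u : ℝ => u - t) 1 t := (hasDerivAt_id t).sub_const t
        have h5 : HasDerivAt (fun u : ℝ => Φ (mv e (mv e z t) u) w) (Φ' (mv e z t) w) (t - t) := by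
          rw [sub_self]; exact h1
        have := HasDerivAt.comp (x := t) (h := fun u : ℝ => u - t) h5 h4
        rw [mul_one] at this
        exact this
      refine h3.congr_of_eventuallyEq (Filter.Eventually.of_forall fun u => ?_)
      simp only
      rw [mv_mv hpos]
      congr 2
      ring
    exact h2.ofReal_comp.mul_const _

end Pool.Agent.N819
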