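import Pool.Agent.N819.Bound2

/-!
# Unfolding
-/

set_option autoImplicit false

open UpperHalfPlane MeasureTheory Filter Topology MatrixGroups
open Matrix.SpecialLinearGroup (mapGL)
open scoped Modular ENNReal

namespace Pool.Agent.N819

lemma null_re (c : ℝ) : volume {z : ℂ | z.re = c} = 0 := by
  have h := Complex.volume_preserving_equiv_real_prod
  have e : {z : ℂ | z.re = c} = Complex.measurableEquivRealProd ⁻¹' ({c} ×ˢ Set.univ) := by
    ext z
    simp [Complex.measurableEquivRealProd]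
  rw [e, h.measure_preimage_equiv]
  rw [Measure.volume_eq_prod, Measure.prod_prod]
  simp

lemma measurableSet_fd : MeasurableSet (𝒟 : Set ℍ) := ModularGroup.isClosed_fd.measurableSet

lemma null_boundary : volume ((𝒟 : Set ℍ) \ 𝒟ᵒ) = 0 := by
  rw [volume_eq_lintegral]
  apply setLIntegral_measure_zero
  have hsub : (UpperHalfPlane.coe '' ((𝒟 : Set ℍ) \ 𝒟ᵒ) : Set ℂ) ⊆
      Metric.sphere (0 : ℂ) 1 ∪ ({z : ℂ | z.re = 1 / 2} ∪ {z : ℂ | z.re = - (1 / 2)}) := by
    rintro _ ⟨z, ⟨hz, hz'⟩, rfl⟩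
    by_cases h1 : Complex.normSq (z : ℂ) = 1
    · left
      rw [mem_sphere_zero_iff_norm]
      rw [Complex.normSq_eq_norm_sq] at h1
      nlinarith [norm_nonneg (z : ℂ)]
    · right
      have h2 : 1 < Complex.normSq (z : ℂ) := lt_of_le_of_ne hz.1 (Ne.symm h1)
      have h3 : ¬ |z.re| < 1 / 2 := fun h3 => hz' ⟨h2, h3⟩
      have h4 : |z.re| = 1 / 2 := le_antisymm hz.2 (not_lt.1 h3)
      rcases abs_eq (by norm_num : (0 : ℝ) ≤ 1 / 2) |>.1 h4 with h5 | h5
      · left; simpa using h5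
      · right; simpa using h5
  refine measure_mono_null hsub ?_
  rw [measure_union_null_iff, measure_union_null_iff]
  exact ⟨Measure.addHaar_sphere _ _ _, null_re _, null_re _⟩

lemma measure_sl_preimage (γ : SL(2, ℤ)) (s : Set ℍ) :
    volume ((fun z : ℍ => γ • z) ⁻¹' s) = volume s :=
  measure_preimage_smul (volume : Measure ℍ) (mapGL ℝ γ : GL (Fin 2) ℝ) s

lemma ae_count : ∀ᵐ u : ℍ, ∑' γ : SL(2, ℤ), (𝒟 : Set ℍ).indicator (fun _ => (1 : ℝ≥0∞)) (γ⁻¹ • u)
    = 2 := by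
  have hnull : volume (⋃ γ : SL(2, ℤ), (fun z : ℍ => γ • z) ⁻¹' ((𝒟 : Set ℍ) \ 𝒟ᵒ)) = 0 := by
    rw [measure_iUnion_null_iff]
    intro γ
    rw [measure_sl_preimage, null_boundary]
  filter_upwards [measure_eq_zero_iff_ae_notMem.1 hnull] with u hu
  obtain ⟨g, hg⟩ := ModularGroup.exists_smul_mem_fd u
  have hg' : g • u ∈ 𝒟ᵒ := by
    by_contra h
    exact hu (Set.mem_iUnion.2 ⟨g, hg, h⟩)
  have hne : g⁻¹ ≠ -g⁻¹ := by
    intro h
    have := congrArg (fun m : SL(2, ℤ) => (g * m) 0 0) h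
    simp at this
  rw [tsum_eq_sum (s := {g⁻¹, -g⁻¹})]
  · rw [Finset.sum_pair hne]
    have e1 : (g⁻¹)⁻¹ • u ∈ (𝒟 : Set ℍ) := by rw [inv_inv]; exact hg
    have e2 : (-g⁻¹)⁻¹ • u ∈ (𝒟 : Set ℍ) := by
      have : (-g⁻¹)⁻¹ = -g := by
        rw [inv_eq_iff_mul_eq_one]
        simp
      rw [this, ModularGroup.SL_neg_smul]; exact hg
    rw [Set.indicator_of_mem e1, Set.indicator_of_mem e2]
    norm_num
  · intro γ hγ
    rw [Set.indicator_of_notMem]
    intro hmem
    apply hγ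
    have h1 : (γ⁻¹ * g⁻¹) • (g • u) ∈ (𝒟 : Set ℍ) := by
      rw [← mul_smul, inv_mul_cancel_right]; exact hmem
    rcases ModularGroup.eq_one_or_neg_one_of_mem_fdo_mem_fd hg' h1 with h2 | h2
    · have : γ = g⁻¹ := by
        have := congrArg (fun m => γ * m) h2
        simp at this
        exact this.symm
      simp [this]
    · have : γ = - g⁻¹ := by
        have := congrArg (fun m => γ * m) h2
        simp at this
        rw [this, neg_neg]
      simp [this]

/-- the translates of the fundamental domain cover `ℍ` twice -/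
lemma sum_measure : Measure.sum (fun γ : SL(2, ℤ) =>
    ((volume : Measure ℍ).restrict 𝒟).map (fun z : ℍ => γ • z)) = (2 : ℝ≥0∞) • (volume : Measure ℍ) := by
  have hmeas : ∀ γ : SL(2, ℤ), Measurable (fun z : ℍ => γ • z) := fun γ =>
    (continuous_const_smul (mapGL ℝ γ : GL (Fin 2) ℝ)).measurable
  ext A hA
  rw [Measure.sum_apply _ hA, Measure.smul_apply, smul_eq_mul]
  have e1 : ∀ γ : SL(2, ℤ), ((volume : Measure ℍ).restrict 𝒟).map (fun z : ℍ => γ • z) A =
      ∫⁻ u in A, (𝒟 : Set ℍ).indicator (fun _ => (1 : ℝ≥0∞)) (γ⁻¹ • u) := by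
    intro γ
    rw [Measure.map_apply (hmeas γ) hA, Measure.restrict_apply (hmeas γ hA)]
    have h2 : (fun z : ℍ => γ • z) ⁻¹' A ∩ 𝒟 =
        (fun z : ℍ => γ • z) ⁻¹' (A ∩ (fun z : ℍ => γ⁻¹ • z) ⁻¹' 𝒟) := by
      ext z
      simp only [Set.mem_inter_iff, Set.mem_preimage, inv_smul_smul]
    rw [h2, measure_sl_preimage]
    have h3 : (fun u : ℍ => (𝒟 : Set ℍ).indicator (fun _ => (1 : ℝ≥0∞)) (γ⁻¹ • u)) =
        ((fun z : ℍ => γ⁻¹ • z) ⁻¹' 𝒟).indicator (fun _ => (1 : ℝ≥0∞)) := by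
      funext u
      rfl
    rw [h3, lintegral_indicator_const (hmeas γ⁻¹ measurableSet_fd), one_mul,
      Measure.restrict_apply (hmeas γ⁻¹ measurableSet_fd), Set.inter_comm]
  simp_rw [e1]
  rw [← lintegral_tsum]
  · rw [lintegral_congr_ae (ae_restrict_of_ae ae_count), lintegral_const,
      Measure.restrict_apply_univ]
  · intro γ
    exact (measurable_const.indicator measurableSet_fd).aemeasurable.comp_measurable (hmeas γ⁻¹)

lemma sl_measurableEmbedding (γ : SL(2, ℤ)) : MeasurableEmbedding (fun z : ℍ => γ • z) :=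
  measurableEmbedding_const_smul (mapGL ℝ γ : GL (Fin 2) ℝ)

lemma unfold_hasSum {F : ℍ → ℂ} (hF : Integrable F) :
    HasSum (fun γ : SL(2, ℤ) => ∫ w in 𝒟, F (γ • w)) (2 * ∫ w, F w) ∧
    Summable (fun γ : SL(2, ℤ) => ∫ w in 𝒟, ‖F (γ • w)‖) ∧
    ∀ γ : SL(2, ℤ), IntegrableOn (fun w => F (γ • w)) 𝒟 := by
  have hI : Integrable F (Measure.sum (fun γ : SL(2, ℤ) =>
      ((volume : Measure ℍ).restrict 𝒟).map (fun z : ℍ => γ • z))) := by
    rw [sum_measure]
    exact hF.smul_measure (by norm_num)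
  have h1 := hasSum_integral_measure hI
  rw [sum_measure, integral_smul_measure] at h1
  have e : ∀ γ : SL(2, ℤ), ∫ w, F w ∂(((volume : Measure ℍ).restrict 𝒟).map (fun z : ℍ => γ • z)) =
      ∫ w in 𝒟, F (γ • w) := fun γ => (sl_measurableEmbedding γ).integral_map _
  simp_rw [e] at h1
  have h2 := hasSum_integral_measure hI.norm
  have e' : ∀ γ : SL(2, ℤ), ∫ w, ‖F w‖ ∂(((volume : Measure ℍ).restrict 𝒟).map
      (fun z : ℍ => γ • z)) = ∫ w in 𝒟, ‖F (γ • w)‖ := fun γ =>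
    (sl_measurableEmbedding γ).integral_map _
  simp_rw [e'] at h2
  refine ⟨?_, h2.summable, fun γ => ?_⟩
  · have h4 : (2 : ℂ) * ∫ w, F w = ENNReal.toReal 2 • ∫ (x : ℍ), F x := by
      rw [Complex.real_smul]; simp
    rw [h4]; exact h1
  · have h3 : Integrable F (((volume : Measure ℍ).restrict 𝒟).map (fun z : ℍ => γ • z)) :=
      hI.mono_measure (Measure.le_sum _ γ)
    exact ((sl_measurableEmbedding γ).integrable_map_iff).1 h3

end Pool.Agent.N819
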