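import Pool.Agent.N819.Unfold
import Pool.Agent.N849.Hecke

/-!
# The operator `Lop h` on odd automorphic functions as an integral over the fundamental domain
-/

set_option autoImplicit false

open UpperHalfPlane MeasureTheory Filter Topology MatrixGroups
open Matrix.SpecialLinearGroup (mapGL)
open scoped Modular ENNReal

namespace Pool.Agent.N819

open Pool.Agent.N849.Hecke (Eqv)

variable {h : ℝ → ℝ}

lemma unfold_PP (hh : Good h) {f : ℍ → ℂ} (hf : BM f)
    (hinv : ∀ (γ : SL(2, ℤ)) (z : ℍ), f (γ • z) = f z) (z : ℍ) :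
    IntegrableOn (fun w => (PP h z w : ℂ) * f w) 𝒟 ∧
    2 * Lop h f z = ∫ w in 𝒟, (PP h z w : ℂ) * f w := by
  obtain ⟨R, hR⟩ := hh.supp
  have hF := hh.integrable_mul hf z
  obtain ⟨h1, h2, h3⟩ := unfold_hasSum hF
  have e1 : ∀ w : ℍ, (PP h z w : ℂ) * f w =
      ∑' γ : SL(2, ℤ), (h (vv z (γ • w)) : ℂ) * f (γ • w) := by
    intro w
    simp_rw [hinv]
    rw [tsum_mul_right, PP, Complex.ofReal_tsum]
  have h4 := hasSum_integral_of_summable_integral_norm h3 h2
  constructor
  · -- integrability of the sum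
    have h5 : Integrable (fun w => ∑' γ : SL(2, ℤ), (h (vv z (γ • w)) : ℂ) * f (γ • w))
        ((volume : Measure ℍ).restrict 𝒟) := by
      refine (hasFiniteIntegral_iff_enorm.2 ?_ |> fun hfi => ⟨?_, hfi⟩)
      · calc ∫⁻ w in 𝒟, ‖∑' γ : SL(2, ℤ), (h (vv z (γ • w)) : ℂ) * f (γ • w)‖ₑ
            ≤ ∫⁻ w in 𝒟, ∑' γ : SL(2, ℤ), ‖(h (vv z (γ • w)) : ℂ) * f (γ • w)‖ₑ := by
              refine lintegral_mono fun w => ?_
              have hs : Summable fun γ : SL(2, ℤ) => ‖(h (vv z (γ • w)) : ℂ) * f (γ • w)‖ := by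
                apply summable_of_hasFiniteSupport
                refine (PP_finite hR z w).subset fun γ hγ => ?_
                intro h0
                apply hγ
                simp only
                have h0' : h (vv z (γ • w)) = 0 := h0
                rw [h0']
                simp
              exact enorm_tsum_le_tsum_enorm
          _ = ∑' γ : SL(2, ℤ), ∫⁻ w in 𝒟, ‖(h (vv z (γ • w)) : ℂ) * f (γ • w)‖ₑ :=
              lintegral_tsum fun γ => (h3 γ).aestronglyMeasurable.enorm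
          _ < ⊤ := by
              have e2 : ∀ γ : SL(2, ℤ), ∫⁻ w in 𝒟, ‖(h (vv z (γ • w)) : ℂ) * f (γ • w)‖ₑ =
                  ENNReal.ofReal (∫ w in 𝒟, ‖(h (vv z (γ • w)) : ℂ) * f (γ • w)‖) := fun γ => by
                rw [ofReal_integral_norm_eq_lintegral_enorm (h3 γ)]
              simp_rw [e2]
              rw [← ENNReal.ofReal_tsum_of_nonneg (fun γ => integral_nonneg fun w => norm_nonneg _) h2]
              exact ENNReal.ofReal_lt_top
      · refine aestronglyMeasurable_of_tendsto_ae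
          (u := (atTop : Filter (Finset SL(2, ℤ)))) (f := fun (s : Finset SL(2, ℤ)) w =>
            ∑ γ ∈ s, (h (vv z (γ • w)) : ℂ) * f (γ • w)) (fun s => ?_) ?_
        · exact Finset.aestronglyMeasurable_fun_sum s fun γ _ => (h3 γ).aestronglyMeasurable
        · refine Eventually.of_forall fun w => ?_
          have hs : Summable fun γ : SL(2, ℤ) => (h (vv z (γ • w)) : ℂ) * f (γ • w) := by
            apply summable_of_hasFiniteSupport
            refine (PP_finite hR z w).subset fun γ hγ => ?_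
            intro h0
            apply hγ
            simp only
            have h0' : h (vv z (γ • w)) = 0 := h0
            rw [h0']
            simp
          exact hs.hasSum
    refine h5.congr (Eventually.of_forall fun w => ?_)
    exact (e1 w).symm
  · simp_rw [e1]
    rw [← h4.tsum_eq]
    exact h1.tsum_eq.symm

lemma setIntegral_J (G : ℍ → ℂ) : ∫ w in 𝒟, G (J • w) = ∫ w in 𝒟, G w := by
  rw [← integral_indicator measurableSet_fd, ← integral_indicator measurableSet_fd]
  rw [← integral_smul_eq_self (μ := (volume : Measure ℍ)) (fun w => (𝒟 : Set ℍ).indicator G w)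
    (g := (J : GL (Fin 2) ℝ))]
  congr 1
  funext w
  by_cases hw : w ∈ (𝒟 : Set ℍ)
  · rw [Set.indicator_of_mem hw, Set.indicator_of_mem (J_mem_fd hw)]
  · have hw' : J • w ∉ (𝒟 : Set ℍ) := fun h' => hw (by
      have := J_mem_fd h'
      rwa [J_J] at this)
    rw [Set.indicator_of_notMem hw, Set.indicator_of_notMem hw']

lemma integrableOn_J {G : ℍ → ℂ} (hG : IntegrableOn G 𝒟) : IntegrableOn (fun w => G (J • w)) 𝒟 := by
  rw [← integrable_indicator_iff measurableSet_fd] at hG ⊢
  have h1 := (measurePreserving_smul (J : GL (Fin 2) ℝ) (volume : Measure ℍ)).integrable_comp_of_integrable hG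
  refine h1.congr (Eventually.of_forall fun w => ?_)
  simp only [Function.comp]
  by_cases hw : w ∈ (𝒟 : Set ℍ)
  · rw [Set.indicator_of_mem hw, Set.indicator_of_mem (J_mem_fd hw)]
  · have hw' : J • w ∉ (𝒟 : Set ℍ) := fun h' => hw (by
      have := J_mem_fd h'
      rwa [J_J] at this)
    rw [Set.indicator_of_notMem hw, Set.indicator_of_notMem hw']

theorem unfold_KK (hh : Good h) {f : ℍ → ℂ} (hf : BM f) (he : Eqv f) (z : ℍ) :
    4 * Lop h f z = ∫ w in 𝒟, (KK h z w : ℂ) * f w := by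
  obtain ⟨h1, h2⟩ := unfold_PP hh hf he.inv z
  have h3 : 2 * Lop h f z = - ∫ w in 𝒟, (PP h z (J • w) : ℂ) * f w := by
    rw [h2, ← setIntegral_J, ← integral_neg]
    congr 1
    funext w
    rw [he.odd]
    ring
  have h4 : IntegrableOn (fun w => (PP h z (J • w) : ℂ) * f w) 𝒟 := by
    have := (integrableOn_J h1).neg
    refine this.congr (Eventually.of_forall fun w => ?_)
    simp only [Pi.neg_apply, he.odd]
    ring
  have e : ∀ w : ℍ, (KK h z w : ℂ) * f w = (PP h z w : ℂ) * f w - (PP h z (J • w) : ℂ) * f w := by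
    intro w
    unfold KK
    push_cast
    ring
  simp_rw [e]
  rw [integral_sub h1 h4, ← h2]
  linear_combination h3

/-- the fundamental domain has finite area -/
theorem fd_finite : (volume : Measure ℍ) (𝒟 : Set ℍ) < ⊤ := by
  rw [volume_eq_lintegral]
  have hsub : (UpperHalfPlane.coe '' (𝒟 : Set ℍ) : Set ℂ) ⊆
      {z : ℂ | z.re ∈ Set.Icc (-(1 / 2) : ℝ) (1 / 2) ∧ z.im ∈ Set.Ici (1 / 2 : ℝ)} := by
    rintro _ ⟨z, hz, rfl⟩
    exact ⟨abs_le.1 hz.2, fd_im hz⟩
  refine lt_of_le_of_lt (lintegral_mono_set hsub) ?_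
  have e : {z : ℂ | z.re ∈ Set.Icc (-(1 / 2) : ℝ) (1 / 2) ∧ z.im ∈ Set.Ici (1 / 2 : ℝ)} =
      Complex.measurableEquivRealProd ⁻¹' (Set.Icc (-(1 / 2) : ℝ) (1 / 2) ×ˢ Set.Ici (1 / 2 : ℝ)) := by
    ext z
    simp [Complex.measurableEquivRealProd]
  rw [e]
  have h1 := Complex.volume_preserving_equiv_real_prod.setLIntegral_comp_preimage_emb
    Complex.measurableEquivRealProd.measurableEmbedding
    (fun p : ℝ × ℝ => (((1 / ‖p.2‖₊) ^ 2 : NNReal) : ℝ≥0∞))
    (Set.Icc (-(1 / 2) : ℝ) (1 / 2) ×ˢ Set.Ici (1 / 2 : ℝ))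
  have h2 : (fun z : ℂ => (((1 / ‖z.im‖₊) ^ 2 : NNReal) : ℝ≥0∞)) =
      fun z : ℂ => (fun p : ℝ × ℝ => (((1 / ‖p.2‖₊) ^ 2 : NNReal) : ℝ≥0∞))
        (Complex.measurableEquivRealProd z) := by
    funext z
    rfl
  rw [h2, h1, Measure.volume_eq_prod, ← Measure.prod_restrict]
  rw [lintegral_prod _ (by fun_prop)]
  simp only [lintegral_const, Measure.restrict_apply_univ]
  refine ENNReal.mul_lt_top ?_ (by simp)
  have h3 : IntegrableOn (fun y : ℝ => y ^ (-2 : ℝ)) (Set.Ici (1 / 2 : ℝ)) := by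
    rw [integrableOn_Ici_iff_integrableOn_Ioi]
    exact integrableOn_Ioi_rpow_of_lt (by norm_num) (by norm_num)
  have h4 := h3.2
  rw [hasFiniteIntegral_iff_enorm] at h4
  refine lt_of_le_of_lt (le_of_eq ?_) h4
  refine setLIntegral_congr_fun measurableSet_Ici fun y hy => ?_
  have hy0 : (0 : ℝ) < y := lt_of_lt_of_le (by norm_num) hy
  rw [enorm_eq_nnnorm]
  congr 1
  ext
  simp only [NNReal.coe_pow, NNReal.coe_div, NNReal.coe_one, coe_nnnorm, Real.norm_eq_abs]
  rw [abs_of_pos hy0, abs_of_pos (by positivity), Real.rpow_neg hy0.le]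
  simp

end Pool.Agent.N819
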